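import Pool.Agent.Helper12.GM.Defs

set_option autoImplicit false

namespace Pool.Agent.Helper12.GM

open MeasureTheory ProbabilityTheory MvPolynomial
open scoped ComplexConjugate ENNReal

/-- The sign of a Boolean. -/
noncomputable def sg (b : Bool) : ℝ := if b then 1 else -1

theorem rad_apply {s : Set ℝ} (hs : MeasurableSet s) :
    rad s = ∑ b : Bool, (2⁻¹ : ℝ≥0∞) * s.indicator 1 (sg b) := by
  unfold rad sg
  simp [Measure.dirac_apply' _ hs]

theorem pi_rad {n : ℕ} : (Measure.pi fun _ : Fin n => rad) =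
    ∑ x : Fin n → Bool, ((2⁻¹ : ℝ≥0∞) ^ n) • Measure.dirac (fun i => sg (x i)) := by
  haveI : IsProbabilityMeasure rad := by
    constructor
    rw [rad_apply MeasurableSet.univ]
    simp only [Set.indicator_univ, Pi.one_apply, Finset.sum_const, Finset.card_univ, Fintype.card_bool, mul_one, nsmul_eq_mul]
    exact ENNReal.mul_inv_cancel (by norm_num) (by norm_num)
  refine Measure.pi_eq fun s hs => ?_
  have h1 : ∀ i, rad (s i) = ∑ b : Bool, (2⁻¹ : ℝ≥0∞) * (s i).indicator 1 (sg b) :=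
    fun i => rad_apply (hs i)
  simp_rw [h1]
  rw [Finset.prod_univ_sum]
  simp only [Fintype.piFinset_univ]
  rw [Measure.finsetSum_apply]
  refine Finset.sum_congr rfl fun x _ => ?_
  rw [Measure.smul_apply, Measure.dirac_apply' _ (MeasurableSet.univ_pi hs), smul_eq_mul,
    Finset.prod_mul_distrib, Finset.prod_const, Finset.card_univ, Fintype.card_fin]
  congr 1
  by_cases h : (fun i => sg (x i)) ∈ Set.univ.pi s
  · rw [Set.indicator_of_mem h]
    symm
    apply Finset.prod_eq_one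
    intro i _
    rw [Set.indicator_of_mem (h i (Set.mem_univ i))]
    rfl
  · rw [Set.indicator_of_notMem h]
    symm
    rw [Set.mem_univ_pi] at h
    push Not at h
    obtain ⟨i, hi⟩ := h
    apply Finset.prod_eq_zero (Finset.mem_univ i)
    rw [Set.indicator_of_notMem hi]

theorem cube_sum {n : ℕ} (F : (Fin n → ℝ) → ℝ) :
    ∑ x : Fin n → Bool, F (fun i => if x i then (1 : ℝ) else -1) =
      2 ^ n * ∫ x, F x ∂(Measure.pi fun _ => rad) := by
  rw [pi_rad, integral_finsetSum_measure]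
  · simp_rw [integral_smul_measure, integral_dirac]
    rw [← Finset.smul_sum]
    simp only [ENNReal.toReal_pow, ENNReal.toReal_inv, ENNReal.toReal_ofNat, smul_eq_mul]
    rw [← mul_assoc, ← mul_pow]
    norm_num
    rfl
  · intro x _
    apply Integrable.smul_measure
    · exact integrable_dirac (by simp)
    · simp

theorem char_orth {n : ℕ} (S T : Finset (Fin n)) :
    ∑ x : Fin n → Bool, (∏ i ∈ S, sg (x i)) * (∏ i ∈ T, sg (x i)) =
      if S = T then 2 ^ n else 0 := by
  have h1 : ∀ x : Fin n → Bool, (∏ i ∈ S, sg (x i)) * (∏ i ∈ T, sg (x i)) =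
      ∏ i, ((if i ∈ S then sg (x i) else 1) * (if i ∈ T then sg (x i) else 1)) := by
    intro x
    rw [Finset.prod_mul_distrib, Finset.prod_ite_mem, Finset.prod_ite_mem, Finset.univ_inter,
      Finset.univ_inter]
  simp_rw [h1]
  have h2 := Finset.prod_univ_sum (fun _ : Fin n => (Finset.univ : Finset Bool))
    (fun i b => (if i ∈ S then sg b else 1) * (if i ∈ T then sg b else 1))
  rw [Fintype.piFinset_univ] at h2
  rw [← h2]
  have h3 : ∀ i : Fin n, ∑ b : Bool, (if i ∈ S then sg b else 1) * (if i ∈ T then sg b else 1)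
      = if (i ∈ S ↔ i ∈ T) then (2 : ℝ) else 0 := by
    intro i
    by_cases hS : i ∈ S <;> by_cases hT : i ∈ T <;> simp [hS, hT, sg] <;> norm_num
  simp_rw [h3]
  split_ifs with h
  · subst h
    simp
  · have : ∃ i, ¬ (i ∈ S ↔ i ∈ T) := by
      by_contra hcon
      push Not at hcon
      exact h (Finset.ext fun i => by simpa using hcon i)
    obtain ⟨i, hi⟩ := this
    apply Finset.prod_eq_zero (Finset.mem_univ i)
    rw [if_neg hi]

theorem parseval {n : ℕ} (c : Finset (Fin n) → ℝ) :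
    ∑ x : Fin n → Bool, (rl c fun i => sg (x i)) ^ 2 = 2 ^ n * ∑ S, c S ^ 2 := by
  unfold rl
  have h1 : ∀ x : Fin n → Bool, (∑ S, c S * ∏ i ∈ S, sg (x i)) ^ 2
      = ∑ S, ∑ T, c S * c T * ((∏ i ∈ S, sg (x i)) * (∏ i ∈ T, sg (x i))) := by
    intro x
    rw [sq, Finset.sum_mul_sum]
    refine Finset.sum_congr rfl fun S _ => Finset.sum_congr rfl fun T _ => by ring
  simp_rw [h1]
  rw [Finset.sum_comm, Finset.mul_sum]
  refine Finset.sum_congr rfl fun S _ => ?_
  rw [Finset.sum_comm]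
  simp_rw [← Finset.mul_sum, char_orth]
  simp
  ring

/-- Lyapunov on the cube -/
theorem lyap {n : ℕ} (c : Finset (Fin n) → ℝ) {p : ℝ} (hp : 2 ≤ p) :
    2 ^ n * (∑ S, c S ^ 2) ^ (p / 2) ≤ ∑ x : Fin n → Bool, |rl c fun i => sg (x i)| ^ p := by
  have h1 := Real.rpow_arith_mean_le_arith_mean_rpow (Finset.univ : Finset (Fin n → Bool))
    (fun _ => ((2 : ℝ) ^ n)⁻¹) (fun x => (rl c fun i => sg (x i)) ^ 2)
    (fun _ _ => by positivity) (by simp) (fun _ _ => by positivity) (p := p / 2) (by linarith)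
  rw [← Finset.mul_sum, parseval, ← Finset.mul_sum, ← mul_assoc, inv_mul_cancel₀ (by positivity),
    one_mul] at h1
  have h2 : ∀ x : Fin n → Bool, ((rl c fun i => sg (x i)) ^ 2) ^ (p / 2)
      = |rl c fun i => sg (x i)| ^ p := by
    intro x
    rw [← sq_abs, ← Real.rpow_natCast, ← Real.rpow_mul (abs_nonneg _)]
    congr 1
    push_cast
    ring
  simp_rw [h2] at h1
  have h3 := mul_le_mul_of_nonneg_left h1 (show (0 : ℝ) ≤ 2 ^ n by positivity)
  rwa [← mul_assoc, mul_inv_cancel₀ (by positivity), one_mul] at h3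

theorem exp_const : 2 * Real.exp (5 / 4) < 7 := by
  have h1 : Real.exp (5 / 4) < 7 / 2 := by
    have h2 : Real.exp (5 / 4) ^ 4 < (7 / 2) ^ 4 := by
      rw [← Real.exp_nat_mul]
      have h3 : Real.exp (((4 : ℕ) : ℝ) * (5 / 4)) = Real.exp 1 ^ 5 := by
        rw [← Real.exp_nat_mul]; norm_num
      rw [h3]
      calc Real.exp 1 ^ 5 < (2.7182818286 : ℝ) ^ 5 :=
            pow_lt_pow_left₀ Real.exp_one_lt_d9 (Real.exp_pos _).le (by norm_num)
        _ < (7 / 2) ^ 4 := by norm_num
    exact lt_of_pow_lt_pow_left₀ 4 (by norm_num) h2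
  linarith

end Pool.Agent.Helper12.GM

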