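import Mathlib

/-! # Gauss-Markov project (MP_ec81d5_an): definitions

`gam ι` is the product standard Gaussian measure, `zz η (x, y) = cosh η x + i sinh η y`,
`el f ε u v a z = u(z) * conj (v(z)) * (|f(z)|^2 + ε)^a`. -/

set_option autoImplicit false

namespace Pool.Agent.Helper12.GM

open MeasureTheory ProbabilityTheory MvPolynomial
open scoped ComplexConjugate

/-- The product standard Gaussian measure on `ι → ℝ`. -/
noncomputable def gam (ι : Type) [Fintype ι] : Measure (ι → ℝ) :=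
  Measure.pi fun _ => gaussianReal 0 1

/-- The law of a pair `(x, y)` of independent standard Gaussian vectors. -/
noncomputable def gam2 (ι : Type) [Fintype ι] : Measure ((ι → ℝ) × (ι → ℝ)) :=
  (gam ι).prod (gam ι)

/-- The law of a random sign. -/
noncomputable def rad : Measure ℝ :=
  (2⁻¹ : ENNReal) • Measure.dirac 1 + (2⁻¹ : ENNReal) • Measure.dirac (-1)

/-- The complex vector `cosh η x + i sinh η y`. -/
noncomputable def zz {ι : Type} (η : ℝ) (w : (ι → ℝ) × (ι → ℝ)) : ι → ℂ :=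
  fun j => (Real.cosh η : ℂ) * (w.1 j : ℂ) + (Real.sinh η : ℂ) * (w.2 j : ℂ) * Complex.I

section

variable {ι : Type} [Fintype ι] [DecidableEq ι]

/-- `|f|^2 + ε`. -/
noncomputable def sf (f : MvPolynomial ι ℂ) (ε : ℝ) (z : ι → ℂ) : ℝ := ‖eval z f‖ ^ 2 + ε

/-- `u conj(v) (|f|^2 + ε)^a`. -/
noncomputable def el (f : MvPolynomial ι ℂ) (ε : ℝ) (u v : MvPolynomial ι ℂ) (a : ℝ)
    (z : ι → ℂ) : ℂ :=
  eval z u * conj (eval z v) * ((sf f ε z ^ a : ℝ) : ℂ)

/-- The holomorphic derivative of `el` in the `j`-th coordinate. -/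
noncomputable def elD (f : MvPolynomial ι ℂ) (ε : ℝ) (j : ι) (u v : MvPolynomial ι ℂ) (a : ℝ)
    (z : ι → ℂ) : ℂ :=
  el f ε (pderiv j u) v a z + (a : ℂ) * el f ε (u * pderiv j f) (v * f) (a - 1) z

/-- The antiholomorphic derivative of `el` in the `j`-th coordinate. -/
noncomputable def elB (f : MvPolynomial ι ℂ) (ε : ℝ) (j : ι) (u v : MvPolynomial ι ℂ) (a : ℝ)
    (z : ι → ℂ) : ℂ :=
  el f ε u (pderiv j v) a z + (a : ℂ) * el f ε (u * f) (v * pderiv j f) (a - 1) z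

/-- The holomorphic Ornstein-Uhlenbeck operator `N v = ∑ z_j v_j - v_jj`. -/
noncomputable def nOp (v : MvPolynomial ι ℂ) : MvPolynomial ι ℂ :=
  ∑ j, (X j * pderiv j v - pderiv j (pderiv j v))

/-- `∑ v_j w_j`. -/
noncomputable def gm (v w : MvPolynomial ι ℂ) : MvPolynomial ι ℂ :=
  ∑ j, pderiv j v * pderiv j w

/-- `u * conj (N (v s^a))`, the antiholomorphic OU operator applied to `el f ε u v a`. -/
noncomputable def nb (f : MvPolynomial ι ℂ) (ε : ℝ) (u v : MvPolynomial ι ℂ) (a : ℝ)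
    (z : ι → ℂ) : ℂ :=
  el f ε u (nOp v) a z + (a : ℂ) * el f ε (u * f) (v * nOp f - 2 * gm v f) (a - 1) z
    - (a : ℂ) * ((a : ℂ) - 1) * el f ε (u * f ^ 2) (v * gm f f) (a - 2) z

/-- `N (s^κ)`. -/
noncomputable def AG (f : MvPolynomial ι ℂ) (ε κ : ℝ) (z : ι → ℂ) : ℂ :=
  (κ : ℂ) * el f ε (nOp f) f (κ - 1) z
    - (κ : ℂ) * ((κ : ℂ) - 1) * el f ε (gm f f) (f ^ 2) (κ - 2) z

/-- `conj(N) N (s^κ)`. -/
noncomputable def BG (f : MvPolynomial ι ℂ) (ε κ : ℝ) (z : ι → ℂ) : ℂ :=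
  (κ : ℂ) * nb f ε (nOp f) f (κ - 1) z
    - (κ : ℂ) * ((κ : ℂ) - 1) * nb f ε (gm f f) (f ^ 2) (κ - 2) z

/-- The multilinear polynomial `∑ c_S z^S`. -/
noncomputable def ml (c : Finset ι → ℂ) (z : ι → ℂ) : ℂ := ∑ S, c S * ∏ i ∈ S, z i

end

/-- The real multilinear polynomial `∑ c_S x^S`. -/
noncomputable def rl {n : ℕ} (c : Finset (Fin n) → ℝ) (x : Fin n → ℝ) : ℝ :=
  ∑ S, c S * ∏ i ∈ S, x i

/-- Gaussian or Rademacher -/
def GR (μ : Measure ℝ) : Prop := μ = gaussianReal 0 1 ∨ μ = rad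

end Pool.Agent.Helper12.GM
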