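import Pool.Agent.Helper12.GM.RowF1

/-! # Gauss-Markov project, row F2: one Lindeberg step -/

set_option autoImplicit false

namespace Pool.Agent.Helper12.GM

open MeasureTheory ProbabilityTheory MvPolynomial
open scoped ComplexConjugate

theorem integrable_rad (f : ℝ → ℝ) : Integrable f rad := by
  unfold rad
  refine Integrable.add_measure ?_ ?_
  · refine Integrable.smul_measure ?_ (by simp)
    exact integrable_dirac (by simp)
  · refine Integrable.smul_measure ?_ (by simp)
    exact integrable_dirac (by simp)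

theorem integral_rad (f : ℝ → ℝ) : ∫ t, f t ∂rad = (f 1 + f (-1)) / 2 := by
  unfold rad
  rw [integral_add_measure
    ((integrable_dirac (by simp)).smul_measure (by simp))
    ((integrable_dirac (by simp)).smul_measure (by simp)),
    integral_smul_measure, integral_smul_measure, integral_dirac, integral_dirac]
  simp only [ENNReal.toReal_inv, ENNReal.toReal_ofNat, smul_eq_mul]
  ring

instance rad_prob : IsProbabilityMeasure rad := by
  constructor
  unfold rad
  simp only [Measure.add_apply, Measure.smul_apply, measure_univ, smul_eq_mul, mul_one]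
  exact ENNReal.inv_two_add_inv_two

theorem integrable_abs_rpow_gaussian (r : ℝ) (hr : 0 ≤ r) :
    Integrable (fun t : ℝ => |t| ^ r) (gaussianReal 0 1) := by
  rcases eq_or_lt_of_le hr with h0 | h0
  · rw [← h0]
    simp
  · have h := memLp_id_gaussianReal (μ := 0) (v := 1) (Real.toNNReal r)
    have h2 := h.integrable_norm_rpow (by
      intro h3
      have h4 : Real.toNNReal r = 0 := by exact_mod_cast h3
      have h5 := Real.toNNReal_eq_zero.1 h4
      linarith) (by simp)
    refine h2.congr (Filter.Eventually.of_forall fun t => ?_)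
    simp [Real.norm_eq_abs, Real.coe_toNNReal r hr]

theorem one_step_aux {p : ℝ} (hp : 2 < p) (C : ℝ)
    (hC : ∀ a h : ℝ,
      |(|a + h| ^ p - |a| ^ p - p * |a| ^ (p - 2) * a * h
        - p * (p - 1) / 2 * |a| ^ (p - 2) * h ^ 2)| ≤
      C * (|a| ^ (p - min p 3) * |h| ^ (min p 3) + |h| ^ p))
    (μ : Measure ℝ) [IsProbabilityMeasure μ] (h1 : ∫ t, t ∂μ = 0) (h2 : ∫ t, t ^ 2 ∂μ = 1)
    (hint : ∀ r : ℝ, 0 ≤ r → Integrable (fun t : ℝ => |t| ^ r) μ) (a b : ℝ) :
    |(∫ t, |a + b * t| ^ p ∂μ) - (|a| ^ p + p * (p - 1) / 2 * |a| ^ (p - 2) * b ^ 2)| ≤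
      C * (|a| ^ (p - min p 3) * |b| ^ (min p 3) * (∫ t, |t| ^ (min p 3) ∂μ)
        + |b| ^ p * ∫ t, |t| ^ p ∂μ) := by
  have hq2 : 2 < min p 3 := lt_min hp (by norm_num)
  have hp0 : 0 < p := by linarith
  have hi1 : Integrable (fun t : ℝ => t) μ := by
    have h := hint 1 zero_le_one
    refine h.mono (by fun_prop) ?_
    filter_upwards with t
    simp
  have hi2 : Integrable (fun t : ℝ => t ^ 2) μ := by
    have h := hint 2 zero_le_two
    refine h.congr ?_
    filter_upwards with t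
    rw [Real.rpow_two, sq_abs]
  have hiq := hint (min p 3) (by linarith)
  have hip := hint p hp0.le
  set F : ℝ → ℝ := fun t => |a| ^ p + (p * |a| ^ (p - 2) * a * b) * t
    + (p * (p - 1) / 2 * |a| ^ (p - 2) * b ^ 2) * t ^ 2 with hF
  set g : ℝ → ℝ := fun t => C * (|a| ^ (p - min p 3) * |b| ^ (min p 3)) * |t| ^ (min p 3)
    + C * |b| ^ p * |t| ^ p with hg
  have hiF : Integrable F μ := by
    refine ((integrable_const _).add (hi1.const_mul _)).add (hi2.const_mul _)
  have hig : Integrable g μ := (hiq.const_mul _).add (hip.const_mul _)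
  have hbd : ∀ t, ‖|a + b * t| ^ p - F t‖ ≤ g t := by
    intro t
    have h := hC a (b * t)
    rw [Real.norm_eq_abs]
    have e1 : |a + b * t| ^ p - F t = |a + b * t| ^ p - |a| ^ p - p * |a| ^ (p - 2) * a * (b * t)
        - p * (p - 1) / 2 * |a| ^ (p - 2) * (b * t) ^ 2 := by
      rw [hF]
      ring
    have e2 : g t = C * (|a| ^ (p - min p 3) * |b * t| ^ (min p 3) + |b * t| ^ p) := by
      rw [hg, abs_mul, Real.mul_rpow (abs_nonneg _) (abs_nonneg _),
        Real.mul_rpow (abs_nonneg _) (abs_nonneg _)]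
      ring
    rw [e1, e2]
    exact h
  have hiψ : Integrable (fun t => |a + b * t| ^ p - F t) μ := by
    refine hig.mono' ?_ (Filter.Eventually.of_forall hbd)
    refine Continuous.aestronglyMeasurable ?_
    refine Continuous.sub ?_ (by rw [hF]; fun_prop)
    exact Continuous.rpow_const (by fun_prop) (fun t => Or.inr hp0.le)
  have hsum : ∫ t, |a + b * t| ^ p ∂μ = ∫ t, F t ∂μ + ∫ t, (|a + b * t| ^ p - F t) ∂μ := by
    rw [← integral_add hiF hiψ]
    refine integral_congr_ae (Filter.Eventually.of_forall fun t => ?_)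
    simp
  have hFint : ∫ t, F t ∂μ = |a| ^ p + p * (p - 1) / 2 * |a| ^ (p - 2) * b ^ 2 := by
    have i1 : Integrable (fun _ : ℝ => |a| ^ p) μ := integrable_const _
    have i2 : Integrable (fun t : ℝ => (p * |a| ^ (p - 2) * a * b) * t) μ := hi1.const_mul _
    have i3 : Integrable (fun t : ℝ => (p * (p - 1) / 2 * |a| ^ (p - 2) * b ^ 2) * t ^ 2) μ :=
      hi2.const_mul _
    have i12 : Integrable (fun t : ℝ => |a| ^ p + (p * |a| ^ (p - 2) * a * b) * t) μ := i1.add i2
    have e1 : ∫ t, F t ∂μ = ∫ t, (|a| ^ p + (p * |a| ^ (p - 2) * a * b) * t) ∂μ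
        + ∫ t, (p * (p - 1) / 2 * |a| ^ (p - 2) * b ^ 2) * t ^ 2 ∂μ := integral_add i12 i3
    have e2 : ∫ t, (|a| ^ p + (p * |a| ^ (p - 2) * a * b) * t) ∂μ = ∫ _t : ℝ, |a| ^ p ∂μ
        + ∫ t, (p * |a| ^ (p - 2) * a * b) * t ∂μ := integral_add i1 i2
    rw [e1, e2, integral_const_mul, integral_const_mul, h1, h2]
    simp
  have hgint : ∫ t, g t ∂μ = C * (|a| ^ (p - min p 3) * |b| ^ (min p 3) *
      (∫ t, |t| ^ (min p 3) ∂μ) + |b| ^ p * ∫ t, |t| ^ p ∂μ) := by
    rw [hg, integral_add (hiq.const_mul _) (hip.const_mul _), integral_const_mul,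
      integral_const_mul]
    ring
  rw [hsum, hFint, add_sub_cancel_left, ← hgint, ← Real.norm_eq_abs]
  exact norm_integral_le_of_norm_le hig (Filter.Eventually.of_forall hbd)

theorem one_step {p : ℝ} (hp : 2 < p) : ∃ C : ℝ, 0 < C ∧ ∀ a b : ℝ,
    |(∫ t, |a + b * t| ^ p ∂(gaussianReal 0 1)) - (∫ t, |a + b * t| ^ p ∂rad)| ≤
      C * (|a| ^ (p - min p 3) * |b| ^ (min p 3) + |b| ^ p) := by
  obtain ⟨C, hC0, hC⟩ := taylor_pow hp
  have hp0 : 0 < p := by linarith
  set Mq : ℝ := ∫ t, |t| ^ (min p 3) ∂(gaussianReal 0 1) with hMq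
  set Mp : ℝ := ∫ t, |t| ^ p ∂(gaussianReal 0 1) with hMp
  have hMq0 : 0 ≤ Mq := integral_nonneg fun t => by positivity
  have hMp0 : 0 ≤ Mp := integral_nonneg fun t => by positivity
  refine ⟨C * (Mq + Mp + 1), by positivity, ?_⟩
  intro a b
  have hg1 : ∫ t, t ∂(gaussianReal 0 1) = 0 := integral_id_gaussianReal
  have hg2 : ∫ t, t ^ 2 ∂(gaussianReal 0 1) = 1 := by
    have h := variance_fun_id_gaussianReal (μ := 0) (v := 1)
    rw [variance_of_integral_eq_zero (by fun_prop) hg1] at h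
    simpa using h
  have A := one_step_aux hp C hC (gaussianReal 0 1) hg1 hg2
    (fun r hr => integrable_abs_rpow_gaussian r hr) a b
  have B := one_step_aux hp C hC rad (by rw [integral_rad]; norm_num)
    (by rw [integral_rad]; norm_num) (fun r _ => integrable_rad _) a b
  rw [integral_rad (fun t => |t| ^ (min p 3)), integral_rad (fun t => |t| ^ p)] at B
  simp only [abs_one, Real.one_rpow, abs_neg] at B
  rw [← hMq, ← hMp] at A
  have hX : 0 ≤ |a| ^ (p - min p 3) * |b| ^ (min p 3) := by positivity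
  have hY : 0 ≤ |b| ^ p := by positivity
  set X := |a| ^ (p - min p 3) * |b| ^ (min p 3) with hXdef
  set Y := |b| ^ p with hYdef
  set P := ∫ t, |a + b * t| ^ p ∂(gaussianReal 0 1) with hP
  set Q := ∫ t, |a + b * t| ^ p ∂rad with hQ
  set Z := |a| ^ p + p * (p - 1) / 2 * |a| ^ (p - 2) * b ^ 2 with hZ
  have h3 : |P - Q| ≤ |P - Z| + |Q - Z| := by
    have : P - Q = (P - Z) - (Q - Z) := by ring
    rw [this]
    exact abs_sub _ _
  calc |P - Q| ≤ |P - Z| + |Q - Z| := h3
    _ ≤ C * (X * Mq + Y * Mp) + C * (X * ((1 + 1) / 2) + Y * ((1 + 1) / 2)) := add_le_add A B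
    _ = C * (X * (Mq + 1) + Y * (Mp + 1)) := by ring
    _ ≤ C * (X * (Mq + Mp + 1) + Y * (Mq + Mp + 1)) := by
        have e1 : X * (Mq + 1) ≤ X * (Mq + Mp + 1) :=
          mul_le_mul_of_nonneg_left (by linarith) hX
        have e2 : Y * (Mp + 1) ≤ Y * (Mq + Mp + 1) :=
          mul_le_mul_of_nonneg_left (by linarith) hY
        exact mul_le_mul_of_nonneg_left (by linarith) hC0.le
    _ = C * (Mq + Mp + 1) * (X + Y) := by ring

end Pool.Agent.Helper12.GM
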