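import Pool.Agent.Helper12.GM.RowE
import Pool.Agent.Helper12.GM.RowF2

/-! # Lindeberg replacement for multilinear polynomials with small influences -/

set_option autoImplicit false

open MeasureTheory ProbabilityTheory Finset

namespace Pool.Agent.Helper12.GM

namespace F3

open E

/-! ### Moments -/

lemma pow_interp {p : ℝ} {k : ℕ} (hp : 0 ≤ p) (hk : 1 ≤ k) (hpk : p ≤ 2 * k) {l x : ℝ}
    (hl : 0 < l) (hx : 0 ≤ x) :
    x ^ p ≤ l ^ p * ((1 - p / (2 * k)) + p / (2 * k) / l ^ (2 * k) * x ^ (2 * k)) := by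
  have hk' : (0 : ℝ) < 2 * k := by
    have : (1 : ℝ) ≤ k := by exact_mod_cast hk
    linarith
  have hw : p / (2 * k) ≤ 1 := (div_le_one hk').2 hpk
  have hy : 0 ≤ x / l := div_nonneg hx hl.le
  have h := Real.geom_mean_le_arith_mean2_weighted (w₁ := 1 - p / (2 * k)) (w₂ := p / (2 * k))
    (p₁ := 1) (p₂ := (x / l) ^ (2 * k)) (by linarith) (by positivity) zero_le_one (by positivity)
    (by ring)
  rw [Real.one_rpow, one_mul] at h
  have e2 : ((x / l) ^ (2 * k)) ^ (p / (2 * k)) = (x / l) ^ p := by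
    rw [← Real.rpow_natCast (x / l) (2 * k), ← Real.rpow_mul hy]
    congr 1
    push_cast
    field_simp
  rw [e2, Real.div_rpow hx hl.le, div_pow] at h
  have hlp : 0 < l ^ p := Real.rpow_pos_of_pos hl p
  have h' := mul_le_mul_of_nonneg_left h hlp.le
  rw [mul_div_cancel₀ _ hlp.ne'] at h'
  refine h'.trans (le_of_eq ?_)
  ring

lemma int_abs_rpow {Ω : Type*} [MeasurableSpace Ω] {μ : Measure Ω} [IsProbabilityMeasure μ]
    {F : Ω → ℝ} (hF : Measurable F) {p : ℝ} {k : ℕ} (hp : 0 ≤ p) (hk : 1 ≤ k)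
    (hpk : p ≤ 2 * k) (hi : Integrable (fun x => F x ^ (2 * k)) μ) :
    Integrable (fun x => |F x| ^ p) μ := by
  have h1 : Integrable (fun x => (1 : ℝ) ^ p * ((1 - p / (2 * k)) + p / (2 * k) / 1 ^ (2 * k) *
      |F x| ^ (2 * k))) μ := by
    refine Integrable.const_mul (Integrable.add (integrable_const _) (Integrable.const_mul ?_ _)) _
    refine hi.congr (Filter.Eventually.of_forall fun x => ?_)
    simp [pow_mul]
  refine h1.mono' ?_ (Filter.Eventually.of_forall fun x => ?_)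
  · exact (hF.abs.pow_const p).aestronglyMeasurable
  · rw [Real.norm_eq_abs, abs_of_nonneg (Real.rpow_nonneg (abs_nonneg _) _)]
    exact pow_interp hp hk hpk one_pos (abs_nonneg _)

lemma int_abs_le {Ω : Type*} [MeasurableSpace Ω] {μ : Measure Ω} [IsProbabilityMeasure μ]
    {F : Ω → ℝ} (hF : Measurable F) {p : ℝ} {k : ℕ} (hp : 0 ≤ p) (hk : 1 ≤ k)
    (hpk : p ≤ 2 * k) (hi : Integrable (fun x => F x ^ (2 * k)) μ) {l : ℝ} (hl : 0 < l)
    (h : ∫ x, F x ^ (2 * k) ∂μ ≤ l ^ (2 * k)) :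
    ∫ x, |F x| ^ p ∂μ ≤ l ^ p := by
  have hk' : (0 : ℝ) < 2 * k := by
    have : (1 : ℝ) ≤ k := by exact_mod_cast hk
    linarith
  have hi' : Integrable (fun x => |F x| ^ (2 * k)) μ := by
    refine hi.congr (Filter.Eventually.of_forall fun x => ?_)
    simp [pow_mul]
  have he : ∫ x, |F x| ^ (2 * k) ∂μ = ∫ x, F x ^ (2 * k) ∂μ := by
    refine integral_congr_ae (Filter.Eventually.of_forall fun x => ?_)
    simp [pow_mul]
  calc ∫ x, |F x| ^ p ∂μ
      ≤ ∫ x, l ^ p * ((1 - p / (2 * k)) + p / (2 * k) / l ^ (2 * k) * |F x| ^ (2 * k)) ∂μ := by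
        refine integral_mono (int_abs_rpow hF hp hk hpk hi) ?_ (fun x => pow_interp hp hk hpk hl (abs_nonneg _))
        exact Integrable.const_mul (Integrable.add (integrable_const _) (hi'.const_mul _)) _
    _ = l ^ p * ((1 - p / (2 * k)) + p / (2 * k) / l ^ (2 * k) * ∫ x, F x ^ (2 * k) ∂μ) := by
        rw [integral_const_mul, integral_add (integrable_const _) (hi'.const_mul _), integral_const,
          integral_const_mul, he]
        simp
    _ ≤ l ^ p * ((1 - p / (2 * k)) + p / (2 * k) / l ^ (2 * k) * l ^ (2 * k)) := by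
        have : 0 ≤ p / (2 * k) / l ^ (2 * k) := by positivity
        have := Real.rpow_nonneg hl.le p
        gcongr
    _ = l ^ p := by
        rw [div_mul_cancel₀ _ (by positivity)]
        ring

/-- Hölder for real exponents, positive bounds -/
lemma holder_real {Ω : Type*} [MeasurableSpace Ω] {μ : Measure Ω} {r q p : ℝ} (hr : 0 ≤ r)
    (hq : 0 < q) (hrq : r + q = p) {u v : Ω → ℝ} (mu : Measurable u) (mv : Measurable v)
    (hu : ∀ x, 0 ≤ u x) (hv : ∀ x, 0 ≤ v x)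
    (iu : Integrable (fun x => u x ^ p) μ) (iv : Integrable (fun x => v x ^ p) μ)
    {α β : ℝ} (hα : 0 < α) (hβ : 0 < β)
    (h1 : ∫ x, u x ^ p ∂μ ≤ α ^ p) (h2 : ∫ x, v x ^ p ∂μ ≤ β ^ p) :
    Integrable (fun x => u x ^ r * v x ^ q) μ ∧
    ∫ x, u x ^ r * v x ^ q ∂μ ≤ α ^ r * β ^ q := by
  have hp : 0 < p := by linarith
  have hαp : 0 < α ^ p := Real.rpow_pos_of_pos hα p
  have hβp : 0 < β ^ p := Real.rpow_pos_of_pos hβ p
  have hαr : 0 < α ^ r := Real.rpow_pos_of_pos hα r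
  have hβq : 0 < β ^ q := Real.rpow_pos_of_pos hβ q
  have hb : ∀ x, u x ^ r * v x ^ q ≤ α ^ r * β ^ q *
      (r / p / α ^ p * u x ^ p + q / p / β ^ p * v x ^ p) := by
    intro x
    have hs : 0 ≤ u x / α := div_nonneg (hu x) hα.le
    have ht : 0 ≤ v x / β := div_nonneg (hv x) hβ.le
    have h := Real.geom_mean_le_arith_mean2_weighted (w₁ := r / p) (w₂ := q / p)
      (p₁ := (u x / α) ^ p) (p₂ := (v x / β) ^ p) (by positivity) (by positivity)
      (Real.rpow_nonneg hs p) (Real.rpow_nonneg ht p)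
      (by rw [← add_div, hrq]; exact div_self hp.ne')
    have e1 : ((u x / α) ^ p) ^ (r / p) = u x ^ r / α ^ r := by
      rw [← Real.rpow_mul hs, mul_div_cancel₀ _ hp.ne', Real.div_rpow (hu x) hα.le]
    have e2 : ((v x / β) ^ p) ^ (q / p) = v x ^ q / β ^ q := by
      rw [← Real.rpow_mul ht, mul_div_cancel₀ _ hp.ne', Real.div_rpow (hv x) hβ.le]
    rw [e1, e2, Real.div_rpow (hu x) hα.le, Real.div_rpow (hv x) hβ.le] at h
    have h' := mul_le_mul_of_nonneg_left h (mul_pos hαr hβq).le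
    have e3 : α ^ r * β ^ q * (u x ^ r / α ^ r * (v x ^ q / β ^ q)) = u x ^ r * v x ^ q := by
      field_simp
    rw [e3] at h'
    refine h'.trans (le_of_eq ?_)
    ring
  have ib : Integrable (fun x => α ^ r * β ^ q *
      (r / p / α ^ p * u x ^ p + q / p / β ^ p * v x ^ p)) μ :=
    ((iu.const_mul _).add (iv.const_mul _)).const_mul _
  have iuv : Integrable (fun x => u x ^ r * v x ^ q) μ := by
    refine ib.mono' ?_ (Filter.Eventually.of_forall fun x => ?_)
    · exact ((mu.pow_const r).mul (mv.pow_const q)).aestronglyMeasurable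
    · rw [Real.norm_eq_abs, abs_of_nonneg (mul_nonneg (Real.rpow_nonneg (hu x) _)
        (Real.rpow_nonneg (hv x) _))]
      exact hb x
  refine ⟨iuv, ?_⟩
  calc ∫ x, u x ^ r * v x ^ q ∂μ
      ≤ ∫ x, α ^ r * β ^ q * (r / p / α ^ p * u x ^ p + q / p / β ^ p * v x ^ p) ∂μ :=
        integral_mono iuv ib hb
    _ = α ^ r * β ^ q * (r / p / α ^ p * ∫ x, u x ^ p ∂μ + q / p / β ^ p * ∫ x, v x ^ p ∂μ) := by
        rw [integral_const_mul, integral_add (iu.const_mul _) (iv.const_mul _), integral_const_mul,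
          integral_const_mul]
    _ ≤ α ^ r * β ^ q * (r / p / α ^ p * α ^ p + q / p / β ^ p * β ^ p) := by
        have : 0 ≤ r / p / α ^ p := by positivity
        have : 0 ≤ q / p / β ^ p := by positivity
        gcongr
    _ = α ^ r * β ^ q := by
        rw [div_mul_cancel₀ _ hαp.ne', div_mul_cancel₀ _ hβp.ne', ← add_div, hrq,
          div_self hp.ne', mul_one]

/-! ### Splitting off a coordinate -/

lemma sum_finset_succAbove {M : Type*} [AddCommMonoid M] {n : ℕ} (i : Fin (n + 1))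
    (f : Finset (Fin (n + 1)) → M) :
    ∑ S, f S = ∑ T : Finset (Fin n), f (T.map i.succAboveEmb) +
      ∑ T : Finset (Fin n), f (insert i (T.map i.succAboveEmb)) := by
  have h0 : (univ : Finset (Finset (Fin (n + 1)))) =
      (insert i ((univ : Finset (Fin n)).map i.succAboveEmb)).powerset := by
    ext S
    simp only [mem_univ, mem_powerset, true_iff]
    intro j _
    rcases Fin.eq_self_or_eq_succAbove i j with h | ⟨l, rfl⟩
    · simp [h]
    · simp
  have hn : i ∉ (univ : Finset (Fin n)).map i.succAboveEmb := by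
    simp [Fin.succAbove_ne]
  have hmap : ∀ g : Finset (Fin (n + 1)) → M,
      ∑ t ∈ ((univ : Finset (Fin n)).map i.succAboveEmb).powerset, g t
        = ∑ T : Finset (Fin n), g (T.map i.succAboveEmb) := by
    intro g
    symm
    refine Finset.sum_bij (fun T _ => T.map i.succAboveEmb) ?_ ?_ ?_ ?_
    · intro T _
      rw [mem_powerset]
      exact Finset.map_subset_map.2 (subset_univ T)
    · intro T _ T' _ h
      exact Finset.map_injective _ h
    · intro t ht
      rw [mem_powerset] at ht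
      obtain ⟨u, _, hu⟩ := Finset.subset_map_iff.1 ht
      exact ⟨u, mem_univ _, hu.symm⟩
    · intro T _; rfl
  rw [h0, Finset.sum_powerset_insert hn, hmap, hmap]

/-- coefficients without the coordinate `i` -/
def g0 {n : ℕ} (i : Fin (n + 1)) (c : Finset (Fin (n + 1)) → ℝ) (T : Finset (Fin n)) : ℝ :=
  c (T.map i.succAboveEmb)

/-- coefficients with the coordinate `i` -/
def g1 {n : ℕ} (i : Fin (n + 1)) (c : Finset (Fin (n + 1)) → ℝ) (T : Finset (Fin n)) : ℝ :=
  c (insert i (T.map i.succAboveEmb))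

lemma notMem_map {n : ℕ} (i : Fin (n + 1)) (T : Finset (Fin n)) : i ∉ T.map i.succAboveEmb := by
  simp [Fin.succAbove_ne]

lemma rl_insertNth {n : ℕ} (i : Fin (n + 1)) (c : Finset (Fin (n + 1)) → ℝ) (t : ℝ)
    (y : Fin n → ℝ) :
    rl c (i.insertNth t y) = rl (g0 i c) y + rl (g1 i c) y * t := by
  unfold rl
  rw [sum_finset_succAbove i]
  congr 1
  · refine sum_congr rfl fun T _ => ?_
    simp [g0, Finset.prod_map]
  · rw [sum_mul]
    refine sum_congr rfl fun T _ => ?_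
    rw [Finset.prod_insert (notMem_map i T)]
    simp only [Fin.insertNth_apply_same, g1, Finset.prod_map, Fin.coe_succAboveEmb,
      Fin.insertNth_apply_succAbove]
    ring

lemma sum_sq_g {n : ℕ} (i : Fin (n + 1)) (c : Finset (Fin (n + 1)) → ℝ) :
    ∑ S, c S ^ 2 = ∑ T, g0 i c T ^ 2 + ∑ T, g1 i c T ^ 2 := by
  rw [sum_finset_succAbove i]; rfl

lemma inf_eq {n : ℕ} (i : Fin (n + 1)) (c : Finset (Fin (n + 1)) → ℝ) :
    ∑ S with i ∈ S, c S ^ 2 = ∑ T, g1 i c T ^ 2 := by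
  rw [sum_filter, sum_finset_succAbove i]
  have h : ∑ T : Finset (Fin n), (if i ∈ T.map i.succAboveEmb then c (T.map i.succAboveEmb) ^ 2 else 0) = 0 :=
    sum_eq_zero fun T _ => if_neg (notMem_map i T)
  rw [h, zero_add]
  refine sum_congr rfl fun T _ => ?_
  rw [if_pos (mem_insert_self _ _)]
  rfl

lemma integral_pi_insertNth {n : ℕ} (i : Fin (n + 1)) {μ : Fin (n + 1) → Measure ℝ}
    [∀ i, IsProbabilityMeasure (μ i)] (F : (Fin (n + 1) → ℝ) → ℝ)
    (hF : Integrable F (Measure.pi μ)) :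
    ∫ x, F x ∂(Measure.pi μ) =
      ∫ y, ∫ t, F (i.insertNth t y) ∂(μ i) ∂(Measure.pi fun j => μ (i.succAbove j)) := by
  have hmp := (measurePreserving_piFinSuccAbove μ i).symm
  rw [← hmp.integral_comp']
  rw [← hmp.integrable_comp_emb (MeasurableEquiv.measurableEmbedding _)] at hF
  exact (integral_prod_symm _ hF).trans rfl

lemma integrable_inner {n : ℕ} (i : Fin (n + 1)) {μ : Fin (n + 1) → Measure ℝ}
    [∀ i, IsProbabilityMeasure (μ i)] (F : (Fin (n + 1) → ℝ) → ℝ)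
    (hF : Integrable F (Measure.pi μ)) :
    Integrable (fun y => ∫ t, F (i.insertNth t y) ∂(μ i)) (Measure.pi fun j => μ (i.succAbove j)) := by
  have hmp := (measurePreserving_piFinSuccAbove μ i).symm
  rw [← hmp.integrable_comp_emb (MeasurableEquiv.measurableEmbedding _)] at hF
  exact hF.integral_prod_right

lemma rl_measurable {n : ℕ} (c : Finset (Fin n) → ℝ) : Measurable (rl c) :=
  (continuous_rl c).measurable

/-- the moment bound for real exponents -/
lemma moment {p : ℝ} {k : ℕ} (hp : 0 ≤ p) (hk : 1 ≤ k) (hpk : p ≤ 2 * k) {n : ℕ}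
    (μ : Fin n → Measure ℝ) (hμ : ∀ i, GR (μ i)) (c : Finset (Fin n) → ℝ)
    (d : ℕ) (hc : ∀ S : Finset (Fin n), d < S.card → c S = 0) {l : ℝ} (hl : 0 < l)
    (h : ((2 * k - 1 : ℕ) : ℝ) ^ d * ∑ S, c S ^ 2 ≤ l ^ 2) :
    Integrable (fun x => |rl c x| ^ p) (Measure.pi μ) ∧
      ∫ x, |rl c x| ^ p ∂(Measure.pi μ) ≤ l ^ p := by
  have : ∀ i, IsProbabilityMeasure (μ i) := fun i => prob_of_GR (hμ i)
  obtain ⟨h1, h2⟩ := hyper μ hμ c d hc k hk
  refine ⟨int_abs_rpow (rl_measurable c) hp hk hpk h1, int_abs_le (rl_measurable c) hp hk hpk h1 hl ?_⟩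
  refine h2.trans ?_
  rw [mul_comm k d, pow_mul, ← mul_pow, pow_mul]
  have h0 : 0 ≤ ∑ S, c S ^ 2 := sum_nonneg fun S _ => sq_nonneg _
  exact pow_le_pow_left₀ (by positivity) h k

lemma step {p : ℝ} (hp : 2 < p) {C : ℝ} (hC : 0 < C)
    (hone : ∀ a b : ℝ,
      |(∫ t, |a + b * t| ^ p ∂(gaussianReal 0 1)) - (∫ t, |a + b * t| ^ p ∂rad)| ≤
        C * (|a| ^ (p - min p 3) * |b| ^ (min p 3) + |b| ^ p))
    {k : ℕ} (hk : 1 ≤ k) (hpk : p ≤ 2 * k) {n d : ℕ} (c : Finset (Fin n) → ℝ)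
    (hc : ∀ S : Finset (Fin n), d < S.card → c S = 0) (i : Fin n)
    (μ μ' : Fin n → Measure ℝ) (hμ : ∀ j, GR (μ j)) (hμ' : ∀ j, GR (μ' j))
    (hi : μ i = gaussianReal 0 1) (hi' : μ' i = rad) (hoff : ∀ j, j ≠ i → μ j = μ' j)
    {I W : ℝ} (hI : ∑ S with i ∈ S, c S ^ 2 ≤ I) (hW : ∑ S, c S ^ 2 ≤ W) :
    |(∫ x, |rl c x| ^ p ∂(Measure.pi μ)) - (∫ x, |rl c x| ^ p ∂(Measure.pi μ'))| ≤
      2 * C * (((2 * k - 1 : ℕ) : ℝ) ^ d) ^ (p / 2) *
        (I ^ ((min p 3 - 2) / 2) * W ^ ((p - min p 3) / 2)) * ∑ S with i ∈ S, c S ^ 2 := by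
  have hP : ∀ i, IsProbabilityMeasure (μ i) := fun i => prob_of_GR (hμ i)
  have hP' : ∀ i, IsProbabilityMeasure (μ' i) := fun i => prob_of_GR (hμ' i)
  rcases n with _ | n
  · exact i.elim0
  rw [inf_eq i c] at hI ⊢
  set V : ℝ := ∑ T, g1 i c T ^ 2 with hV
  have hV0 : 0 ≤ V := sum_nonneg fun T _ => sq_nonneg _
  have hs := sum_sq_g i c
  rw [← hV] at hs
  have hG0 : 0 ≤ ∑ T, g0 i c T ^ 2 := sum_nonneg fun T _ => sq_nonneg _
  have hVW : V ≤ W := by linarith
  have hGW : ∑ T, g0 i c T ^ 2 ≤ W := by linarith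
  set q : ℝ := min p 3 with hq
  have hq2 : 2 < q := lt_min hp (by norm_num)
  have hqp : q ≤ p := min_le_left _ _
  have hr : 0 ≤ p - q := by linarith
  set D : ℝ := ((2 * k - 1 : ℕ) : ℝ) ^ d with hD
  have hD1 : 1 ≤ D := by
    have : (1 : ℝ) ≤ ((2 * k - 1 : ℕ) : ℝ) := by
      have : 1 ≤ 2 * k - 1 := by omega
      exact_mod_cast this
    exact one_le_pow₀ this
  have hD0 : 0 < D := by linarith
  -- the common law of the other coordinates
  set ν : Fin n → Measure ℝ := fun j => μ (i.succAbove j) with hν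
  have hν' : (fun j => μ' (i.succAbove j)) = ν := by
    funext j
    exact (hoff _ (Fin.succAbove_ne i j)).symm
  have hνG : ∀ j, GR (ν j) := fun j => hμ _
  have hPν : ∀ j, IsProbabilityMeasure (ν j) := fun j => prob_of_GR (hνG j)
  have hd0 : ∀ T, d < T.card → g0 i c T = 0 := fun T hT => hc _ (by simpa using hT)
  have hd1 : ∀ T, d < T.card → g1 i c T = 0 := by
    intro T hT
    refine hc _ ?_
    rw [card_insert_of_notMem (notMem_map i T), card_map]
    omega
  have hk2 : (0 : ℝ) ≤ p := by linarith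
  -- integrability of the two integrands
  have hsqrt : ∀ v : ℝ, 0 ≤ v → D * v ≤ (Real.sqrt (D * v) + 1) ^ 2 := by
    intro v hv
    have h1 := Real.sq_sqrt (mul_nonneg hD0.le hv)
    have h2 := Real.sqrt_nonneg (D * v)
    nlinarith
  have hc0 : 0 ≤ ∑ S, c S ^ 2 := sum_nonneg fun S _ => sq_nonneg _
  have hint : Integrable (fun x => |rl c x| ^ p) (Measure.pi μ) :=
    (moment hk2 hk hpk μ hμ c d hc (l := Real.sqrt (D * ∑ S, c S ^ 2) + 1)
      (by have := Real.sqrt_nonneg (D * ∑ S, c S ^ 2); linarith) (hsqrt _ hc0)).1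
  have hint' : Integrable (fun x => |rl c x| ^ p) (Measure.pi μ') :=
    (moment hk2 hk hpk μ' hμ' c d hc (l := Real.sqrt (D * ∑ S, c S ^ 2) + 1)
      (by have := Real.sqrt_nonneg (D * ∑ S, c S ^ 2); linarith) (hsqrt _ hc0)).1
  have E1 := integral_pi_insertNth i (μ := μ) _ hint
  have E2 := integral_pi_insertNth i (μ := μ') _ hint'
  have J1 := integrable_inner i (μ := μ) _ hint
  have J2 := integrable_inner i (μ := μ') _ hint'
  rw [hi] at E1 J1
  rw [hi', hν'] at E2 J2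
  simp only [rl_insertNth] at E1 E2 J1 J2
  rw [E1, E2, ← integral_sub J1 J2]
  by_cases hVz : V = 0
  · -- no dependence on the coordinate
    have hz : ∀ T, g1 i c T = 0 := by
      intro T
      have := (sum_eq_zero_iff_of_nonneg (fun T _ => sq_nonneg (g1 i c T))).1 (hV ▸ hVz) T (mem_univ T)
      exact pow_eq_zero_iff (two_ne_zero) |>.1 this
    have hz' : ∀ y, rl (g1 i c) y = 0 := by
      intro y
      unfold rl
      exact sum_eq_zero fun T _ => by rw [hz T, zero_mul]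
    have hrad : IsProbabilityMeasure rad := inferInstance
    simp [hz', hVz]
  · have hVp : 0 < V := lt_of_le_of_ne hV0 (Ne.symm hVz)
    have hWp : 0 < W := by linarith
    have hIp : 0 < I := by linarith
    set α : ℝ := Real.sqrt (D * W) with hα
    set β : ℝ := Real.sqrt (D * V) with hβ
    have hαp : 0 < α := Real.sqrt_pos.2 (by positivity)
    have hβp : 0 < β := Real.sqrt_pos.2 (by positivity)
    obtain ⟨ig, mg⟩ := moment hk2 hk hpk ν hνG (g0 i c) d hd0 hαp
      (by rw [hα, Real.sq_sqrt (by positivity)]; exact mul_le_mul_of_nonneg_left hGW hD0.le)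
    obtain ⟨ih, mh⟩ := moment hk2 hk hpk ν hνG (g1 i c) d hd1 hβp
      (by rw [hβ, Real.sq_sqrt (by positivity)])
    obtain ⟨igh, mgh⟩ := holder_real (μ := Measure.pi ν) hr (by linarith : 0 < q) (by ring : p - q + q = p)
      (u := fun y => |rl (g0 i c) y|) (v := fun y => |rl (g1 i c) y|)
      (rl_measurable _).abs (rl_measurable _).abs (fun _ => abs_nonneg _) (fun _ => abs_nonneg _)
      ig ih hαp hβp mg mh
    have hbound := norm_integral_le_of_norm_le ((igh.add ih).const_mul C)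
      (f := fun y => (∫ t, |rl (g0 i c) y + rl (g1 i c) y * t| ^ p ∂(gaussianReal 0 1)) -
        ∫ t, |rl (g0 i c) y + rl (g1 i c) y * t| ^ p ∂rad)
      (Filter.Eventually.of_forall fun y => by
        rw [Real.norm_eq_abs]
        exact hone (rl (g0 i c) y) (rl (g1 i c) y))
    rw [Real.norm_eq_abs] at hbound
    refine hbound.trans ?_
    simp only [Pi.add_apply]
    rw [integral_const_mul, integral_add igh ih]
    -- numerical comparison
    have eα : α ^ (p - q) = D ^ ((p - q) / 2) * W ^ ((p - q) / 2) := by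
      rw [hα, Real.sqrt_eq_rpow, ← Real.rpow_mul (by positivity), Real.mul_rpow hD0.le hWp.le]
      ring_nf
    have eβ : β ^ q = D ^ (q / 2) * V ^ (q / 2) := by
      rw [hβ, Real.sqrt_eq_rpow, ← Real.rpow_mul (by positivity), Real.mul_rpow hD0.le hVp.le]
      ring_nf
    have eβ' : β ^ p = D ^ (p / 2) * V ^ (p / 2) := by
      rw [hβ, Real.sqrt_eq_rpow, ← Real.rpow_mul (by positivity), Real.mul_rpow hD0.le hVp.le]
      ring_nf
    have vq : V ^ (q / 2) ≤ I ^ ((q - 2) / 2) * V := by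
      have : V ^ (q / 2) = V ^ ((q - 2) / 2) * V := by
        rw [show q / 2 = (q - 2) / 2 + 1 by ring, Real.rpow_add hVp, Real.rpow_one]
      rw [this]
      exact mul_le_mul_of_nonneg_right (Real.rpow_le_rpow hV0 hI (by linarith)) hV0
    have vp : V ^ (p / 2) ≤ I ^ ((q - 2) / 2) * W ^ ((p - q) / 2) * V := by
      have : V ^ (p / 2) = V ^ (q / 2) * V ^ ((p - q) / 2) := by
        rw [← Real.rpow_add hVp]; congr 1; ring
      rw [this]
      calc V ^ (q / 2) * V ^ ((p - q) / 2) ≤ (I ^ ((q - 2) / 2) * V) * W ^ ((p - q) / 2) :=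
            mul_le_mul vq (Real.rpow_le_rpow hV0 hVW (by linarith)) (Real.rpow_nonneg hV0 _)
              (by positivity)
        _ = _ := by ring
    have m1 : ∫ y, |rl (g0 i c) y| ^ (p - q) * |rl (g1 i c) y| ^ q ∂(Measure.pi ν) ≤
        D ^ (p / 2) * (I ^ ((q - 2) / 2) * W ^ ((p - q) / 2)) * V := by
      refine mgh.trans ?_
      rw [eα, eβ]
      have hDD : D ^ ((p - q) / 2) * D ^ (q / 2) = D ^ (p / 2) := by
        rw [← Real.rpow_add hD0]; congr 1; ring
      calc D ^ ((p - q) / 2) * W ^ ((p - q) / 2) * (D ^ (q / 2) * V ^ (q / 2))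
          = D ^ (p / 2) * (W ^ ((p - q) / 2) * V ^ (q / 2)) := by rw [← hDD]; ring
        _ ≤ D ^ (p / 2) * (W ^ ((p - q) / 2) * (I ^ ((q - 2) / 2) * V)) := by
            gcongr
        _ = _ := by ring
    have m2 : ∫ y, |rl (g1 i c) y| ^ p ∂(Measure.pi ν) ≤
        D ^ (p / 2) * (I ^ ((q - 2) / 2) * W ^ ((p - q) / 2)) * V := by
      refine mh.trans ?_
      rw [eβ']
      calc D ^ (p / 2) * V ^ (p / 2)
          ≤ D ^ (p / 2) * (I ^ ((q - 2) / 2) * W ^ ((p - q) / 2) * V) := by gcongr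
        _ = _ := by ring
    calc C * ((∫ y, |rl (g0 i c) y| ^ (p - q) * |rl (g1 i c) y| ^ q ∂(Measure.pi ν)) +
          ∫ y, |rl (g1 i c) y| ^ p ∂(Measure.pi ν))
        ≤ C * (D ^ (p / 2) * (I ^ ((q - 2) / 2) * W ^ ((p - q) / 2)) * V +
          D ^ (p / 2) * (I ^ ((q - 2) / 2) * W ^ ((p - q) / 2)) * V) := by
          gcongr
      _ = _ := by ring

/-- hybrid laws: Gaussian on `A`, signs elsewhere -/
noncomputable def hyb {n : ℕ} (A : Finset (Fin n)) (i : Fin n) : Measure ℝ :=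
  if i ∈ A then gaussianReal 0 1 else rad

lemma hyb_GR {n : ℕ} (A : Finset (Fin n)) (i : Fin n) : GR (hyb A i) := by
  unfold hyb
  split_ifs
  · exact Or.inl rfl
  · exact Or.inr rfl

lemma sum_inf {n : ℕ} (c : Finset (Fin n) → ℝ) (d : ℕ)
    (hc : ∀ S : Finset (Fin n), d < S.card → c S = 0) :
    ∑ i, ∑ S with i ∈ S, c S ^ 2 ≤ d * ∑ S, c S ^ 2 := by
  simp_rw [sum_filter]
  rw [sum_comm, mul_sum]
  refine sum_le_sum fun S _ => ?_
  rw [sum_ite_mem, univ_inter, sum_const, nsmul_eq_mul]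
  by_cases h : d < S.card
  · rw [hc S h]; simp
  · have : (S.card : ℝ) ≤ d := by exact_mod_cast not_lt.1 h
    exact mul_le_mul_of_nonneg_right this (sq_nonneg _)

end F3

open F3 E in
/-- Lindeberg replacement on the coordinates in `A`; `I` bounds the influences of the coordinates
in `A`, `W` the variance -/
theorem lindebergA {p : ℝ} (hp : 2 < p) : ∃ K : ℝ, 1 ≤ K ∧
    ∀ (n d : ℕ) (c : Finset (Fin n) → ℝ), (∀ S : Finset (Fin n), d < S.card → c S = 0) →
    ∀ (A : Finset (Fin n)) (I W : ℝ), 0 ≤ I → (∀ i ∈ A, ∑ S with i ∈ S, c S ^ 2 ≤ I) →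
    ∑ S, c S ^ 2 ≤ W →
    |(∫ x, |rl c x| ^ p ∂(Measure.pi fun i => if i ∈ A then gaussianReal 0 1 else rad)) -
        (∫ x, |rl c x| ^ p ∂(Measure.pi fun _ => rad))| ≤
      K ^ (d + 1) * (I ^ ((min p 3 - 2) / 2) * W ^ ((p - min p 3) / 2 + 1)) := by
  obtain ⟨C, hC, hone⟩ := one_step hp
  obtain ⟨k, hpk0⟩ := exists_nat_ge (p / 2)
  have hpk : p ≤ 2 * k := by linarith
  have hk : 1 ≤ k := by
    have : (0 : ℝ) < k := by linarith
    exact_mod_cast this
  set B : ℝ := ((2 * k - 1 : ℕ) : ℝ) with hB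
  have hB1 : 1 ≤ B := by
    have : 1 ≤ 2 * k - 1 := by omega
    rw [hB]
    exact_mod_cast this
  set K1 : ℝ := max 1 (2 * C) with hK1
  set K2 : ℝ := max 1 (2 * B ^ (p / 2)) with hK2
  have h11 : 1 ≤ K1 := le_max_left _ _
  have h12 : 2 * C ≤ K1 := le_max_right _ _
  have h21 : 1 ≤ K2 := le_max_left _ _
  have h22 : 2 * B ^ (p / 2) ≤ K2 := le_max_right _ _
  refine ⟨K1 * K2, one_le_mul_of_one_le_of_one_le h11 h21, ?_⟩
  intro n d c hc A I W hI0 hI hW
  have hW0 : 0 ≤ W := (sum_nonneg fun S _ => sq_nonneg (c S)).trans hW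
  set Q : ℝ := I ^ ((min p 3 - 2) / 2) * W ^ ((p - min p 3) / 2) with hQ
  have hQ0 : 0 ≤ Q := mul_nonneg (Real.rpow_nonneg hI0 _) (Real.rpow_nonneg hW0 _)
  set M : Finset (Fin n) → ℝ := fun A => ∫ x, |rl c x| ^ p ∂(Measure.pi (hyb A)) with hM
  have hMA : M A = ∫ x, |rl c x| ^ p
      ∂(Measure.pi fun i => if i ∈ A then gaussianReal 0 1 else rad) := rfl
  have hM0 : M ∅ = ∫ x, |rl c x| ^ p ∂(Measure.pi fun _ => rad) := by
    have : hyb (∅ : Finset (Fin n)) = fun _ => rad := by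
      funext i; simp [hyb]
    simp only [hM, this]
  rw [← hMA, ← hM0]
  have hB0 : (B ^ d) ^ (p / 2) = (B ^ (p / 2)) ^ d := by
    rw [← Real.rpow_natCast, ← Real.rpow_natCast, ← Real.rpow_mul (by linarith),
      ← Real.rpow_mul (by linarith), mul_comm]
  have hind : ∀ A' : Finset (Fin n), (∀ i ∈ A', ∑ S with i ∈ S, c S ^ 2 ≤ I) →
      |M A' - M ∅| ≤ ∑ i ∈ A', 2 * C * (B ^ d) ^ (p / 2) * Q * ∑ S with i ∈ S, c S ^ 2 := by
    intro A'
    induction A' using Finset.induction_on with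
    | empty => intro _; simp
    | insert i A' hi ih =>
      intro hA'
      have h1 := ih fun j hj => hA' j (mem_insert_of_mem hj)
      have h2 : |M (insert i A') - M A'| ≤
          2 * C * (B ^ d) ^ (p / 2) * Q * ∑ S with i ∈ S, c S ^ 2 := by
        refine step hp hC hone hk hpk c hc i (hyb (insert i A')) (hyb A') (hyb_GR _) (hyb_GR _)
          ?_ ?_ ?_ (hA' i (mem_insert_self _ _)) hW
        · simp [hyb]
        · simp [hyb, hi]
        · intro j hj
          simp [hyb, hj]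
      rw [sum_insert hi]
      calc |M (insert i A') - M ∅| = |(M (insert i A') - M A') + (M A' - M ∅)| := by ring_nf
        _ ≤ |M (insert i A') - M A'| + |M A' - M ∅| := abs_add_le _ _
        _ ≤ _ := add_le_add h2 h1
  have hd2 : (d : ℝ) ≤ 2 ^ d := by
    exact_mod_cast (Nat.lt_two_pow_self (n := d)).le
  have hWW : W ^ ((p - min p 3) / 2 + 1) = W ^ ((p - min p 3) / 2) * W := by
    have h0 : 0 ≤ (p - min p 3) / 2 := by
      have := min_le_left p 3
      linarith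
    rw [Real.rpow_add_of_nonneg hW0 h0 zero_le_one, Real.rpow_one]
  have hBp : 0 ≤ B ^ (p / 2) := Real.rpow_nonneg (by linarith) _
  have hcoef : 0 ≤ 2 * C * (B ^ d) ^ (p / 2) * Q := by
    rw [hB0]; positivity
  calc |M A - M ∅| ≤ ∑ i ∈ A, 2 * C * (B ^ d) ^ (p / 2) * Q * ∑ S with i ∈ S, c S ^ 2 :=
        hind A hI
    _ ≤ ∑ i : Fin n, 2 * C * (B ^ d) ^ (p / 2) * Q * ∑ S with i ∈ S, c S ^ 2 :=
        sum_le_sum_of_subset_of_nonneg (subset_univ A) fun i _ _ =>
          mul_nonneg hcoef (sum_nonneg fun S _ => sq_nonneg _)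
    _ = 2 * C * (B ^ d) ^ (p / 2) * Q * ∑ i : Fin n, ∑ S with i ∈ S, c S ^ 2 := by
        rw [mul_sum]
    _ ≤ 2 * C * (B ^ d) ^ (p / 2) * Q * (d * ∑ S, c S ^ 2) :=
        mul_le_mul_of_nonneg_left (sum_inf c d hc) hcoef
    _ ≤ 2 * C * (B ^ d) ^ (p / 2) * Q * (2 ^ d * W) := by
        have hs0 : 0 ≤ ∑ S, c S ^ 2 := sum_nonneg fun S _ => sq_nonneg (c S)
        exact mul_le_mul_of_nonneg_left (mul_le_mul hd2 hW hs0 (by positivity)) hcoef
    _ = (2 * C) * (2 * B ^ (p / 2)) ^ d * (Q * W) := by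
        rw [hB0, mul_pow]; ring
    _ ≤ K1 * K2 ^ d * (Q * W) := by
        refine mul_le_mul_of_nonneg_right ?_ (mul_nonneg hQ0 hW0)
        exact mul_le_mul h12 (pow_le_pow_left₀ (by positivity) h22 d) (by positivity) (by linarith)
    _ ≤ (K1 * K2) ^ (d + 1) * (Q * W) := by
        refine mul_le_mul_of_nonneg_right ?_ (mul_nonneg hQ0 hW0)
        rw [mul_pow]
        have ha : K1 ≤ K1 ^ (d + 1) := le_self_pow₀ h11 (Nat.succ_ne_zero d)
        have hb : K2 ^ d ≤ K2 ^ (d + 1) := pow_le_pow_right₀ h21 (Nat.le_succ d)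
        exact mul_le_mul ha hb (by positivity) (by positivity)
    _ = (K1 * K2) ^ (d + 1) * (I ^ ((min p 3 - 2) / 2) * W ^ ((p - min p 3) / 2 + 1)) := by
        rw [hWW, hQ]; ring

/-- Lindeberg replacement of all coordinates -/
theorem lindeberg {p : ℝ} (hp : 2 < p) : ∃ K : ℝ, 1 ≤ K ∧
    ∀ (n d : ℕ) (c : Finset (Fin n) → ℝ), (∀ S : Finset (Fin n), d < S.card → c S = 0) →
    ∀ I W : ℝ, 0 ≤ I → (∀ i, ∑ S with i ∈ S, c S ^ 2 ≤ I) → ∑ S, c S ^ 2 ≤ W →
    |(∫ x, |rl c x| ^ p ∂(gam (Fin n))) - (∫ x, |rl c x| ^ p ∂(Measure.pi fun _ => rad))| ≤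
      K ^ (d + 1) * (I ^ ((min p 3 - 2) / 2) * W ^ ((p - min p 3) / 2 + 1)) := by
  obtain ⟨K, hK, h⟩ := lindebergA hp
  refine ⟨K, hK, fun n d c hc I W hI0 hI hW => ?_⟩
  have := h n d c hc univ I W hI0 (fun i _ => hI i) hW
  simpa [gam] using this

end Pool.Agent.Helper12.GM
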