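import Pool.Agent.Helper12.GM.Fiber
import Pool.Agent.Helper12.GM.Cube
import Pool.Agent.Helper12.GM.RowF3

set_option autoImplicit false

namespace Pool.Agent.Helper12.GM

open MeasureTheory ProbabilityTheory MvPolynomial
open scoped ComplexConjugate ENNReal

/-- `2^(-n) ∑ |f|^p` as an integral. -/
theorem cube_int {n : ℕ} (c : Finset (Fin n) → ℝ) (p : ℝ) :
    ∑ x : Fin n → Bool, |rl c fun i => sg (x i)| ^ p =
      2 ^ n * ∫ x, |rl c x| ^ p ∂(Measure.pi fun _ => rad) :=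
  cube_sum (fun x => |rl c x| ^ p)

theorem result_two : ∀ n d : ℕ, ∀ c : Finset (Fin n) → ℝ,
      (∀ S : Finset (Fin n), d < S.card → c S = 0) →
      ∑ x : Fin n → Bool, |rl (fun S => (S.card : ℝ) * c S) fun i => sg (x i)| ^ (2 : ℝ)
        ≤ (7 * (d : ℝ)) ^ (2 : ℝ) *
          ∑ x : Fin n → Bool, |rl c fun i => sg (x i)| ^ (2 : ℝ) := by
  intro n d c hc
  have h : ∀ y : ℝ, |y| ^ (2 : ℝ) = y ^ 2 := by
    intro y
    rw [Real.rpow_two, sq_abs]
  simp_rw [h]
  rw [parseval, parseval, Real.rpow_two]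
  have h2 : ∑ S, ((S.card : ℝ) * c S) ^ 2 ≤ (d : ℝ) ^ 2 * ∑ S, c S ^ 2 := by
    rw [Finset.mul_sum]
    refine Finset.sum_le_sum fun S _ => ?_
    by_cases hS : d < S.card
    · rw [hc S hS]; simp
    · push Not at hS
      rw [mul_pow]
      apply mul_le_mul_of_nonneg_right _ (sq_nonneg _)
      exact pow_le_pow_left₀ (by positivity) (by exact_mod_cast hS) 2
  have h3 : 0 ≤ ∑ S, c S ^ 2 := Finset.sum_nonneg fun S _ => sq_nonneg _
  have h4 : (0 : ℝ) < 2 ^ n := by positivity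
  calc 2 ^ n * ∑ S, ((S.card : ℝ) * c S) ^ 2 ≤ 2 ^ n * ((d : ℝ) ^ 2 * ∑ S, c S ^ 2) :=
        mul_le_mul_of_nonneg_left h2 h4.le
    _ ≤ (7 * (d : ℝ)) ^ 2 * (2 ^ n * ∑ S, c S ^ 2) := by
        have : 0 ≤ (d : ℝ) ^ 2 * (2 ^ n * ∑ S, c S ^ 2) := by positivity
        nlinarith

/-- The partial Laplacian over coordinates of small influence. -/
theorem result_A {p : ℝ} (hp : 2 < p) : ∃ δ : ℝ, 0 < δ ∧
    ∀ n d : ℕ, 1 ≤ d → ∀ c : Finset (Fin n) → ℝ,
      (∀ S : Finset (Fin n), d < S.card → c S = 0) →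
      ∀ A : Finset (Fin n),
      (∀ i ∈ A, ∑ S with i ∈ S, c S ^ 2 ≤ δ ^ d * ∑ S, c S ^ 2) →
      ∑ x : Fin n → Bool, |rl (fun S => ((S ∩ A).card : ℝ) * c S) fun i => sg (x i)| ^ p
        ≤ (7 * (d : ℝ)) ^ p *
          ∑ x : Fin n → Bool, |rl c fun i => sg (x i)| ^ p := by
  obtain ⟨K, hK1, hK⟩ := lindebergA hp
  set c₀ : ℝ := 2 * Real.exp (5 / 4) with hc₀
  have hc₀0 : 0 < c₀ := by positivity
  have hc₀7 : c₀ < 7 := exp_const
  have hp0 : 0 < p := by linarith
  set τ : ℝ := (7 ^ p - c₀ ^ p) / (c₀ ^ p + 1) with hτ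
  have hτ0 : 0 < τ := by
    apply div_pos
    · have := Real.rpow_lt_rpow hc₀0.le hc₀7 hp0
      linarith
    · positivity
  set q : ℝ := min p 3 with hq
  have hq2 : 2 < q := lt_min hp (by norm_num)
  have hqp : q ≤ p := min_le_left _ _
  set θ : ℝ := min K⁻¹ (τ / K ^ 2) with hθ
  have hK0 : 0 < K := by linarith
  have hθ0 : 0 < θ := lt_min (by positivity) (by positivity)
  have hθK : K * θ ≤ 1 := by
    calc K * θ ≤ K * K⁻¹ := mul_le_mul_of_nonneg_left (min_le_left _ _) hK0.le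
      _ = 1 := mul_inv_cancel₀ hK0.ne'
  have hθτ : K ^ 2 * θ ≤ τ := by
    calc K ^ 2 * θ ≤ K ^ 2 * (τ / K ^ 2) :=
          mul_le_mul_of_nonneg_left (min_le_right _ _) (by positivity)
      _ = τ := by field_simp
  set δ : ℝ := θ ^ (2 / (q - 2)) with hδ
  have hδ0 : 0 < δ := Real.rpow_pos_of_pos hθ0 _
  have hδθ : δ ^ ((q - 2) / 2) = θ := by
    rw [hδ, ← Real.rpow_mul hθ0.le]
    have : 2 / (q - 2) * ((q - 2) / 2) = 1 := by
      have : q - 2 ≠ 0 := by linarith
      field_simp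
    rw [this, Real.rpow_one]
  refine ⟨δ, hδ0, ?_⟩
  intro n d hd c hc A hI
  set V : ℝ := ∑ S, c S ^ 2 with hV
  have hV0 : 0 ≤ V := Finset.sum_nonneg fun S _ => sq_nonneg _
  have hdR : (1 : ℝ) ≤ d := by exact_mod_cast hd
  have hd0 : (0 : ℝ) < d := by linarith
  -- the small number
  set e : ℝ := K ^ (d + 1) * θ ^ d with he
  have he0 : 0 ≤ e := by positivity
  have heτ : e ≤ τ := by
    have h1 : e = K * (K * θ) ^ d := by
      rw [he, mul_pow]; ring
    have h2 : (K * θ) ^ d ≤ K * θ := by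
      calc (K * θ) ^ d ≤ (K * θ) ^ 1 :=
            pow_le_pow_of_le_one (by positivity) hθK hd
        _ = K * θ := pow_one _
    calc e = K * (K * θ) ^ d := h1
      _ ≤ K * (K * θ) := mul_le_mul_of_nonneg_left h2 hK0.le
      _ = K ^ 2 * θ := by ring
      _ ≤ τ := hθτ
  -- error terms: general scale `s`
  have herr : ∀ s : ℝ, 0 ≤ s → (s * (δ ^ d * V)) ^ ((q - 2) / 2) * (s * V) ^ ((p - q) / 2 + 1)
      = θ ^ d * (s * V) ^ (p / 2) := by
    intro s hs
    have h1 : s * (δ ^ d * V) = δ ^ d * (s * V) := by ring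
    rw [h1, Real.mul_rpow (by positivity) (by positivity)]
    have h2 : (δ ^ d) ^ ((q - 2) / 2) = θ ^ d := by
      rw [← Real.rpow_natCast, ← Real.rpow_mul hδ0.le, mul_comm, Real.rpow_mul hδ0.le, hδθ,
        Real.rpow_natCast]
    rw [h2, mul_assoc, ← Real.rpow_add_of_nonneg (by positivity) (by linarith) (by linarith)]
    congr 2
    ring
  -- Lindeberg for `f`
  have hL1 := hK n d c hc A (δ ^ d * V) V (by positivity) hI le_rfl
  have hL1' : |(∫ x, |rl c x| ^ p ∂(Measure.pi (muA A))) -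
      (∫ x, |rl c x| ^ p ∂(Measure.pi fun _ => rad))| ≤ e * V ^ (p / 2) := by
    refine hL1.trans (le_of_eq ?_)
    have := herr 1 zero_le_one
    rw [one_mul, one_mul] at this
    rw [this, he]
    ring
  -- Lindeberg for `Δ_A f`
  set c' : Finset (Fin n) → ℝ := fun S => ((S ∩ A).card : ℝ) * c S with hc'
  have hc'0 : ∀ S : Finset (Fin n), d < S.card → c' S = 0 := by
    intro S hS
    rw [hc']
    simp [hc S hS]
  have hsq : ∀ S : Finset (Fin n), c' S ^ 2 ≤ (d : ℝ) ^ 2 * c S ^ 2 := by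
    intro S
    by_cases hS : d < S.card
    · rw [hc'0 S hS, hc S hS]; simp
    · push Not at hS
      rw [hc']
      simp only
      rw [mul_pow]
      apply mul_le_mul_of_nonneg_right _ (sq_nonneg _)
      have hSA : (S ∩ A).card ≤ d := (Finset.card_le_card Finset.inter_subset_left).trans hS
      exact pow_le_pow_left₀ (by positivity) (by exact_mod_cast hSA) 2
  have hI' : ∀ i ∈ A, ∑ S with i ∈ S, c' S ^ 2 ≤ (d : ℝ) ^ 2 * (δ ^ d * V) := by
    intro i hi
    calc ∑ S with i ∈ S, c' S ^ 2 ≤ ∑ S with i ∈ S, (d : ℝ) ^ 2 * c S ^ 2 :=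
          Finset.sum_le_sum fun S _ => hsq S
      _ = (d : ℝ) ^ 2 * ∑ S with i ∈ S, c S ^ 2 := by rw [Finset.mul_sum]
      _ ≤ _ := mul_le_mul_of_nonneg_left (hI i hi) (by positivity)
  have hV' : ∑ S, c' S ^ 2 ≤ (d : ℝ) ^ 2 * V := by
    calc ∑ S, c' S ^ 2 ≤ ∑ S, (d : ℝ) ^ 2 * c S ^ 2 := Finset.sum_le_sum fun S _ => hsq S
      _ = (d : ℝ) ^ 2 * V := by rw [Finset.mul_sum]
  have hL2 := hK n d c' hc'0 A ((d : ℝ) ^ 2 * (δ ^ d * V)) ((d : ℝ) ^ 2 * V)
    (by positivity) hI' hV'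
  have hL2' : |(∫ x, |rl c' x| ^ p ∂(Measure.pi (muA A))) -
      (∫ x, |rl c' x| ^ p ∂(Measure.pi fun _ => rad))| ≤ e * ((d : ℝ) ^ p * V ^ (p / 2)) := by
    refine hL2.trans (le_of_eq ?_)
    rw [herr ((d : ℝ) ^ 2) (by positivity), he, Real.mul_rpow (by positivity) hV0]
    have : ((d : ℝ) ^ 2) ^ (p / 2) = (d : ℝ) ^ p := by
      rw [← Real.rpow_natCast, ← Real.rpow_mul hd0.le]
      congr 1
      push_cast
      ring
    rw [this]
    ring
  -- Gauss
  have hG : ∫ x, |rl c' x| ^ p ∂(Measure.pi (muA A)) ≤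
      (c₀ * d) ^ p * ∫ x, |rl c x| ^ p ∂(Measure.pi (muA A)) := gauss_NA A c d hd hc hp.le
  -- Lyapunov
  have hLy := lyap c hp.le
  rw [cube_int c p] at hLy ⊢
  have h2n : (0 : ℝ) < 2 ^ n := by positivity
  have hLy' : V ^ (p / 2) ≤ ∫ x, |rl c x| ^ p ∂(Measure.pi fun _ => rad) :=
    le_of_mul_le_mul_left hLy h2n
  rw [cube_int c' p]
  set Jc : ℝ := ∫ x, |rl c x| ^ p ∂(Measure.pi fun _ => rad) with hJc
  set Jc' : ℝ := ∫ x, |rl c' x| ^ p ∂(Measure.pi fun _ => rad) with hJc'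
  set Gc : ℝ := ∫ x, |rl c x| ^ p ∂(Measure.pi (muA A)) with hGc
  set Gc' : ℝ := ∫ x, |rl c' x| ^ p ∂(Measure.pi (muA A)) with hGc'
  have hJ0 : 0 ≤ Jc := le_trans (by positivity) hLy'
  have hdp : 0 < (d : ℝ) ^ p := by positivity
  have hcp : 0 < c₀ ^ p := by positivity
  have e1 : Gc ≤ Jc + e * Jc := by
    have := (abs_le.1 hL1').2
    have h3 : e * V ^ (p / 2) ≤ e * Jc := mul_le_mul_of_nonneg_left hLy' he0
    linarith
  have e2 : Jc' ≤ Gc' + (d : ℝ) ^ p * (e * Jc) := by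
    have := (abs_le.1 hL2').1
    have h3 : e * ((d : ℝ) ^ p * V ^ (p / 2)) ≤ (d : ℝ) ^ p * (e * Jc) := by
      have : e * V ^ (p / 2) ≤ e * Jc := mul_le_mul_of_nonneg_left hLy' he0
      nlinarith
    linarith
  have e3 : Gc' ≤ (d : ℝ) ^ p * (c₀ ^ p * (Jc + e * Jc)) := by
    calc Gc' ≤ (c₀ * d) ^ p * Gc := hG
      _ = (d : ℝ) ^ p * (c₀ ^ p * Gc) := by
          rw [Real.mul_rpow hc₀0.le hd0.le]; ring
      _ ≤ _ := by
          apply mul_le_mul_of_nonneg_left _ hdp.le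
          exact mul_le_mul_of_nonneg_left e1 hcp.le
  have e4 : c₀ ^ p * (1 + e) + e ≤ 7 ^ p := by
    have h5 : e * (c₀ ^ p + 1) ≤ τ * (c₀ ^ p + 1) :=
      mul_le_mul_of_nonneg_right heτ (by positivity)
    have h6 : τ * (c₀ ^ p + 1) = 7 ^ p - c₀ ^ p := by
      rw [hτ]
      field_simp
    nlinarith
  calc 2 ^ n * Jc' ≤ 2 ^ n * ((d : ℝ) ^ p * ((c₀ ^ p * (1 + e) + e) * Jc)) := by
        apply mul_le_mul_of_nonneg_left _ h2n.le
        calc Jc' ≤ (d : ℝ) ^ p * (c₀ ^ p * (Jc + e * Jc)) + (d : ℝ) ^ p * (e * Jc) := by linarith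
          _ = _ := by ring
    _ ≤ 2 ^ n * ((d : ℝ) ^ p * (7 ^ p * Jc)) := by
        apply mul_le_mul_of_nonneg_left _ h2n.le
        apply mul_le_mul_of_nonneg_left _ hdp.le
        exact mul_le_mul_of_nonneg_right e4 hJ0
    _ = (7 * (d : ℝ)) ^ p * (2 ^ n * Jc) := by
        rw [Real.mul_rpow (by norm_num) hd0.le]
        ring

/-! ### The partial Laplacian over few coordinates -/

/-- flip the `i`-th coordinate -/
def flp {n : ℕ} (i : Fin n) (x : Fin n → Bool) : Fin n → Bool := Function.update x i (!(x i))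

theorem flp_flp {n : ℕ} (i : Fin n) (x : Fin n → Bool) : flp i (flp i x) = x := by
  unfold flp
  funext j
  by_cases h : j = i
  · subst h; simp
  · simp [h]

theorem sum_flp {n : ℕ} (i : Fin n) (F : (Fin n → Bool) → ℝ) :
    ∑ x, F (flp i x) = ∑ x, F x :=
  Equiv.sum_comp (Function.Involutive.toPerm (flp i) (flp_flp i)) F

theorem char_flp {n : ℕ} (i : Fin n) (S : Finset (Fin n)) (x : Fin n → Bool) :
    ∏ j ∈ S, sg (flp i x j) = (if i ∈ S then -1 else 1) * ∏ j ∈ S, sg (x j) := by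
  have h1 : ∀ j, sg (flp i x j) = (if j = i then -1 else 1) * sg (x j) := by
    intro j
    unfold flp
    by_cases h : j = i
    · subst h
      cases x j <;> simp [sg]
    · simp [h]
  simp_rw [h1]
  rw [Finset.prod_mul_distrib, Finset.prod_ite_eq' S i]

theorem rl_flp {n : ℕ} (i : Fin n) (c : Finset (Fin n) → ℝ) (x : Fin n → Bool) :
    rl (fun S => if i ∈ S then c S else 0) (fun j => sg (x j)) =
      (1 / 2) * (rl c fun j => sg (x j)) + (1 / 2) * (-(rl c fun j => sg (flp i x j))) := by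
  unfold rl
  rw [← Finset.sum_neg_distrib, Finset.mul_sum, Finset.mul_sum, ← Finset.sum_add_distrib]
  refine Finset.sum_congr rfl fun S _ => ?_
  rw [char_flp]
  beta_reduce
  by_cases hi : i ∈ S
  · rw [if_pos hi, if_pos hi]
    ring
  · rw [if_neg hi, if_neg hi]
    ring

theorem one_coord {n : ℕ} (i : Fin n) (c : Finset (Fin n) → ℝ) {p : ℝ} (hp : 1 ≤ p) :
    ∑ x : Fin n → Bool, |rl (fun S => if i ∈ S then c S else 0) fun j => sg (x j)| ^ p ≤
      ∑ x : Fin n → Bool, |rl c fun j => sg (x j)| ^ p := by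
  have h1 : ∀ x : Fin n → Bool,
      |rl (fun S => if i ∈ S then c S else 0) fun j => sg (x j)| ^ p ≤
        (1 / 2) * |rl c fun j => sg (x j)| ^ p + (1 / 2) * |rl c fun j => sg (flp i x j)| ^ p := by
    intro x
    rw [rl_flp]
    have h2 := (convexOn_rpow hp).2 (abs_nonneg (rl c fun j => sg (x j)))
      (abs_nonneg (rl c fun j => sg (flp i x j))) (show (0 : ℝ) ≤ 1 / 2 by norm_num)
      (show (0 : ℝ) ≤ 1 / 2 by norm_num) (by norm_num)
    simp only [smul_eq_mul] at h2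
    refine le_trans (Real.rpow_le_rpow (abs_nonneg _) ?_ (by linarith)) h2
    refine (abs_add_le _ _).trans (le_of_eq ?_)
    rw [abs_mul, abs_mul, abs_neg, abs_of_pos (show (0 : ℝ) < 1 / 2 by norm_num)]
  calc _ ≤ ∑ x : Fin n → Bool, ((1 / 2) * |rl c fun j => sg (x j)| ^ p +
        (1 / 2) * |rl c fun j => sg (flp i x j)| ^ p) := Finset.sum_le_sum fun x _ => h1 x
    _ = ∑ x : Fin n → Bool, |rl c fun j => sg (x j)| ^ p := by
        rw [Finset.sum_add_distrib, ← Finset.mul_sum, ← Finset.mul_sum,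
          sum_flp i (fun x => |rl c fun j => sg (x j)| ^ p)]
        ring

theorem result_J {n : ℕ} (c : Finset (Fin n) → ℝ) (J : Finset (Fin n)) {p : ℝ} (hp : 1 ≤ p) :
    ∑ x : Fin n → Bool, |rl (fun S => ((S ∩ J).card : ℝ) * c S) fun j => sg (x j)| ^ p ≤
      (J.card : ℝ) ^ p * ∑ x : Fin n → Bool, |rl c fun j => sg (x j)| ^ p := by
  have hp0 : 0 < p := by linarith
  have h1 : ∀ x : Fin n → Bool, (rl (fun S => ((S ∩ J).card : ℝ) * c S) fun j => sg (x j)) =
      ∑ i ∈ J, rl (fun S => if i ∈ S then c S else 0) fun j => sg (x j) := by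
    intro x
    unfold rl
    rw [Finset.sum_comm]
    refine Finset.sum_congr rfl fun S _ => ?_
    rw [← Finset.sum_mul]
    congr 1
    rw [← Finset.sum_filter, Finset.sum_const, nsmul_eq_mul, Finset.filter_mem_eq_inter,
      Finset.inter_comm]
  rcases J.eq_empty_or_nonempty with rfl | hJ
  · simp_rw [h1]
    simp [Real.zero_rpow hp0.ne']
  have hJ0 : (0 : ℝ) < J.card := by exact_mod_cast hJ.card_pos
  have h2 : ∀ x : Fin n → Bool,
      |rl (fun S => ((S ∩ J).card : ℝ) * c S) fun j => sg (x j)| ^ p ≤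
        (J.card : ℝ) ^ p * ∑ i ∈ J, (J.card : ℝ)⁻¹ *
          |rl (fun S => if i ∈ S then c S else 0) fun j => sg (x j)| ^ p := by
    intro x
    have h3 := Real.rpow_arith_mean_le_arith_mean_rpow J (fun _ => (J.card : ℝ)⁻¹)
      (fun i => |rl (fun S => if i ∈ S then c S else 0) fun j => sg (x j)|)
      (fun _ _ => by positivity) (by rw [Finset.sum_const, nsmul_eq_mul]; field_simp)
      (fun _ _ => abs_nonneg _) hp
    refine le_trans ?_ (mul_le_mul_of_nonneg_left h3 (by positivity))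
    rw [← Real.mul_rpow hJ0.le (Finset.sum_nonneg fun i _ => by positivity)]
    apply Real.rpow_le_rpow (abs_nonneg _) _ hp0.le
    rw [h1 x, ← Finset.mul_sum, ← mul_assoc, mul_inv_cancel₀ hJ0.ne', one_mul]
    exact Finset.abs_sum_le_sum_abs _ _
  calc _ ≤ ∑ x : Fin n → Bool, (J.card : ℝ) ^ p * ∑ i ∈ J, (J.card : ℝ)⁻¹ *
          |rl (fun S => if i ∈ S then c S else 0) fun j => sg (x j)| ^ p :=
        Finset.sum_le_sum fun x _ => h2 x
    _ = (J.card : ℝ) ^ p * ∑ i ∈ J, (J.card : ℝ)⁻¹ * ∑ x : Fin n → Bool,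
          |rl (fun S => if i ∈ S then c S else 0) fun j => sg (x j)| ^ p := by
        rw [← Finset.mul_sum, Finset.sum_comm]
        simp_rw [Finset.mul_sum]
    _ ≤ (J.card : ℝ) ^ p * ∑ i ∈ J, (J.card : ℝ)⁻¹ * ∑ x : Fin n → Bool,
          |rl c fun j => sg (x j)| ^ p := by
        apply mul_le_mul_of_nonneg_left _ (by positivity)
        exact Finset.sum_le_sum fun i _ => mul_le_mul_of_nonneg_left (one_coord i c hp)
          (by positivity)
    _ = _ := by
        rw [Finset.sum_const, nsmul_eq_mul, ← mul_assoc (J.card : ℝ), mul_inv_cancel₀ hJ0.ne',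
          one_mul]

/-- The `L^p` norm with counting measure. -/
noncomputable def nm {n : ℕ} (p : ℝ) (g : (Fin n → Bool) → ℝ) : ℝ := (∑ x, |g x| ^ p) ^ (1 / p)

theorem nm_add {n : ℕ} {p : ℝ} (hp : 1 ≤ p) (g h : (Fin n → Bool) → ℝ) :
    nm p (fun x => g x + h x) ≤ nm p g + nm p h :=
  Real.Lp_add_le (Finset.univ : Finset (Fin n → Bool)) g h hp

theorem nm_le {n : ℕ} {p : ℝ} (hp : 1 ≤ p) {g h : (Fin n → Bool) → ℝ} {a : ℝ} (ha : 0 ≤ a)
    (hg : ∑ x, |g x| ^ p ≤ a ^ p * ∑ x, |h x| ^ p) : nm p g ≤ a * nm p h := by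
  have hp0 : 0 < p := by linarith
  have h3 := Real.rpow_le_rpow (Finset.sum_nonneg fun x _ => by positivity) hg
    (show 0 ≤ 1 / p by positivity)
  rw [Real.mul_rpow (by positivity) (Finset.sum_nonneg fun x _ => by positivity),
    ← Real.rpow_mul ha, mul_one_div_cancel hp0.ne', Real.rpow_one] at h3
  exact h3

theorem result_B {p : ℝ} (hp : 2 ≤ p) : ∃ δ : ℝ, 0 < δ ∧
    ∀ n d : ℕ, ∀ c : Finset (Fin n) → ℝ,
      (∀ S : Finset (Fin n), d < S.card → c S = 0) →
      ∀ B : Finset (Fin n),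
      (∀ i, i ∉ B → ∑ S with i ∈ S, c S ^ 2 ≤ δ ^ d * ∑ S, c S ^ 2) →
      nm p (fun x => rl (fun S => (S.card : ℝ) * c S) fun i => sg (x i)) ≤
          7 * (d : ℝ) * nm p (fun x => rl c fun i => sg (x i)) +
            nm p (fun x => rl (fun S => ((S ∩ B).card : ℝ) * c S) fun i => sg (x i)) ∧
      nm p (fun x => rl (fun S => (S.card : ℝ) * c S) fun i => sg (x i)) ≤
          (7 * (d : ℝ) + (B.card : ℝ)) * nm p (fun x => rl c fun i => sg (x i)) := by
  have hp0 : 0 < p := by linarith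
  have hp1 : 1 ≤ p := by linarith
  -- it is enough to have the first inequality
  have key : ∀ (n d : ℕ) (c : Finset (Fin n) → ℝ) (B : Finset (Fin n)),
      nm p (fun x => rl (fun S => (S.card : ℝ) * c S) fun i => sg (x i)) ≤
          7 * (d : ℝ) * nm p (fun x => rl c fun i => sg (x i)) +
            nm p (fun x => rl (fun S => ((S ∩ B).card : ℝ) * c S) fun i => sg (x i)) →
      nm p (fun x => rl (fun S => (S.card : ℝ) * c S) fun i => sg (x i)) ≤
          7 * (d : ℝ) * nm p (fun x => rl c fun i => sg (x i)) +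
            nm p (fun x => rl (fun S => ((S ∩ B).card : ℝ) * c S) fun i => sg (x i)) ∧
      nm p (fun x => rl (fun S => (S.card : ℝ) * c S) fun i => sg (x i)) ≤
          (7 * (d : ℝ) + (B.card : ℝ)) * nm p (fun x => rl c fun i => sg (x i)) := by
    intro n d c B h
    refine ⟨h, h.trans ?_⟩
    have h1 := nm_le hp1 (Nat.cast_nonneg B.card) (result_J c B hp1)
    rw [add_mul]
    linarith
  -- a general sufficient condition
  have key2 : ∀ (n d : ℕ) (c : Finset (Fin n) → ℝ) (B : Finset (Fin n)),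
      ∑ x : Fin n → Bool, |rl (fun S => ((S ∩ Bᶜ).card : ℝ) * c S) fun i => sg (x i)| ^ p
        ≤ (7 * (d : ℝ)) ^ p * ∑ x : Fin n → Bool, |rl c fun i => sg (x i)| ^ p →
      nm p (fun x => rl (fun S => (S.card : ℝ) * c S) fun i => sg (x i)) ≤
          7 * (d : ℝ) * nm p (fun x => rl c fun i => sg (x i)) +
            nm p (fun x => rl (fun S => ((S ∩ B).card : ℝ) * c S) fun i => sg (x i)) := by
    intro n d c B h
    have h1 := nm_le hp1 (show (0 : ℝ) ≤ 7 * (d : ℝ) by positivity) h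
    have hsum : (fun x : Fin n → Bool =>
        rl (fun S : Finset (Fin n) => (S.card : ℝ) * c S) fun i => sg (x i)) =
        fun x => (rl (fun S => ((S ∩ Bᶜ).card : ℝ) * c S) fun i => sg (x i)) +
          rl (fun S => ((S ∩ B).card : ℝ) * c S) fun i => sg (x i) := by
      funext x
      unfold rl
      rw [← Finset.sum_add_distrib]
      refine Finset.sum_congr rfl fun S _ => ?_
      have h1 : S.card = (S ∩ Bᶜ).card + (S ∩ B).card := by
        rw [← Finset.sdiff_eq_inter_compl, Finset.card_sdiff_add_card_inter]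
      beta_reduce
      rw [h1]
      push_cast
      ring
    rw [hsum]
    exact (nm_add hp1 _ _).trans (by linarith)
  rcases hp.eq_or_lt with rfl | hp
  · refine ⟨1, one_pos, fun n d c hc B _ => key n d c B ?_⟩
    have h1 := nm_le hp1 (show (0 : ℝ) ≤ 7 * (d : ℝ) by positivity) (result_two n d c hc)
    refine h1.trans (le_add_of_nonneg_right ?_)
    exact Real.rpow_nonneg (Finset.sum_nonneg fun x _ => by positivity) _
  obtain ⟨δ, hδ0, hδ⟩ := result_A hp
  refine ⟨δ, hδ0, fun n d c hc B hB => key n d c B ?_⟩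
  rcases Nat.eq_zero_or_pos d with rfl | hd
  · have h1 : (fun x : Fin n → Bool =>
        rl (fun S : Finset (Fin n) => (S.card : ℝ) * c S) fun i => sg (x i)) = fun _ => 0 := by
      funext x
      unfold rl
      refine Finset.sum_eq_zero fun S _ => ?_
      beta_reduce
      rcases Nat.eq_zero_or_pos S.card with h | h
      · rw [h]; simp
      · rw [hc S h]; simp
    rw [h1]
    have h2 : nm p (fun _ : Fin n → Bool => (0 : ℝ)) = 0 := by
      unfold nm
      simp only [abs_zero, Real.zero_rpow hp0.ne', Finset.sum_const_zero]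
      exact Real.zero_rpow (by positivity)
    rw [h2]
    have h3 : ∀ g : (Fin n → Bool) → ℝ, 0 ≤ nm p g := fun g =>
      Real.rpow_nonneg (Finset.sum_nonneg fun x _ => by positivity) _
    have := h3 (fun x => rl c fun i => sg (x i))
    have := h3 (fun x => rl (fun S => ((S ∩ B).card : ℝ) * c S) fun i => sg (x i))
    positivity
  · exact key2 n d c B (hδ n d hd c hc Bᶜ fun i hi => hB i (by simpa using hi))

end Pool.Agent.Helper12.GM
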