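
import Pool.Agent.Helper12.GM.Final

/-! # Dimension reduction for the Markov-Bernstein inequality on the cube -/

set_option autoImplicit false

open Finset

namespace Pool.Agent.Helper12.GM

namespace DR

variable {n : ℕ} (B : Finset (Fin n))

/-- a sign pattern on `B`, extended by `true` -/
noncomputable def zeta (z : Fin B.card → Bool) (i : Fin n) : Bool :=
  if h : i ∈ B then z (B.equivFin ⟨i, h⟩) else true

/-- flipping the coordinates of `x` where the pattern is `false` -/
noncomputable def act (z : Fin B.card → Bool) (x : Fin n → Bool) : Fin n → Bool :=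
  fun i => if zeta B z i then x i else !x i

lemma act_act (z : Fin B.card → Bool) (x : Fin n → Bool) : act B z (act B z x) = x := by
  funext i
  unfold act
  cases zeta B z i <;> simp

lemma sum_act (z : Fin B.card → Bool) (F : (Fin n → Bool) → ℝ) :
    ∑ x, F (act B z x) = ∑ x, F x :=
  Function.Bijective.sum_comp (Function.Involutive.bijective (act_act B z)) F

lemma sg_act (z : Fin B.card → Bool) (x : Fin n → Bool) (i : Fin n) :
    sg (act B z x i) = sg (x i) * sg (zeta B z i) := by
  unfold sg act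
  cases zeta B z i <;> cases x i <;> simp

/-- the trace of `S` on `B` -/
noncomputable def tr (S : Finset (Fin n)) : Finset (Fin B.card) :=
  univ.filter fun j => ((B.equivFin.symm j : {i // i ∈ B}) : Fin n) ∈ S

lemma prod_tr (S : Finset (Fin n)) (z : Fin B.card → Bool) :
    ∏ i ∈ S, sg (zeta B z i) = ∏ j ∈ tr B S, sg (z j) := by
  have h1 : ∏ j ∈ tr B S, sg (z j)
      = ∏ j : Fin B.card, (if ((B.equivFin.symm j : {i // i ∈ B}) : Fin n) ∈ S then sg (z j) else 1) := by
    rw [tr, prod_filter]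
  have h2 : ∏ j : Fin B.card, (if ((B.equivFin.symm j : {i // i ∈ B}) : Fin n) ∈ S then sg (z j) else 1)
      = ∏ b : {i // i ∈ B}, (if (b : Fin n) ∈ S then sg (z (B.equivFin b)) else 1) := by
    rw [← Equiv.prod_comp B.equivFin]
    simp
  have h3 : ∏ b : {i // i ∈ B}, (if (b : Fin n) ∈ S then sg (z (B.equivFin b)) else 1)
      = ∏ b : {i // i ∈ B}, (if (b : Fin n) ∈ S then sg (zeta B z b) else 1) := by
    refine prod_congr rfl fun b _ => ?_
    have : zeta B z b = z (B.equivFin b) := by
      unfold zeta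
      rw [dif_pos b.2]
    rw [this]
  have h4 : ∏ b : {i // i ∈ B}, (if (b : Fin n) ∈ S then sg (zeta B z b) else 1)
      = ∏ i ∈ B, (if i ∈ S then sg (zeta B z i) else 1) :=
    prod_coe_sort B fun i => (if i ∈ S then sg (zeta B z i) else 1)
  have h5 : ∏ i ∈ B, (if i ∈ S then sg (zeta B z i) else 1)
      = ∏ i, (if i ∈ S then sg (zeta B z i) else 1) := by
    refine prod_subset (subset_univ B) fun i _ hi => ?_
    have : zeta B z i = true := by
      unfold zeta
      rw [dif_neg hi]
    rw [this]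
    simp [sg]
  rw [h1, h2, h3, h4, h5, prod_ite_mem, univ_inter]

lemma card_tr (S : Finset (Fin n)) : (tr B S).card = (S ∩ B).card := by
  have h : (tr B S).map (B.equivFin.symm.toEmbedding.trans (Function.Embedding.subtype _)) = S ∩ B := by
    ext i
    simp only [tr, mem_map, mem_filter, mem_univ, true_and, Function.Embedding.trans_apply,
      Equiv.coe_toEmbedding, Function.Embedding.subtype_apply, mem_inter]
    constructor
    · rintro ⟨j, hj, rfl⟩
      exact ⟨hj, (B.equivFin.symm j).2⟩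
    · rintro ⟨h1, h2⟩
      exact ⟨B.equivFin ⟨i, h2⟩, by simpa using h1, by simp⟩
  rw [← h, card_map]

/-- the coefficients of the restriction to the `B`-cube through `x` -/
noncomputable def fc (c : Finset (Fin n) → ℝ) (x : Fin n → Bool) (T : Finset (Fin B.card)) : ℝ :=
  ∑ S with tr B S = T, c S * ∏ i ∈ S, sg (x i)

lemma rl_fc (c : Finset (Fin n) → ℝ) (w : Finset (Fin B.card) → ℝ) (x : Fin n → Bool)
    (z : Fin B.card → Bool) :
    rl (fun T => w T * fc B c x T) (fun j => sg (z j)) =
      rl (fun S => w (tr B S) * c S) (fun i => sg (act B z x i)) := by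
  unfold rl fc
  have h1 : ∀ T : Finset (Fin B.card),
      w T * (∑ S with tr B S = T, c S * ∏ i ∈ S, sg (x i)) * ∏ j ∈ T, sg (z j)
      = ∑ S with tr B S = T, w (tr B S) * c S * ∏ i ∈ S, sg (act B z x i) := by
    intro T
    rw [mul_sum, sum_mul]
    refine sum_congr rfl fun S hS => ?_
    have hT : tr B S = T := (mem_filter.1 hS).2
    have h2 : ∏ i ∈ S, sg (act B z x i) = (∏ i ∈ S, sg (x i)) * ∏ j ∈ T, sg (z j) := by
      simp_rw [sg_act]
      rw [prod_mul_distrib, prod_tr, hT]
    rw [h2, hT]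
    ring
  simp_rw [h1]
  exact sum_fiberwise univ (tr B) fun S => w (tr B S) * c S * ∏ i ∈ S, sg (act B z x i)

lemma fc_deg (c : Finset (Fin n) → ℝ) (d : ℕ) (hc : ∀ S : Finset (Fin n), d < S.card → c S = 0)
    (x : Fin n → Bool) (T : Finset (Fin B.card)) (hT : d < T.card) : fc B c x T = 0 := by
  unfold fc
  refine sum_eq_zero fun S hS => ?_
  have h1 : tr B S = T := (mem_filter.1 hS).2
  have h2 : d < S.card := by
    calc d < T.card := hT
      _ = (S ∩ B).card := by rw [← h1, card_tr]
      _ ≤ S.card := card_le_card inter_subset_left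
  rw [hc S h2, zero_mul]

/-- averaging the small-cube inequality over the restrictions -/
lemma avg (c : Finset (Fin n) → ℝ) (d : ℕ) (hc : ∀ S : Finset (Fin n), d < S.card → c S = 0)
    (p D : ℝ)
    (hD : ∀ g : Finset (Fin B.card) → ℝ, (∀ T : Finset (Fin B.card), d < T.card → g T = 0) →
      ∑ z : Fin B.card → Bool, |rl (fun T => (T.card : ℝ) * g T) fun j => sg (z j)| ^ p ≤
        D * ∑ z : Fin B.card → Bool, |rl g fun j => sg (z j)| ^ p) :
    ∑ x : Fin n → Bool, |rl (fun S => ((S ∩ B).card : ℝ) * c S) fun i => sg (x i)| ^ p ≤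
      D * ∑ x : Fin n → Bool, |rl c fun i => sg (x i)| ^ p := by
  have h1 : ∀ x : Fin n → Bool,
      ∑ z : Fin B.card → Bool,
        |rl (fun S => ((S ∩ B).card : ℝ) * c S) fun i => sg (act B z x i)| ^ p ≤
      D * ∑ z : Fin B.card → Bool, |rl c fun i => sg (act B z x i)| ^ p := by
    intro x
    have h := hD (fc B c x) (fc_deg B c d hc x)
    have e1 : ∀ z : Fin B.card → Bool,
        rl (fun T => (T.card : ℝ) * fc B c x T) (fun j => sg (z j)) =
          rl (fun S => ((S ∩ B).card : ℝ) * c S) fun i => sg (act B z x i) := by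
      intro z
      rw [rl_fc B c (fun T => (T.card : ℝ)) x z]
      simp_rw [card_tr]
    have e2 : ∀ z : Fin B.card → Bool,
        rl (fc B c x) (fun j => sg (z j)) = rl c fun i => sg (act B z x i) := by
      intro z
      have := rl_fc B c (fun _ => (1 : ℝ)) x z
      simpa using this
    simp_rw [e1, e2] at h
    exact h
  have h2 : ∀ F : (Fin n → Bool) → ℝ,
      ∑ x : Fin n → Bool, ∑ z : Fin B.card → Bool, F (act B z x) = 2 ^ B.card * ∑ x, F x := by
    intro F
    rw [sum_comm]
    simp_rw [sum_act]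
    rw [sum_const, nsmul_eq_mul, card_univ]
    simp
  have h3 := sum_le_sum (s := (univ : Finset (Fin n → Bool))) fun x _ => h1 x
  rw [← mul_sum,
    h2 fun y => |rl (fun S => ((S ∩ B).card : ℝ) * c S) fun i => sg (y i)| ^ p,
    h2 fun y => |rl c fun i => sg (y i)| ^ p] at h3
  have h4 : (0 : ℝ) < 2 ^ B.card := by positivity
  refine le_of_mul_le_mul_left ?_ h4
  calc _ ≤ _ := h3
    _ = _ := by ring

end DR

/-- Total influence of a function of degree at most `d`. -/
theorem card_influential {n d : ℕ} (c : Finset (Fin n) → ℝ)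
    (hc : ∀ S : Finset (Fin n), d < S.card → c S = 0) {δ : ℝ} (hδ : 0 < δ) :
    ((univ.filter fun i : Fin n =>
      δ ^ d * ∑ S, c S ^ 2 < ∑ S with i ∈ S, c S ^ 2).card : ℝ) * δ ^ d ≤ d := by
  set V : ℝ := ∑ S, c S ^ 2 with hV
  set B : Finset (Fin n) := univ.filter fun i : Fin n =>
      δ ^ d * V < ∑ S with i ∈ S, c S ^ 2 with hB
  have hδd : 0 < δ ^ d := by positivity
  have hV0 : 0 ≤ V := sum_nonneg fun S _ => sq_nonneg _
  have hinf : ∑ i : Fin n, ∑ S with i ∈ S, c S ^ 2 = ∑ S, (S.card : ℝ) * c S ^ 2 := by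
    simp_rw [sum_filter]
    rw [sum_comm]
    refine sum_congr rfl fun S _ => ?_
    rw [← sum_filter, sum_const, nsmul_eq_mul]
    congr 2
    congr 1
    ext i
    simp
  have hinf2 : ∑ S, (S.card : ℝ) * c S ^ 2 ≤ d * V := by
    rw [hV, mul_sum]
    refine sum_le_sum fun S _ => ?_
    by_cases hS : d < S.card
    · rw [hc S hS]; simp
    · push Not at hS
      exact mul_le_mul_of_nonneg_right (by exact_mod_cast hS) (sq_nonneg _)
  have h1 : (B.card : ℝ) * (δ ^ d * V) ≤ d * V := by
    calc (B.card : ℝ) * (δ ^ d * V) = ∑ i ∈ B, δ ^ d * V := by rw [sum_const, nsmul_eq_mul]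
      _ ≤ ∑ i ∈ B, ∑ S with i ∈ S, c S ^ 2 := by
          refine sum_le_sum fun i hi => ?_
          rw [hB, mem_filter] at hi
          exact hi.2.le
      _ ≤ ∑ i, ∑ S with i ∈ S, c S ^ 2 :=
          sum_le_sum_of_subset_of_nonneg (subset_univ _) fun i _ _ =>
            sum_nonneg fun S _ => sq_nonneg _
      _ ≤ d * V := by rw [hinf]; exact hinf2
  rcases hV0.eq_or_lt with h0 | hpos
  · have hB0 : B = ∅ := by
      rw [hB, filter_eq_empty_iff]
      intro i _
      push Not
      rw [← h0, mul_zero]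
      calc ∑ S with i ∈ S, c S ^ 2 ≤ V :=
            sum_le_sum_of_subset_of_nonneg (filter_subset _ _) fun S _ _ => sq_nonneg _
        _ = 0 := h0.symm
    rw [hB0]
    simp
  · have : (B.card : ℝ) * δ ^ d * V ≤ d * V := by linarith
    exact le_of_mul_le_mul_right this hpos

/-- Influential coordinates and dimension reduction: the inequality on cubes of dimension at most
`d δ^(-d)` gives it on all cubes, with the constant increased by `7`. -/
theorem result_C {p : ℝ} (hp : 2 ≤ p) : ∃ δ : ℝ, 0 < δ ∧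
    (∀ n d : ℕ, ∀ c : Finset (Fin n) → ℝ,
      (∀ S : Finset (Fin n), d < S.card → c S = 0) →
      ∀ B : Finset (Fin n),
      (∀ i, i ∉ B → ∑ S with i ∈ S, c S ^ 2 ≤ δ ^ d * ∑ S, c S ^ 2) →
      nm p (fun x => rl (fun S => (S.card : ℝ) * c S) fun i => sg (x i)) ≤
          7 * (d : ℝ) * nm p (fun x => rl c fun i => sg (x i)) +
            nm p (fun x => rl (fun S => ((S ∩ B).card : ℝ) * c S) fun i => sg (x i)) ∧
      nm p (fun x => rl (fun S => (S.card : ℝ) * c S) fun i => sg (x i)) ≤
          (7 * (d : ℝ) + (B.card : ℝ)) * nm p (fun x => rl c fun i => sg (x i))) ∧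
    ∀ (d : ℕ) (C : ℝ), 0 ≤ C →
      (∀ (m : ℕ) (g : Finset (Fin m) → ℝ), (m : ℝ) * δ ^ d ≤ d →
        (∀ T : Finset (Fin m), d < T.card → g T = 0) →
        nm p (fun z => rl (fun T => (T.card : ℝ) * g T) fun j => sg (z j)) ≤
          C * d * nm p (fun z => rl g fun j => sg (z j))) →
      ∀ (n : ℕ) (c : Finset (Fin n) → ℝ), (∀ S : Finset (Fin n), d < S.card → c S = 0) →
        nm p (fun x => rl (fun S => (S.card : ℝ) * c S) fun i => sg (x i)) ≤
          (C + 7) * d * nm p (fun x => rl c fun i => sg (x i)) := by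
  have hp0 : 0 < p := by linarith
  have hp1 : 1 ≤ p := by linarith
  obtain ⟨δ, hδ0, hδ⟩ := result_B hp
  refine ⟨δ, hδ0, hδ, fun d C hC hsmall n c hc => ?_⟩
  set B : Finset (Fin n) := univ.filter fun i : Fin n =>
      δ ^ d * ∑ S, c S ^ 2 < ∑ S with i ∈ S, c S ^ 2 with hB
  have hBcard : (B.card : ℝ) * δ ^ d ≤ d := card_influential c hc hδ0
  have h1 := (hδ n d c hc B (by
    intro i hi
    rw [hB, mem_filter] at hi
    push Not at hi
    exact hi (mem_univ i))).1
  have h2 := DR.avg B c d hc p ((C * d) ^ p) fun g hg => by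
    have h3 := hsmall B.card g hBcard hg
    unfold nm at h3
    have hs : ∀ u : (Fin B.card → Bool) → ℝ, 0 ≤ ∑ z, |u z| ^ p := fun u =>
      sum_nonneg fun z _ => by positivity
    have h4 := Real.rpow_le_rpow (Real.rpow_nonneg (hs _) _) h3 hp0.le
    rw [Real.mul_rpow (by positivity) (Real.rpow_nonneg (hs _) _), ← Real.rpow_mul (hs _),
      ← Real.rpow_mul (hs _), one_div_mul_cancel hp0.ne', Real.rpow_one, Real.rpow_one] at h4
    exact h4
  have h5 := nm_le hp1 (show 0 ≤ C * (d : ℝ) by positivity) h2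
  calc _ ≤ _ := h1
    _ ≤ 7 * (d : ℝ) * nm p (fun x => rl c fun i => sg (x i)) +
        C * d * nm p (fun x => rl c fun i => sg (x i)) := by linarith
    _ = _ := by ring

end Pool.Agent.Helper12.GM
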