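import Pool.Agent.Helper12.GM.Defs

/-!
Hypercontractivity of multilinear polynomials of degree `≤ d` in independent coordinates, each of
which is symmetric with variance one and has even moments at most those of a standard Gaussian
(Rademacher and Gaussian coordinates may be mixed):
`E F^(2k) ≤ (2k-1)^(kd) (E F^2)^k`.
-/

set_option autoImplicit false

open MeasureTheory ProbabilityTheory Finset

namespace Pool.Agent.Helper12.GM

namespace E

/-- Symmetric laws with variance one, all moments, and even moments at most `(2k-1)!!`. -/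
structure GoodLaw (μ : Measure ℝ) : Prop where
  int_pow : ∀ k : ℕ, Integrable (fun x : ℝ => x ^ k) μ
  odd : ∀ k : ℕ, ∫ x, x ^ (2 * k + 1) ∂μ = 0
  even : ∀ k : ℕ, ∫ x, x ^ (2 * k) ∂μ ≤ (Nat.doubleFactorial (2 * k - 1) : ℝ)
  two : ∫ x, x ^ 2 ∂μ = 1

/-! ### Combinatorics -/

lemma choose_df_le (k : ℕ) : ∀ i : ℕ, i ≤ k →
    ((2 * k).choose (2 * i) : ℝ) * (Nat.doubleFactorial (2 * i - 1) : ℝ)
      ≤ (2 * (k : ℝ) - 1) ^ i * (k.choose i : ℝ) := by
  intro i
  induction i with
  | zero => intro _; simp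
  | succ i ih =>
    intro hi
    have hi' : i ≤ k := by omega
    have h0 := ih hi'
    have e1 := Nat.choose_succ_right_eq (2 * k) (2 * i)
    have e2 := Nat.choose_succ_right_eq (2 * k) (2 * i + 1)
    have e3 := Nat.choose_succ_right_eq k i
    have df : Nat.doubleFactorial (2 * (i + 1) - 1) = (2 * i + 1) * Nat.doubleFactorial (2 * i - 1) := by
      have : 2 * (i + 1) - 1 = 2 * i + 1 := by omega
      rw [this]
      rcases i with _ | i
      · simp [Nat.doubleFactorial]
      · have h2 : 2 * (i + 1) + 1 = (2 * i + 1) + 2 := by ring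
        have h3 : 2 * (i + 1) - 1 = 2 * i + 1 := by omega
        rw [h2, Nat.doubleFactorial_add_two, h3]
    have c1 : ((2 * k).choose (2 * i + 1) : ℝ) * (2 * i + 1)
        = ((2 * k).choose (2 * i) : ℝ) * (2 * k - 2 * i) := by
      have := congrArg (fun m : ℕ => (m : ℝ)) e1
      push_cast [Nat.cast_sub (show 2 * i ≤ 2 * k by omega)] at this
      linarith
    have c2 : ((2 * k).choose (2 * (i + 1)) : ℝ) * (2 * i + 2)
        = ((2 * k).choose (2 * i + 1) : ℝ) * (2 * k - (2 * i + 1)) := by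
      have := congrArg (fun m : ℕ => (m : ℝ)) e2
      push_cast [Nat.cast_sub (show 2 * i + 1 ≤ 2 * k by omega)] at this
      have h4 : 2 * (i + 1) = 2 * i + 1 + 1 := by ring
      rw [h4]
      linarith
    have c3 : (k.choose (i + 1) : ℝ) * (i + 1) = (k.choose i : ℝ) * (k - i) := by
      have := congrArg (fun m : ℕ => (m : ℝ)) e3
      push_cast [Nat.cast_sub hi'] at this
      linarith
    have hk : (i : ℝ) + 1 ≤ k := by exact_mod_cast hi
    have hi0 : (0 : ℝ) ≤ i := Nat.cast_nonneg i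
    have hD : (0 : ℝ) ≤ Nat.doubleFactorial (2 * i - 1) := Nat.cast_nonneg _
    rw [df]
    push_cast
    -- multiply by (i+1)
    have key : ((2 * k).choose (2 * (i + 1)) : ℝ) * ((2 * i + 1) * (Nat.doubleFactorial (2 * i - 1) : ℝ)) * (i + 1)
        = (k - i) * (2 * k - 2 * i - 1) * (((2 * k).choose (2 * i) : ℝ) * (Nat.doubleFactorial (2 * i - 1) : ℝ)) := by
      have h5 : ((2 * k).choose (2 * (i + 1)) : ℝ) * (2 * i + 2) * (2 * i + 1)
          = ((2 * k).choose (2 * i) : ℝ) * (2 * k - 2 * i) * (2 * k - (2 * i + 1)) := by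
        rw [c2, ← c1]; ring
      linear_combination (Nat.doubleFactorial (2 * i - 1) : ℝ) / 2 * h5
    have key2 : (2 * (k : ℝ) - 1) ^ (i + 1) * (k.choose (i + 1) : ℝ) * (i + 1)
        = (k - i) * (2 * k - 1) * ((2 * (k : ℝ) - 1) ^ i * (k.choose i : ℝ)) := by
      rw [pow_succ]
      linear_combination (2 * (k : ℝ) - 1) ^ i * (2 * (k : ℝ) - 1) * c3
    have hpos : (0 : ℝ) < i + 1 := by linarith
    refine le_of_mul_le_mul_right ?_ hpos
    rw [key, key2]
    have hB : 0 ≤ (2 * (k : ℝ) - 1) ^ i * (k.choose i : ℝ) := by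
      have : (0 : ℝ) ≤ 2 * k - 1 := by linarith
      positivity
    have hA : 0 ≤ ((2 * k).choose (2 * i) : ℝ) * (Nat.doubleFactorial (2 * i - 1) : ℝ) := by positivity
    have f1 : (k - i : ℝ) * (2 * k - 2 * i - 1) ≤ (k - i) * (2 * k - 1) := by
      apply mul_le_mul_of_nonneg_left _ (by linarith)
      linarith
    have f0 : 0 ≤ (k - i : ℝ) * (2 * k - 1) := by
      apply mul_nonneg <;> linarith
    calc (k - i : ℝ) * (2 * k - 2 * i - 1) * (((2 * k).choose (2 * i) : ℝ) * (Nat.doubleFactorial (2 * i - 1) : ℝ))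
        ≤ (k - i) * (2 * k - 1) * (((2 * k).choose (2 * i) : ℝ) * (Nat.doubleFactorial (2 * i - 1) : ℝ)) :=
          mul_le_mul_of_nonneg_right f1 hA
      _ ≤ _ := mul_le_mul_of_nonneg_left h0 f0

/-! ### Hölder with natural exponents -/

lemma young_nat {k i : ℕ} (hk : 0 < k) (hi : i ≤ k) {s t : ℝ} (hs : 0 ≤ s) (ht : 0 ≤ t) :
    s ^ (k - i) * t ^ i ≤ ((k - i : ℕ) : ℝ) / k * s ^ k + (i : ℝ) / k * t ^ k := by
  have hk' : (0 : ℝ) < k := by exact_mod_cast hk
  have h := Real.geom_mean_le_arith_mean2_weighted (w₁ := ((k - i : ℕ) : ℝ) / k) (w₂ := (i : ℝ) / k)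
    (p₁ := s ^ k) (p₂ := t ^ k) (by positivity) (by positivity) (by positivity) (by positivity)
    (by rw [← add_div, ← Nat.cast_add, Nat.sub_add_cancel hi]; exact div_self hk'.ne')
  have e1 : (s ^ k) ^ (((k - i : ℕ) : ℝ) / k) = s ^ (k - i) := by
    rw [← Real.rpow_natCast s k, ← Real.rpow_mul hs, mul_div_cancel₀ _ hk'.ne', Real.rpow_natCast]
  have e2 : (t ^ k) ^ ((i : ℝ) / k) = t ^ i := by
    rw [← Real.rpow_natCast t k, ← Real.rpow_mul ht, mul_div_cancel₀ _ hk'.ne', Real.rpow_natCast]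
  rw [e1, e2] at h
  exact h

lemma holder_nat_pos {Ω : Type*} [MeasurableSpace Ω] {μ : Measure Ω} {k i : ℕ} (hk : 0 < k) (hi : i ≤ k)
    {u v : Ω → ℝ} (hu : ∀ x, 0 ≤ u x) (hv : ∀ x, 0 ≤ v x)
    (iu : Integrable (fun x => u x ^ k) μ) (iv : Integrable (fun x => v x ^ k) μ)
    (iuv : Integrable (fun x => u x ^ (k - i) * v x ^ i) μ)
    {α β : ℝ} (hα : 0 < α) (hβ : 0 < β)
    (h1 : ∫ x, u x ^ k ∂μ ≤ α ^ k) (h2 : ∫ x, v x ^ k ∂μ ≤ β ^ k) :
    ∫ x, u x ^ (k - i) * v x ^ i ∂μ ≤ α ^ (k - i) * β ^ i := by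
  have hk' : (0 : ℝ) < k := by exact_mod_cast hk
  have hb : ∀ x, u x ^ (k - i) * v x ^ i ≤ α ^ (k - i) * β ^ i *
      (((k - i : ℕ) : ℝ) / k / α ^ k * u x ^ k + (i : ℝ) / k / β ^ k * v x ^ k) := by
    intro x
    have h := young_nat hk hi (div_nonneg (hu x) hα.le) (div_nonneg (hv x) hβ.le)
    rw [div_pow, div_pow, div_pow, div_pow] at h
    have hpos : 0 < α ^ (k - i) * β ^ i := by positivity
    have h' := mul_le_mul_of_nonneg_left h hpos.le
    have e1 : α ^ (k - i) * β ^ i * (u x ^ (k - i) / α ^ (k - i) * (v x ^ i / β ^ i))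
        = u x ^ (k - i) * v x ^ i := by
      field_simp
    rw [e1] at h'
    refine h'.trans (le_of_eq ?_)
    ring
  calc ∫ x, u x ^ (k - i) * v x ^ i ∂μ
      ≤ ∫ x, α ^ (k - i) * β ^ i *
          (((k - i : ℕ) : ℝ) / k / α ^ k * u x ^ k + (i : ℝ) / k / β ^ k * v x ^ k) ∂μ :=
        integral_mono iuv (((iu.const_mul _).add (iv.const_mul _)).const_mul _) hb
    _ = α ^ (k - i) * β ^ i * (((k - i : ℕ) : ℝ) / k / α ^ k * ∫ x, u x ^ k ∂μ +
          (i : ℝ) / k / β ^ k * ∫ x, v x ^ k ∂μ) := by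
        rw [integral_const_mul, integral_add (iu.const_mul _) (iv.const_mul _), integral_const_mul,
          integral_const_mul]
    _ ≤ α ^ (k - i) * β ^ i * (((k - i : ℕ) : ℝ) / k / α ^ k * α ^ k + (i : ℝ) / k / β ^ k * β ^ k) := by
        gcongr
    _ = α ^ (k - i) * β ^ i := by
        have : ((k - i : ℕ) : ℝ) / k / α ^ k * α ^ k + (i : ℝ) / k / β ^ k * β ^ k = 1 := by
          rw [div_mul_cancel₀ _ (by positivity), div_mul_cancel₀ _ (by positivity), ← add_div,
            ← Nat.cast_add, Nat.sub_add_cancel hi]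
          exact div_self hk'.ne'
        rw [this, mul_one]

lemma holder_nat {Ω : Type*} [MeasurableSpace Ω] {μ : Measure Ω} {k i : ℕ} (hk : 0 < k) (hi : i ≤ k)
    {u v : Ω → ℝ} (hu : ∀ x, 0 ≤ u x) (hv : ∀ x, 0 ≤ v x)
    (iu : Integrable (fun x => u x ^ k) μ) (iv : Integrable (fun x => v x ^ k) μ)
    (iuv : Integrable (fun x => u x ^ (k - i) * v x ^ i) μ)
    {α β : ℝ} (hα : 0 ≤ α) (hβ : 0 ≤ β)
    (h1 : ∫ x, u x ^ k ∂μ ≤ α ^ k) (h2 : ∫ x, v x ^ k ∂μ ≤ β ^ k) :
    ∫ x, u x ^ (k - i) * v x ^ i ∂μ ≤ α ^ (k - i) * β ^ i := by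
  have hlim : Filter.Tendsto (fun ε : ℝ => (α + ε) ^ (k - i) * (β + ε) ^ i)
      (nhdsWithin 0 (Set.Ioi 0)) (nhds (α ^ (k - i) * β ^ i)) := by
    have hc : Continuous (fun ε : ℝ => (α + ε) ^ (k - i) * (β + ε) ^ i) := by fun_prop
    have := (hc.tendsto 0).mono_left (nhdsWithin_le_nhds (s := Set.Ioi 0))
    simpa using this
  refine ge_of_tendsto hlim ?_
  filter_upwards [self_mem_nhdsWithin] with ε hε
  have hε' : (0 : ℝ) < ε := hε
  refine holder_nat_pos hk hi hu hv iu iv iuv (by linarith) (by linarith) (h1.trans ?_) (h2.trans ?_)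
  · exact pow_le_pow_left₀ hα (by linarith) _
  · exact pow_le_pow_left₀ hβ (by linarith) _

/-! ### Integrability of polynomials -/

lemma integrable_mvPoly {n : ℕ} {μ : Fin n → Measure ℝ} [∀ i, IsProbabilityMeasure (μ i)]
    (hμ : ∀ i, GoodLaw (μ i)) (P : MvPolynomial (Fin n) ℝ) :
    Integrable (fun x : Fin n → ℝ => MvPolynomial.eval x P) (Measure.pi μ) := by
  induction P using MvPolynomial.induction_on' with
  | monomial u a =>
    have h : Integrable (fun x : Fin n → ℝ => ∏ i, (x i) ^ (u i)) (Measure.pi μ) :=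
      Integrable.fintype_prod (f := fun i (y : ℝ) => y ^ (u i)) fun i => (hμ i).int_pow _
    have h2 := h.const_mul a
    refine h2.congr (Filter.Eventually.of_forall fun x => ?_)
    simp only [MvPolynomial.eval_monomial]
    rw [Finsupp.prod_fintype _ _ (by intro i; simp)]
  | add p q hp hq =>
    have h := hp.add hq
    refine h.congr (Filter.Eventually.of_forall fun x => ?_)
    simp

/-- `rl` as a polynomial. -/
noncomputable def rlP {n : ℕ} (c : Finset (Fin n) → ℝ) : MvPolynomial (Fin n) ℝ :=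
  ∑ S, MvPolynomial.C (c S) * ∏ i ∈ S, MvPolynomial.X i

lemma eval_rlP {n : ℕ} (c : Finset (Fin n) → ℝ) (x : Fin n → ℝ) :
    MvPolynomial.eval x (rlP c) = rl c x := by
  simp [rlP, rl]

lemma continuous_rl {n : ℕ} (c : Finset (Fin n) → ℝ) : Continuous (rl c) := by
  unfold rl; fun_prop

lemma integrable_rl_mul {n : ℕ} {μ : Fin n → Measure ℝ} [∀ i, IsProbabilityMeasure (μ i)]
    (hμ : ∀ i, GoodLaw (μ i)) (c c' : Finset (Fin n) → ℝ) (a b : ℕ) :
    Integrable (fun x : Fin n → ℝ => rl c x ^ a * rl c' x ^ b) (Measure.pi μ) := by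
  have h := integrable_mvPoly hμ (rlP c ^ a * rlP c' ^ b)
  simpa [eval_rlP] using h

lemma integrable_rl_pow {n : ℕ} {μ : Fin n → Measure ℝ} [∀ i, IsProbabilityMeasure (μ i)]
    (hμ : ∀ i, GoodLaw (μ i)) (c : Finset (Fin n) → ℝ) (a : ℕ) :
    Integrable (fun x : Fin n → ℝ => rl c x ^ a) (Measure.pi μ) := by
  have h := integrable_rl_mul hμ c c a 0
  simpa using h

/-! ### Splitting off one coordinate -/

lemma sum_finset_succ {M : Type*} [AddCommMonoid M] {n : ℕ} (f : Finset (Fin (n + 1)) → M) :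
    ∑ S, f S = ∑ T : Finset (Fin n), f (T.map (Fin.succEmb n)) +
      ∑ T : Finset (Fin n), f (insert 0 (T.map (Fin.succEmb n))) := by
  have h0 : (univ : Finset (Finset (Fin (n + 1)))) =
      (insert 0 ((univ : Finset (Fin n)).map (Fin.succEmb n))).powerset := by
    ext S
    simp only [mem_univ, mem_powerset, true_iff]
    intro i _
    rcases Fin.eq_zero_or_eq_succ i with h | ⟨j, rfl⟩
    · simp [h]
    · simp
  have hn : (0 : Fin (n + 1)) ∉ (univ : Finset (Fin n)).map (Fin.succEmb n) := by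
    simp
  have hmap : ∀ g : Finset (Fin (n + 1)) → M,
      ∑ t ∈ ((univ : Finset (Fin n)).map (Fin.succEmb n)).powerset, g t
        = ∑ T : Finset (Fin n), g (T.map (Fin.succEmb n)) := by
    intro g
    symm
    refine Finset.sum_bij (fun T _ => T.map (Fin.succEmb n)) ?_ ?_ ?_ ?_
    · intro T _
      rw [mem_powerset]
      exact Finset.map_subset_map.2 (subset_univ T)
    · intro T _ T' _ h
      exact Finset.map_injective _ h
    · intro t ht
      rw [mem_powerset] at ht
      obtain ⟨u, _, hu⟩ := Finset.subset_map_iff.1 ht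
      exact ⟨u, mem_univ _, hu.symm⟩
    · intro T _; rfl
  rw [h0, Finset.sum_powerset_insert hn, hmap, hmap]

/-- coefficients without the coordinate `0` -/
def c0 {n : ℕ} (c : Finset (Fin (n + 1)) → ℝ) (T : Finset (Fin n)) : ℝ := c (T.map (Fin.succEmb n))

/-- coefficients with the coordinate `0` -/
def c1 {n : ℕ} (c : Finset (Fin (n + 1)) → ℝ) (T : Finset (Fin n)) : ℝ :=
  c (insert 0 (T.map (Fin.succEmb n)))

lemma zero_notMem_map {n : ℕ} (T : Finset (Fin n)) : (0 : Fin (n + 1)) ∉ T.map (Fin.succEmb n) := by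
  simp

lemma rl_cons {n : ℕ} (c : Finset (Fin (n + 1)) → ℝ) (t : ℝ) (y : Fin n → ℝ) :
    rl c (Fin.cons t y) = rl (c0 c) y + t * rl (c1 c) y := by
  unfold rl
  rw [sum_finset_succ]
  congr 1
  · refine sum_congr rfl fun T _ => ?_
    simp [c0, Finset.prod_map]
  · rw [mul_sum]
    refine sum_congr rfl fun T _ => ?_
    rw [Finset.prod_insert (zero_notMem_map T)]
    simp only [Fin.cons_zero, c1, Finset.prod_map, Fin.coe_succEmb, Fin.cons_succ]
    ring

lemma sum_sq_succ {n : ℕ} (c : Finset (Fin (n + 1)) → ℝ) :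
    ∑ S, c S ^ 2 = ∑ T, c0 c T ^ 2 + ∑ T, c1 c T ^ 2 := by
  rw [sum_finset_succ]; rfl

lemma integral_pi_succ {n : ℕ} {μ : Fin (n + 1) → Measure ℝ} [∀ i, IsProbabilityMeasure (μ i)]
    (F : (Fin (n + 1) → ℝ) → ℝ) :
    ∫ x, F x ∂(Measure.pi μ) =
      ∫ z : ℝ × (Fin n → ℝ), F (Fin.cons z.1 z.2) ∂((μ 0).prod (Measure.pi fun j => μ j.succ)) := by
  rw [← ((measurePreserving_piFinSuccAbove μ 0).symm).integral_comp']
  simp only [MeasurableEquiv.piFinSuccAbove_symm_apply, Fin.insertNthEquiv, Equiv.coe_fn_mk,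
    Fin.insertNth_zero, Fin.zero_succAbove]
  rfl

/-! ### The theorem -/

/-- one step: integrating out a coordinate independent of `g`, `h` -/
lemma step_expand {Ω : Type*} [MeasurableSpace Ω] {μ : Measure ℝ} [IsProbabilityMeasure μ] {ν : Measure Ω}
    [SFinite ν] (hμ : GoodLaw μ) (m : ℕ) (g h : Ω → ℝ)
    (hgh : ∀ a b : ℕ, Integrable (fun y => g y ^ a * h y ^ b) ν) :
    ∫ z : ℝ × Ω, (g z.2 + z.1 * h z.2) ^ m ∂(μ.prod ν) =
      ∑ j ∈ range (m + 1), (m.choose j : ℝ) * (∫ t, t ^ j ∂μ) * ∫ y, g y ^ (m - j) * h y ^ j ∂ν := by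
  have e : ∀ z : ℝ × Ω, (g z.2 + z.1 * h z.2) ^ m =
      ∑ j ∈ range (m + 1), (m.choose j : ℝ) * (z.1 ^ j * (g z.2 ^ (m - j) * h z.2 ^ j)) := by
    intro z
    rw [add_comm, add_pow]
    refine sum_congr rfl fun j _ => ?_
    rw [mul_pow]; ring
  have hi : ∀ j, Integrable (fun z : ℝ × Ω => z.1 ^ j * (g z.2 ^ (m - j) * h z.2 ^ j)) (μ.prod ν) :=
    fun j => Integrable.mul_prod (hμ.int_pow j) (hgh _ _)
  simp_rw [e]
  rw [integral_finsetSum _ (fun j _ => (hi j).const_mul _)]
  refine sum_congr rfl fun j _ => ?_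
  rw [integral_const_mul, integral_prod_mul (fun t : ℝ => t ^ j) (fun y => g y ^ (m - j) * h y ^ j)]
  ring

/-- sums over even indices -/
lemma sum_even_only (k : ℕ) (f : ℕ → ℝ) (hf : ∀ i, f (2 * i + 1) = 0) :
    ∑ j ∈ range (2 * k + 1), f j = ∑ i ∈ range (k + 1), f (2 * i) := by
  induction k with
  | zero => simp
  | succ k ih =>
    have : 2 * (k + 1) + 1 = (2 * k + 1) + 1 + 1 := by ring
    rw [this, sum_range_succ, sum_range_succ, ih, sum_range_succ _ (k + 1), hf k]
    have h2 : 2 * k + 1 + 1 = 2 * (k + 1) := by ring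
    rw [h2]; ring

theorem hyper_good (k d : ℕ) : ∀ (n : ℕ) (μ : Fin n → Measure ℝ) [∀ i, IsProbabilityMeasure (μ i)]
    (_ : ∀ i, GoodLaw (μ i)) (c : Finset (Fin n) → ℝ) (_ : ∀ S, d < S.card → c S = 0),
    ∫ x, rl c x ^ (2 * k) ∂(Measure.pi μ) ≤ ((2 * (k : ℝ) - 1) ^ d * ∑ S, c S ^ 2) ^ k := by
  rcases Nat.eq_zero_or_pos k with hk0 | hk
  · subst hk0
    intro n μ _ _ c _
    simp
  have hk1 : (1 : ℝ) ≤ k := by exact_mod_cast hk
  have hρ : (1 : ℝ) ≤ 2 * (k : ℝ) - 1 := by linarith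
  have hρ0 : (0 : ℝ) ≤ 2 * (k : ℝ) - 1 := by linarith
  intro n
  induction n generalizing d with
  | zero =>
    intro μ _ _ c hc
    have huniv : (univ : Finset (Finset (Fin 0))) = {∅} :=
      Finset.eq_singleton_iff_unique_mem.2 ⟨mem_univ _, fun S _ => Finset.eq_empty_of_isEmpty S⟩
    have hrl : ∀ x, rl c x = c ∅ := by
      intro x
      unfold rl
      rw [huniv]; simp
    simp_rw [hrl]
    rw [integral_const, huniv]
    simp only [probReal_univ, smul_eq_mul, one_mul, sum_singleton, pow_mul]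
    apply pow_le_pow_left₀ (sq_nonneg _)
    have h1 : (1 : ℝ) ≤ (2 * (k : ℝ) - 1) ^ d := one_le_pow₀ hρ
    nlinarith [sq_nonneg (c ∅)]
  | succ n ih =>
    intro μ _ hμ c hc
    set ν : Fin n → Measure ℝ := fun j => μ j.succ with hν
    have hν' : ∀ i, GoodLaw (ν i) := fun i => hμ _
    have hd0 : ∀ T, d < T.card → c0 c T = 0 := by
      intro T hT
      exact hc _ (by simpa using hT)
    have hd1 : ∀ T, d - 1 < T.card → c1 c T = 0 := by
      intro T hT
      refine hc _ ?_
      rw [card_insert_of_notMem (zero_notMem_map T), card_map]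
      omega
    set a : ℝ := ∑ T, c0 c T ^ 2 with ha
    set b : ℝ := ∑ T, c1 c T ^ 2 with hb
    have ha0 : 0 ≤ a := sum_nonneg fun T _ => sq_nonneg _
    have hb0 : 0 ≤ b := sum_nonneg fun T _ => sq_nonneg _
    have I0 := ih d ν hν' (c0 c) hd0
    have I1 := ih (d - 1) ν hν' (c1 c) hd1
    rw [← ha] at I0
    rw [← hb] at I1
    set α : ℝ := (2 * (k : ℝ) - 1) ^ d * a with hα
    set β : ℝ := (2 * (k : ℝ) - 1) ^ (d - 1) * b with hβ
    have hα0 : 0 ≤ α := by positivity
    have hβ0 : 0 ≤ β := by positivity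
    have hβ1 : (2 * (k : ℝ) - 1) * β ≤ (2 * (k : ℝ) - 1) ^ d * b := by
      rcases Nat.eq_zero_or_pos d with h | h
      · have hb' : b = 0 := by
          rw [hb]
          refine sum_eq_zero fun T _ => ?_
          have : c1 c T = 0 := by
            refine hc _ ?_
            rw [card_insert_of_notMem (zero_notMem_map T), card_map]
            omega
          rw [this]; ring
        rw [hβ, hb']; simp
      · have : d = (d - 1) + 1 := by omega
        rw [hβ, ← mul_assoc, ← pow_succ', ← this]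
    rw [integral_pi_succ]
    simp_rw [rl_cons]
    rw [step_expand (hμ 0) (2 * k) (rl (c0 c)) (rl (c1 c)) (fun p q => integrable_rl_mul hν' _ _ p q)]
    rw [sum_even_only k _ (fun i => by rw [(hμ 0).odd i]; ring)]
    rw [sum_sq_succ, ← ha, ← hb, mul_add, ← hα, add_comm α, add_pow]
    refine sum_le_sum fun i hi => ?_
    have hik : i ≤ k := by
      have := mem_range.1 hi
      omega
    -- Hölder
    have H : ∫ y, rl (c0 c) y ^ (2 * k - 2 * i) * rl (c1 c) y ^ (2 * i) ∂(Measure.pi ν)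
        ≤ α ^ (k - i) * β ^ i := by
      have := holder_nat (μ := Measure.pi ν) hk hik (u := fun y => rl (c0 c) y ^ 2)
        (v := fun y => rl (c1 c) y ^ 2) (fun y => sq_nonneg _) (fun y => sq_nonneg _)
        (by simpa [← pow_mul] using integrable_rl_pow hν' (c0 c) (2 * k))
        (by simpa [← pow_mul] using integrable_rl_pow hν' (c1 c) (2 * k))
        (by simpa [← pow_mul] using integrable_rl_mul hν' (c0 c) (c1 c) (2 * (k - i)) (2 * i))
        hα0 hβ0 (by simpa [← pow_mul] using I0) (by simpa [← pow_mul] using I1)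
      have e : 2 * k - 2 * i = 2 * (k - i) := by omega
      rw [e]
      simpa [← pow_mul] using this
    have Hnn : 0 ≤ ∫ y, rl (c0 c) y ^ (2 * k - 2 * i) * rl (c1 c) y ^ (2 * i) ∂(Measure.pi ν) := by
      refine integral_nonneg fun y => ?_
      have e : 2 * k - 2 * i = 2 * (k - i) := by omega
      simp only [Pi.zero_apply]
      rw [e, pow_mul, pow_mul]
      positivity
    calc ((2 * k).choose (2 * i) : ℝ) * (∫ t, t ^ (2 * i) ∂(μ 0)) *
          ∫ y, rl (c0 c) y ^ (2 * k - 2 * i) * rl (c1 c) y ^ (2 * i) ∂(Measure.pi ν)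
        ≤ ((2 * k).choose (2 * i) : ℝ) * (Nat.doubleFactorial (2 * i - 1) : ℝ) *
          (α ^ (k - i) * β ^ i) := by
          refine mul_le_mul ?_ H Hnn (by positivity)
          exact mul_le_mul_of_nonneg_left ((hμ 0).even i) (by positivity)
      _ ≤ ((2 * (k : ℝ) - 1) ^ i * (k.choose i : ℝ)) * (α ^ (k - i) * β ^ i) :=
          mul_le_mul_of_nonneg_right (choose_df_le k i hik) (by positivity)
      _ = (((2 * (k : ℝ) - 1) * β) ^ i) * α ^ (k - i) * (k.choose i : ℝ) := by
          rw [mul_pow (2 * (k : ℝ) - 1) β i]; ring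
      _ ≤ ((2 * (k : ℝ) - 1) ^ d * b) ^ i * α ^ (k - i) * (k.choose i : ℝ) := by
          have := pow_le_pow_left₀ (by positivity : 0 ≤ (2 * (k : ℝ) - 1) * β) hβ1 i
          gcongr

/-! ### The two laws -/

lemma gauss_int_pow (k : ℕ) : Integrable (fun x : ℝ => x ^ k) (gaussianReal 0 1) := by
  have h := (memLp_id_gaussianReal (μ := 0) (v := 1) (k : NNReal)).integrable_norm_pow'
  refine h.mono' (by fun_prop) (Filter.Eventually.of_forall fun x => ?_)
  simp

lemma gauss_int_pdf (k : ℕ) : Integrable (fun x : ℝ => x ^ k * gaussianPDFReal 0 1 x) := by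
  have h := gauss_int_pow k
  rw [gaussianReal_of_var_ne_zero 0 one_ne_zero,
    integrable_withDensity_iff_integrable_smul' (measurable_gaussianPDF 0 1)
      (Filter.Eventually.of_forall fun x => by simp [gaussianPDF])] at h
  refine h.congr (Filter.Eventually.of_forall fun x => ?_)
  simp only [toReal_gaussianPDF, smul_eq_mul]
  ring

lemma pdf_hasDerivAt (x : ℝ) :
    HasDerivAt (fun x => gaussianPDFReal 0 1 x) (-(x * gaussianPDFReal 0 1 x)) x := by
  have hf : ∀ x, gaussianPDFReal 0 1 x = (√(2 * Real.pi))⁻¹ * Real.exp (-x ^ 2 / 2) := by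
    intro x; simp [gaussianPDFReal]
  have h1 : HasDerivAt (fun x : ℝ => -x ^ 2 / 2) (-x) x :=
    ((hasDerivAt_pow 2 x).fun_neg.div_const 2).congr_deriv (by simp; ring)
  have h2 := ((h1.exp).const_mul ((√(2 * Real.pi))⁻¹)).congr_deriv
    (show _ = -(x * gaussianPDFReal 0 1 x) by rw [hf]; ring)
  have h3 : (fun x => gaussianPDFReal 0 1 x) = fun y => (√(2 * Real.pi))⁻¹ * Real.exp (-y ^ 2 / 2) :=
    funext hf
  rw [h3]
  exact h2

lemma gauss_rec (m : ℕ) : ∫ x, x ^ (m + 2) ∂(gaussianReal 0 1) =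
    (m + 1) * ∫ x, x ^ m ∂(gaussianReal 0 1) := by
  have e : ∀ k : ℕ, ∫ x, x ^ k ∂(gaussianReal 0 1) = ∫ x, x ^ k * gaussianPDFReal 0 1 x := by
    intro k
    rw [integral_gaussianReal_eq_integral_smul one_ne_zero]
    refine integral_congr_ae (Filter.Eventually.of_forall fun x => ?_)
    simp only [smul_eq_mul]; ring
  rw [e, e]
  have h := integral_mul_deriv_eq_deriv_mul_of_integrable
    (u := fun x : ℝ => x ^ (m + 1)) (v := fun x => gaussianPDFReal 0 1 x)
    (u' := fun x => ((m + 1 : ℕ) : ℝ) * x ^ m) (v' := fun x => -(x * gaussianPDFReal 0 1 x))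
    (fun x _ => by simpa using hasDerivAt_pow (m + 1) x) (fun x _ => pdf_hasDerivAt x)
    (by
      refine ((gauss_int_pdf (m + 2)).neg).congr (Filter.Eventually.of_forall fun x => ?_)
      simp only [Pi.neg_apply, Pi.mul_apply]; ring)
    (by
      refine ((gauss_int_pdf m).const_mul ((m + 1 : ℕ) : ℝ)).congr
        (Filter.Eventually.of_forall fun x => ?_)
      simp only [Pi.mul_apply]; ring)
    (by
      refine (gauss_int_pdf (m + 1)).congr (Filter.Eventually.of_forall fun x => ?_)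
      simp only [Pi.mul_apply])
  have e1 : ∫ x : ℝ, x ^ (m + 1) * -(x * gaussianPDFReal 0 1 x)
      = -∫ x : ℝ, x ^ (m + 2) * gaussianPDFReal 0 1 x := by
    rw [← integral_neg]
    refine integral_congr_ae (Filter.Eventually.of_forall fun x => ?_)
    simp only; ring
  have e2 : ∫ x : ℝ, ((m + 1 : ℕ) : ℝ) * x ^ m * gaussianPDFReal 0 1 x
      = (m + 1) * ∫ x : ℝ, x ^ m * gaussianPDFReal 0 1 x := by
    rw [← integral_const_mul]
    refine integral_congr_ae (Filter.Eventually.of_forall fun x => ?_)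
    push_cast; ring
  rw [e1, e2] at h
  linarith

lemma gauss_even (k : ℕ) : ∫ x, x ^ (2 * k) ∂(gaussianReal 0 1) =
    (Nat.doubleFactorial (2 * k - 1) : ℝ) := by
  induction k with
  | zero => simp
  | succ k ih =>
    have e : 2 * (k + 1) = 2 * k + 2 := by ring
    have e' : 2 * k + 2 - 1 = 2 * k + 1 := by omega
    rw [e, gauss_rec, ih, e']
    rcases k with _ | k
    · simp
    · have h1 : 2 * (k + 1) + 1 = (2 * k + 1) + 2 := by ring
      have h2 : 2 * (k + 1) - 1 = 2 * k + 1 := by omega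
      rw [h1, h2, Nat.doubleFactorial_add_two]
      push_cast; ring

lemma gauss_odd (k : ℕ) : ∫ x, x ^ (2 * k + 1) ∂(gaussianReal 0 1) = 0 := by
  induction k with
  | zero => simp [integral_id_gaussianReal]
  | succ k ih =>
    have e : 2 * (k + 1) + 1 = 2 * k + 1 + 2 := by ring
    rw [e, gauss_rec, ih, mul_zero]

lemma goodLaw_gaussian : GoodLaw (gaussianReal 0 1) where
  int_pow := gauss_int_pow
  odd := gauss_odd
  even := fun k => (gauss_even k).le
  two := by
    have := gauss_even 1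
    simpa using this

instance rad_prob : IsProbabilityMeasure rad := by
  constructor
  simp [rad, ENNReal.inv_two_add_inv_two]

lemma rad_integrable (f : ℝ → ℝ) : Integrable f rad := by
  unfold rad
  refine Integrable.add_measure ?_ ?_
  · exact (integrable_dirac (by simp)).smul_measure (by simp)
  · exact (integrable_dirac (by simp)).smul_measure (by simp)

lemma rad_integral (f : ℝ → ℝ) : ∫ x, f x ∂rad = (f 1 + f (-1)) / 2 := by
  unfold rad
  rw [integral_add_measure, integral_smul_measure, integral_smul_measure, integral_dirac,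
    integral_dirac]
  · simp; ring
  · exact (integrable_dirac (by simp)).smul_measure (by simp)
  · exact (integrable_dirac (by simp)).smul_measure (by simp)

lemma goodLaw_rad : GoodLaw rad where
  int_pow := fun k => rad_integrable _
  odd := by
    intro k
    rw [rad_integral]
    simp [pow_succ, pow_mul]
  even := by
    intro k
    rw [rad_integral]
    simp only [one_pow, pow_mul, neg_one_sq]
    have h : 1 ≤ Nat.doubleFactorial (2 * k - 1) := Nat.doubleFactorial_pos _
    have h' : (1 : ℝ) ≤ (Nat.doubleFactorial (2 * k - 1) : ℝ) := by exact_mod_cast h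
    linarith
  two := by
    rw [rad_integral]; norm_num

lemma good_of_GR {μ : Measure ℝ} (h : GR μ) : GoodLaw μ := by
  rcases h with h | h <;> rw [h]
  · exact goodLaw_gaussian
  · exact goodLaw_rad

lemma prob_of_GR {μ : Measure ℝ} (h : GR μ) : IsProbabilityMeasure μ := by
  rcases h with h | h <;> rw [h] <;> infer_instance

end E

open E in
/-- Mixed hypercontractivity. -/
theorem hyper {n : ℕ} (μ : Fin n → Measure ℝ) (hμ : ∀ i, GR (μ i)) (c : Finset (Fin n) → ℝ)
    (d : ℕ) (hc : ∀ S : Finset (Fin n), d < S.card → c S = 0) (k : ℕ) (hk : 1 ≤ k) :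
    Integrable (fun x => rl c x ^ (2 * k)) (Measure.pi μ) ∧
    ∫ x, rl c x ^ (2 * k) ∂(Measure.pi μ) ≤
      ((2 * k - 1 : ℕ) : ℝ) ^ (k * d) * (∑ S, c S ^ 2) ^ k := by
  have : ∀ i, IsProbabilityMeasure (μ i) := fun i => prob_of_GR (hμ i)
  refine ⟨integrable_rl_pow (fun i => good_of_GR (hμ i)) c _, ?_⟩
  have h := hyper_good k d n μ (fun i => good_of_GR (hμ i)) c hc
  refine h.trans (le_of_eq ?_)
  have e : ((2 * k - 1 : ℕ) : ℝ) = 2 * (k : ℝ) - 1 := by
    rw [Nat.cast_sub (by omega)]; push_cast; ring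
  rw [e, mul_pow, ← pow_mul, mul_comm d k]

end Pool.Agent.Helper12.GM
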