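import Pool.Agent.Helper12.GM.GaussN
import Pool.Agent.Helper12.GM.RowE

set_option autoImplicit false

namespace Pool.Agent.Helper12.GM

open MeasureTheory ProbabilityTheory MvPolynomial
open scoped ComplexConjugate ENNReal

/-- Gaussian on `A`, Rademacher off `A`. -/
noncomputable def muA {n : ℕ} (A : Finset (Fin n)) (i : Fin n) : Measure ℝ :=
  if i ∈ A then gaussianReal 0 1 else rad

theorem muA_GR {n : ℕ} (A : Finset (Fin n)) (i : Fin n) : GR (muA A i) := by
  unfold muA GR
  split_ifs <;> simp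

instance muA_prob {n : ℕ} (A : Finset (Fin n)) (i : Fin n) : IsProbabilityMeasure (muA A i) :=
  E.prob_of_GR (muA_GR A i)

theorem rl_integrable {n : ℕ} {μ : Fin n → Measure ℝ} (hμ : ∀ i, GR (μ i))
    (c : Finset (Fin n) → ℝ) {p : ℝ} (hp : 0 ≤ p) :
    Integrable (fun x => |rl c x| ^ p) (Measure.pi μ) := by
  haveI : ∀ i, IsProbabilityMeasure (μ i) := fun i => E.prob_of_GR (hμ i)
  obtain ⟨k, hk⟩ := exists_nat_ge (p / 2)
  have hk' : p ≤ ((2 * (k + 1) : ℕ) : ℝ) := by
    push_cast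
    linarith
  have h1 := (hyper μ hμ c n (fun S hS => absurd (Finset.card_le_univ S) (by simpa using hS))
    (k + 1) (by omega)).1
  refine Integrable.mono' (h1.add (integrable_const (1 : ℝ))) ?_ ?_
  · have : Continuous fun x => |rl c x| ^ p := (E.continuous_rl c).abs.rpow_const fun _ => Or.inr hp
    exact this.aestronglyMeasurable
  · refine Filter.Eventually.of_forall fun x => ?_
    rw [Real.norm_of_nonneg (by positivity)]
    simp only [Pi.add_apply]
    rcases le_total |rl c x| 1 with h | h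
    · have h2 : |rl c x| ^ p ≤ 1 := Real.rpow_le_one (abs_nonneg _) h hp
      have h3 : 0 ≤ rl c x ^ (2 * (k + 1)) := by
        rw [pow_mul]; positivity
      linarith
    · have h2 : |rl c x| ^ p ≤ |rl c x| ^ (((2 * (k + 1) : ℕ) : ℝ)) :=
        Real.rpow_le_rpow_of_exponent_le h hk'
      rw [Real.rpow_natCast, pow_mul, sq_abs, ← pow_mul] at h2
      linarith

section fiber

variable {n : ℕ} (A : Finset (Fin n))

/-- Glue two partial vectors. -/
noncomputable def glue (x : {i // i ∈ A} → ℝ) (y : {i // ¬ i ∈ A} → ℝ) : Fin n → ℝ :=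
  fun i => if h : i ∈ A then x ⟨i, h⟩ else y ⟨i, h⟩

/-- The coefficients of the restriction to a fibre. -/
noncomputable def fc (c : Finset (Fin n) → ℝ) (y : {i // ¬ i ∈ A} → ℝ)
    (T : Finset {i // i ∈ A}) : ℂ :=
  ∑ S : Finset (Fin n), if S.subtype (· ∈ A) = T then
    ((c S : ℝ) : ℂ) * ∏ i ∈ S.subtype (fun i => ¬ i ∈ A), ((y i : ℝ) : ℂ) else 0

theorem fc_ml (c : Finset (Fin n) → ℝ) (w : ℕ → ℝ) (x : {i // i ∈ A} → ℝ)
    (y : {i // ¬ i ∈ A} → ℝ) :
    ml (fun T => ((w T.card : ℝ) : ℂ) * fc A c y T) (fun j => ((x j : ℝ) : ℂ)) =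
      ((rl (fun S => w (S ∩ A).card * c S) (glue A x y) : ℝ) : ℂ) := by
  unfold ml rl fc
  push_cast
  simp_rw [Finset.mul_sum, Finset.sum_mul]
  rw [Finset.sum_comm]
  refine Finset.sum_congr rfl fun S _ => ?_
  rw [Finset.sum_eq_single (S.subtype (· ∈ A))]
  · rw [if_pos rfl]
    have h1 : (S.subtype (· ∈ A)).card = (S ∩ A).card := by
      rw [Finset.card_subtype, Finset.filter_mem_eq_inter]
    rw [h1]
    have h2 : ∏ i ∈ S, ((glue A x y i : ℝ) : ℂ) =
        (∏ i ∈ S.subtype (· ∈ A), ((x i : ℝ) : ℂ)) *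
          ∏ i ∈ S.subtype (fun i => ¬ i ∈ A), ((y i : ℝ) : ℂ) := by
      rw [← Finset.prod_filter_mul_prod_filter_not S (· ∈ A)]
      congr 1
      · rw [← Finset.prod_subtype_eq_prod_filter]
        refine Finset.prod_congr rfl fun i _ => ?_
        unfold glue
        rw [dif_pos i.2]
      · rw [← Finset.prod_subtype_eq_prod_filter]
        refine Finset.prod_congr rfl fun i _ => ?_
        unfold glue
        rw [dif_neg i.2]
    rw [h2]
    ring
  · intro T _ hT
    rw [if_neg (fun h => hT h.symm)]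
    ring
  · intro h
    exact absurd (Finset.mem_univ _) h

theorem fc_zero (c : Finset (Fin n) → ℝ) (d : ℕ)
    (hc : ∀ S : Finset (Fin n), d < S.card → c S = 0) (y : {i // ¬ i ∈ A} → ℝ)
    (T : Finset {i // i ∈ A}) (hT : d < T.card) : fc A c y T = 0 := by
  unfold fc
  refine Finset.sum_eq_zero fun S _ => ?_
  split_ifs with h
  · rw [hc S]
    · simp
    · have h1 : (S.subtype (· ∈ A)).card ≤ S.card := by
        rw [Finset.card_subtype]
        exact Finset.card_filter_le _ _
      rw [h] at h1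
      omega
  · rfl

theorem fib_integrable (c' : Finset (Fin n) → ℝ) {p : ℝ} (hp0 : 0 ≤ p) :
    Integrable (fun w : ({i // i ∈ A} → ℝ) × ({i // ¬ i ∈ A} → ℝ) =>
      |rl c' (glue A w.1 w.2)| ^ p)
      ((gam {i // i ∈ A}).prod (Measure.pi fun i : {i // ¬ i ∈ A} => muA A i)) ∧
    ∫ x, |rl c' x| ^ p ∂(Measure.pi (muA A)) =
      ∫ y, (∫ x, |rl c' (glue A x y)| ^ p ∂(gam {i // i ∈ A}))
        ∂(Measure.pi fun i : {i // ¬ i ∈ A} => muA A i) := by
  have h1 : (Measure.pi fun i : {i // i ∈ A} => muA A i) = gam {i // i ∈ A} := by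
    unfold gam
    congr 1
    funext i
    unfold muA
    rw [if_pos i.2]
  have hmp : MeasurePreserving
      (⇑(MeasurableEquiv.piEquivPiSubtypeProd (fun _ : Fin n => ℝ) fun i => i ∈ A).symm)
      ((gam {i // i ∈ A}).prod (Measure.pi fun i : {i // ¬ i ∈ A} => muA A i))
      (Measure.pi (muA A)) := by
    have h := (MeasureTheory.measurePreserving_piEquivPiSubtypeProd (muA A)
      (fun i => i ∈ A)).symm
    have e : (Subtype.fintype fun i => i ∈ A) = Finset.Subtype.fintype A :=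
      Subsingleton.elim _ _
    rw [e] at h
    rw [← h1]
    exact h
  have hI : Integrable (fun w : ({i // i ∈ A} → ℝ) × ({i // ¬ i ∈ A} → ℝ) =>
      |rl c' (glue A w.1 w.2)| ^ p)
      ((gam {i // i ∈ A}).prod (Measure.pi fun i : {i // ¬ i ∈ A} => muA A i)) := by
    have h2 := (hmp.integrable_comp_emb (MeasurableEquiv.measurableEmbedding _)).2
      (rl_integrable (muA_GR A) c' hp0)
    exact h2
  refine ⟨hI, ?_⟩
  haveI : IsProbabilityMeasure (gam {i // i ∈ A}) := by
    unfold gam; infer_instance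
  have h3 := hmp.integral_comp (MeasurableEquiv.measurableEmbedding _)
    (fun x => |rl c' x| ^ p)
  rw [← h3]
  exact integral_prod_symm _ hI

theorem gauss_NA (c : Finset (Fin n) → ℝ) (d : ℕ) (hd : 1 ≤ d)
    (hc : ∀ S : Finset (Fin n), d < S.card → c S = 0) {p : ℝ} (hp : 2 ≤ p) :
    ∫ x, |rl (fun S => ((S ∩ A).card : ℝ) * c S) x| ^ p ∂(Measure.pi (muA A)) ≤
      (2 * Real.exp (5 / 4) * d) ^ p * ∫ x, |rl c x| ^ p ∂(Measure.pi (muA A)) := by
  have hp0 : 0 ≤ p := by linarith
  haveI : IsProbabilityMeasure (gam {i // i ∈ A}) := by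
    unfold gam; infer_instance
  obtain ⟨hI1, h1⟩ := fib_integrable A (fun S => ((S ∩ A).card : ℝ) * c S) hp0
  obtain ⟨hI2, h2⟩ := fib_integrable A c hp0
  rw [h1, h2, ← integral_const_mul]
  refine integral_mono hI1.integral_prod_right (hI2.integral_prod_right.const_mul _) fun y => ?_
  have hG := gauss_N (fc A c y) d hd (fc_zero A c d hc y) hp
  have e1 : ∀ x : {i // i ∈ A} → ℝ,
      ‖ml (fun T => (T.card : ℂ) * fc A c y T) (fun j => ((x j : ℝ) : ℂ))‖ =
        |rl (fun S => ((S ∩ A).card : ℝ) * c S) (glue A x y)| := by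
    intro x
    have h := fc_ml A c (fun k => (k : ℝ)) x y
    simp only [Complex.ofReal_natCast] at h
    rw [h, Complex.norm_real, Real.norm_eq_abs]
  have e2 : ∀ x : {i // i ∈ A} → ℝ,
      ‖ml (fc A c y) (fun j => ((x j : ℝ) : ℂ))‖ = |rl c (glue A x y)| := by
    intro x
    have h := fc_ml A c (fun _ => (1 : ℝ)) x y
    simp only [Complex.ofReal_one, one_mul] at h
    rw [h, Complex.norm_real, Real.norm_eq_abs]
  simp_rw [e1, e2] at hG
  exact hG

end fiber

end Pool.Agent.Helper12.GM
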