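import Pool.Agent.Helper12.GM.Defs

set_option autoImplicit false

namespace Pool.Agent.Helper12.GM

open MeasureTheory ProbabilityTheory MvPolynomial
open scoped ComplexConjugate

/-- the root of unity filter -/
theorem unity_filter {d m : ℕ} (hm : d + 2 ≤ m) {ζ : ℂ} (hζ : IsPrimitiveRoot ζ m) (ρ : ℂ)
    {j : ℕ} (hj : j ≤ d) :
    ∑ k ∈ Finset.range m, (ζ ^ k) ^ (m - 1) * (1 + ρ * ζ ^ k) ^ j = m * (j * ρ) := by
  have hm0 : 0 < m := by omega
  have h1 : ∀ k ∈ Finset.range m, (ζ ^ k) ^ (m - 1) * (1 + ρ * ζ ^ k) ^ j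
      = ∑ l ∈ Finset.range (j + 1), ((j.choose l : ℂ) * ρ ^ l) * (ζ ^ (m - 1 + l)) ^ k := by
    intro k _
    rw [add_comm (1 : ℂ), add_pow, Finset.mul_sum]
    refine Finset.sum_congr rfl fun l _ => ?_
    rw [one_pow, mul_one, mul_pow, ← pow_mul, ← pow_mul, ← pow_mul]
    have : ζ ^ ((m - 1 + l) * k) = ζ ^ (k * (m - 1)) * ζ ^ (k * l) := by
      rw [← pow_add]; congr 1; ring
    rw [this]; ring
  rw [Finset.sum_congr rfl h1, Finset.sum_comm]
  have h2 : ∀ l ∈ Finset.range (j + 1),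
      ∑ k ∈ Finset.range m, ((j.choose l : ℂ) * ρ ^ l) * (ζ ^ (m - 1 + l)) ^ k
        = if l = 1 then (m : ℂ) * (j * ρ) else 0 := by
    intro l hl
    rw [Finset.mem_range] at hl
    rw [← Finset.mul_sum]
    split_ifs with h
    · subst h
      have : ζ ^ (m - 1 + 1) = 1 := by
        rw [Nat.sub_add_cancel (by omega)]; exact hζ.pow_eq_one
      simp [this]
      ring
    · have hne : ζ ^ (m - 1 + l) ≠ 1 := by
        intro h3
        have h4 := (hζ.pow_eq_one_iff_dvd _).1 h3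
        obtain ⟨c, hc⟩ := h4
        have hc1 : c = 0 ∨ c = 1 ∨ 2 ≤ c := by omega
        rcases hc1 with rfl | rfl | h5
        · simp at hc; omega
        · simp at hc; omega
        · have : m * 2 ≤ m * c := Nat.mul_le_mul_left m h5
          omega
      have hz : ∑ k ∈ Finset.range m, (ζ ^ (m - 1 + l)) ^ k = 0 := by
        rw [geom_sum_eq hne, ← pow_mul, mul_comm, pow_mul, hζ.pow_eq_one]
        simp
      rw [hz, mul_zero]
  rw [Finset.sum_congr rfl h2]
  by_cases hj0 : j = 0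
  · subst hj0
    simp
  · rw [Finset.sum_ite_eq' (Finset.range (j + 1)) 1]
    rw [if_pos (Finset.mem_range.2 (by omega))]

end Pool.Agent.Helper12.GM
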