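import Pool.Agent.Helper12.GM.RowD2
import Pool.Agent.Helper12.GM.Unity

set_option autoImplicit false

namespace Pool.Agent.Helper12.GM

open MeasureTheory ProbabilityTheory MvPolynomial
open scoped ComplexConjugate

variable {ι : Type} [Fintype ι] [DecidableEq ι]

theorem gauss_N (c : Finset ι → ℂ) (d : ℕ) (hd : 1 ≤ d)
    (hc : ∀ S : Finset ι, d < S.card → c S = 0) {p : ℝ} (hp : 2 ≤ p) :
    ∫ x, ‖ml (fun S => (S.card : ℂ) * c S) (fun j => ((x j : ℝ) : ℂ))‖ ^ p ∂(gam ι) ≤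
      (2 * Real.exp (5 / 4) * d) ^ p *
        ∫ x, ‖ml c (fun j => ((x j : ℝ) : ℂ))‖ ^ p ∂(gam ι) := by
  set m : ℕ := d + 2 with hm
  have hm0 : m ≠ 0 := by omega
  have hmR : (0 : ℝ) < m := by positivity
  have hdR : (1 : ℝ) ≤ d := by exact_mod_cast hd
  obtain ⟨ζ, hζ⟩ : ∃ ζ : ℂ, IsPrimitiveRoot ζ m := ⟨_, Complex.isPrimitiveRoot_exp m hm0⟩
  have hζn : ∀ k : ℕ, ‖ζ ^ k‖ = 1 := by
    intro k
    rw [norm_pow, hζ.norm'_eq_one hm0, one_pow]
  set ρ : ℝ := 1 / (2 * d) with hρ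
  have hρ0 : 0 < ρ := by positivity
  have hρd : ρ * d = 1 / 2 := by
    rw [hρ]; field_simp
  have hρ1 : ρ ≤ 1 / 2 := by
    nlinarith
  set ω : ℕ → ℂ := fun k => 1 + (ρ : ℂ) * ζ ^ k with hω
  -- pointwise identity
  have hpt : ∀ z : ι → ℂ, ml (fun S => (S.card : ℂ) * c S) z
      = ∑ k ∈ Finset.range m, ((m : ℂ) * ρ)⁻¹ * (ζ ^ k) ^ (m - 1) *
          ml (fun S => ω k ^ S.card * c S) z := by
    intro z
    unfold ml
    simp_rw [Finset.mul_sum]
    rw [Finset.sum_comm]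
    refine Finset.sum_congr rfl fun S _ => ?_
    by_cases hS : d < S.card
    · rw [hc S hS]; simp
    · push Not at hS
      have h := unity_filter (d := d) (m := m) le_rfl hζ (ρ : ℂ) hS
      have hρC : (ρ : ℂ) ≠ 0 := by exact_mod_cast hρ0.ne'
      have hmC : (m : ℂ) ≠ 0 := by exact_mod_cast hm0
      calc (S.card : ℂ) * c S * ∏ i ∈ S, z i
          = ((m : ℂ) * ρ)⁻¹ * (m * (S.card * ρ)) * (c S * ∏ i ∈ S, z i) := by
            field_simp
        _ = ((m : ℂ) * ρ)⁻¹ * (∑ k ∈ Finset.range m, (ζ ^ k) ^ (m - 1) *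
              (1 + ρ * ζ ^ k) ^ S.card) * (c S * ∏ i ∈ S, z i) := by rw [h]
        _ = _ := by
            rw [Finset.mul_sum, Finset.sum_mul]
            refine Finset.sum_congr rfl fun k _ => ?_
            rw [hω]
            ring
  -- pointwise bound
  have hb : ∀ z : ι → ℂ, ‖ml (fun S => (S.card : ℂ) * c S) z‖ ^ p ≤
      ρ⁻¹ ^ p * ∑ k ∈ Finset.range m, (m : ℝ)⁻¹ * ‖ml (fun S => ω k ^ S.card * c S) z‖ ^ p := by
    intro z
    have h1 : ‖ml (fun S => (S.card : ℂ) * c S) z‖ ≤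
        ρ⁻¹ * ∑ k ∈ Finset.range m, (m : ℝ)⁻¹ * ‖ml (fun S => ω k ^ S.card * c S) z‖ := by
      rw [hpt z, Finset.mul_sum]
      refine (norm_sum_le _ _).trans (Finset.sum_le_sum fun k _ => ?_)
      rw [norm_mul, norm_mul, norm_pow, hζn, one_pow, norm_inv, norm_mul, Complex.norm_natCast,
        Complex.norm_real, Real.norm_of_nonneg hρ0.le, mul_inv]
      apply le_of_eq
      ring
    have h2 : (∑ k ∈ Finset.range m, (m : ℝ)⁻¹ * ‖ml (fun S => ω k ^ S.card * c S) z‖) ^ p ≤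
        ∑ k ∈ Finset.range m, (m : ℝ)⁻¹ * ‖ml (fun S => ω k ^ S.card * c S) z‖ ^ p := by
      apply Real.rpow_arith_mean_le_arith_mean_rpow
      · intro i _; positivity
      · rw [Finset.sum_const, Finset.card_range, nsmul_eq_mul]
        field_simp
      · intro i _; positivity
      · linarith
    calc ‖ml (fun S => (S.card : ℂ) * c S) z‖ ^ p
        ≤ (ρ⁻¹ * ∑ k ∈ Finset.range m, (m : ℝ)⁻¹ *
            ‖ml (fun S => ω k ^ S.card * c S) z‖) ^ p :=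
          Real.rpow_le_rpow (norm_nonneg _) h1 (by linarith)
      _ = ρ⁻¹ ^ p * (∑ k ∈ Finset.range m, (m : ℝ)⁻¹ *
            ‖ml (fun S => ω k ^ S.card * c S) z‖) ^ p := by
          rw [Real.mul_rpow (by positivity) (Finset.sum_nonneg fun i _ => by positivity)]
      _ ≤ _ := by
          apply mul_le_mul_of_nonneg_left h2 (by positivity)
  have hint : ∀ k : ℕ, Integrable (fun x : ι → ℝ =>
      ‖ml (fun S => ω k ^ S.card * c S) (fun j => ((x j : ℝ) : ℂ))‖ ^ p) (gam ι) :=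
    fun k => ml_integrable _ p (by linarith)
  -- the multiplier constant
  have hconst : ∀ k : ℕ, (‖ω k‖ ^ 2 + ‖1 - ω k ^ 2‖) ^ (p * d / 2) ≤ Real.exp (5 / 4) ^ p := by
    intro k
    have h1 : ‖ω k‖ ≤ 1 + ρ := by
      rw [hω]
      refine (norm_add_le _ _).trans ?_
      rw [norm_mul, hζn, Complex.norm_real, Real.norm_of_nonneg hρ0.le]
      simp
    have h2 : ‖1 - ω k ^ 2‖ ≤ 2 * ρ + ρ ^ 2 := by
      have : 1 - ω k ^ 2 = -((ρ : ℂ) * ζ ^ k) * (2 + (ρ : ℂ) * ζ ^ k) := by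
        rw [hω]; ring
      rw [this, norm_mul, norm_neg, norm_mul, hζn, Complex.norm_real,
        Real.norm_of_nonneg hρ0.le]
      have h3 : ‖(2 : ℂ) + (ρ : ℂ) * ζ ^ k‖ ≤ 2 + ρ := by
        refine (norm_add_le _ _).trans ?_
        rw [norm_mul, hζn, Complex.norm_real, Real.norm_of_nonneg hρ0.le]
        simp
      nlinarith [norm_nonneg ((2 : ℂ) + (ρ : ℂ) * ζ ^ k)]
    have h3 : ‖ω k‖ ^ 2 + ‖1 - ω k ^ 2‖ ≤ Real.exp (4 * ρ + 2 * ρ ^ 2) := by
      have h4 : ‖ω k‖ ^ 2 ≤ (1 + ρ) ^ 2 := by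
        apply pow_le_pow_left₀ (norm_nonneg _) h1
      have h5 := Real.add_one_le_exp (4 * ρ + 2 * ρ ^ 2)
      nlinarith
    calc (‖ω k‖ ^ 2 + ‖1 - ω k ^ 2‖) ^ (p * d / 2)
        ≤ Real.exp (4 * ρ + 2 * ρ ^ 2) ^ (p * d / 2) :=
          Real.rpow_le_rpow (by positivity) h3 (by positivity)
      _ = Real.exp ((4 * ρ + 2 * ρ ^ 2) * (p * d / 2)) := by rw [Real.exp_mul]
      _ ≤ Real.exp (5 / 4 * p) := by
          apply Real.exp_le_exp.2
          have h6 : (4 * ρ + 2 * ρ ^ 2) * (p * d / 2) = (2 * (ρ * d) + ρ * (ρ * d)) * p := by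
            ring
          rw [h6, hρd]
          nlinarith
      _ = Real.exp (5 / 4) ^ p := by rw [Real.exp_mul]
  have hJ0 : 0 ≤ ∫ x, ‖ml c (fun j => ((x j : ℝ) : ℂ))‖ ^ p ∂(gam ι) :=
    integral_nonneg fun x => by positivity
  calc ∫ x, ‖ml (fun S => (S.card : ℂ) * c S) (fun j => ((x j : ℝ) : ℂ))‖ ^ p ∂(gam ι)
      ≤ ∫ x, ρ⁻¹ ^ p * ∑ k ∈ Finset.range m, (m : ℝ)⁻¹ *
          ‖ml (fun S => ω k ^ S.card * c S) (fun j => ((x j : ℝ) : ℂ))‖ ^ p ∂(gam ι) := by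
        refine integral_mono (ml_integrable _ p (by linarith)) ?_ fun x => hb _
        exact (integrable_finsetSum _ fun k _ => (hint k).const_mul _).const_mul _
    _ = ρ⁻¹ ^ p * ∑ k ∈ Finset.range m, (m : ℝ)⁻¹ *
          ∫ x, ‖ml (fun S => ω k ^ S.card * c S) (fun j => ((x j : ℝ) : ℂ))‖ ^ p ∂(gam ι) := by
        rw [integral_const_mul, integral_finsetSum _ fun k _ => (hint k).const_mul _]
        simp_rw [integral_const_mul]
    _ ≤ ρ⁻¹ ^ p * ∑ k ∈ Finset.range m, (m : ℝ)⁻¹ * (Real.exp (5 / 4) ^ p *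
          ∫ x, ‖ml c (fun j => ((x j : ℝ) : ℂ))‖ ^ p ∂(gam ι)) := by
        apply mul_le_mul_of_nonneg_left _ (by positivity)
        refine Finset.sum_le_sum fun k _ => ?_
        apply mul_le_mul_of_nonneg_left _ (by positivity)
        exact (T_omega c d hc hp (ω k)).trans (mul_le_mul_of_nonneg_right (hconst k) hJ0)
    _ = (2 * Real.exp (5 / 4) * d) ^ p *
        ∫ x, ‖ml c (fun j => ((x j : ℝ) : ℂ))‖ ^ p ∂(gam ι) := by
        rw [Finset.sum_const, Finset.card_range, nsmul_eq_mul]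
        have h7 : ρ⁻¹ = 2 * d := by rw [hρ]; simp
        rw [h7, show 2 * Real.exp (5 / 4) * (d : ℝ) = (2 * d) * Real.exp (5 / 4) by ring,
          Real.mul_rpow (x := 2 * (d : ℝ)) (by positivity) (by positivity)]
        field_simp

end Pool.Agent.Helper12.GM
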