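import Pool.Agent.Helper12.GM.Defs

/-! # Gauss-Markov project, row A: product Gaussian, integrability and Stein's identity -/

set_option autoImplicit false

namespace Pool.Agent.Helper12.GM

open MeasureTheory ProbabilityTheory MvPolynomial
open scoped ComplexConjugate

section

variable {ι : Type} [Fintype ι] [DecidableEq ι]

omit [DecidableEq ι] in
instance gam_prob : IsProbabilityMeasure (gam ι) := by
  unfold gam
  infer_instance

omit [DecidableEq ι] in
instance gam2_prob : IsProbabilityMeasure (gam2 ι) := by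
  unfold gam2
  infer_instance

theorem rowA_integrable_exp_abs (c : ℝ) :
    Integrable (fun t : ℝ => Real.exp (c * |t|)) (gaussianReal 0 1) :=
  integrable_exp_mul_abs (X := fun t => t) (integrable_exp_mul_gaussianReal c)
    (integrable_exp_mul_gaussianReal (-c))

omit [DecidableEq ι] in
theorem integrable_exp_gam (c : ℝ) :
    Integrable (fun x : ι → ℝ => Real.exp (c * ∑ i, |x i|)) (gam ι) := by
  have h := Integrable.fintype_prod (ι := ι) (f := fun _ t => Real.exp (c * |t|))
    (μ := fun _ => gaussianReal 0 1) (fun _ => rowA_integrable_exp_abs c)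
  refine Integrable.congr h ?_
  filter_upwards with x
  rw [Finset.mul_sum, Real.exp_sum]

omit [DecidableEq ι] in
theorem integrable_exp_gam2 (c : ℝ) :
    Integrable (fun w : (ι → ℝ) × (ι → ℝ) => Real.exp (c * ∑ i, (|w.1 i| + |w.2 i|)))
      (gam2 ι) := by
  have h := (integrable_exp_gam (ι := ι) c).mul_prod (integrable_exp_gam (ι := ι) c)
  refine Integrable.congr h ?_
  filter_upwards with w
  rw [Finset.sum_add_distrib, mul_add, Real.exp_add]

theorem rowA_mp_update (j : ι) :
    MeasurePreserving (fun q : (ι → ℝ) × ℝ => Function.update q.1 j q.2)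
      ((gam ι).prod (gaussianReal 0 1)) (gam ι) := by
  have hm : Measurable (fun q : (ι → ℝ) × ℝ => Function.update q.1 j q.2) := by
    refine measurable_pi_lambda _ (fun i => ?_)
    by_cases h : i = j
    · subst h
      simpa using measurable_snd
    · simp only [Function.update, h, dite_false]
      exact (measurable_pi_apply i).comp measurable_fst
  refine ⟨hm, ?_⟩
  symm
  unfold gam
  refine Measure.pi_eq (fun s hs => ?_)
  rw [Measure.map_apply hm (MeasurableSet.univ_pi hs)]
  have hpre : (fun q : (ι → ℝ) × ℝ => Function.update q.1 j q.2) ⁻¹' (Set.univ.pi s) =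
      (Set.univ.pi (Function.update s j Set.univ)) ×ˢ (s j) := by
    ext q
    simp only [Set.mem_preimage, Set.mem_pi, Set.mem_univ, true_implies, Set.mem_prod]
    constructor
    · intro h
      refine ⟨fun i => ?_, ?_⟩
      · by_cases hi : i = j
        · subst hi
          simp
        · have := h i
          simpa [Function.update, hi] using this
      · simpa using h j
    · rintro ⟨h1, h2⟩ i
      by_cases hi : i = j
      · subst hi
        simpa using h2
      · have := h1 i
        simpa [Function.update, hi] using this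
  rw [hpre, Measure.prod_prod, Measure.pi_pi]
  rw [← Finset.mul_prod_erase Finset.univ _ (Finset.mem_univ j),
    ← Finset.mul_prod_erase Finset.univ (fun i => gaussianReal 0 1 (s i)) (Finset.mem_univ j)]
  simp only [Function.update_self, measure_univ, one_mul]
  rw [mul_comm]
  congr 1
  refine Finset.prod_congr rfl (fun i hi => ?_)
  rw [Function.update_of_ne (Finset.ne_of_mem_erase hi)]

theorem rowA_integrable_pdf (F : ℝ → ℂ) (hF : Continuous F) (C c : ℝ)
    (hb : ∀ t, ‖F t‖ ≤ C * Real.exp (c * |t|)) :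
    Integrable (fun t => (gaussianPDFReal 0 1 t : ℂ) * F t) volume := by
  have h1 : Integrable F (gaussianReal 0 1) := by
    refine Integrable.mono' ((rowA_integrable_exp_abs c).const_mul C)
      hF.aestronglyMeasurable ?_
    filter_upwards with t
    exact hb t
  rw [gaussianReal_of_var_ne_zero _ one_ne_zero,
    integrable_withDensity_iff_integrable_smul' (measurable_gaussianPDF _ _)
      (ae_of_all _ fun _ ↦ gaussianPDF_lt_top)] at h1
  refine h1.congr ?_
  filter_upwards with t
  simp [toReal_gaussianPDF]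

theorem rowA_stein_one (g g' : ℝ → ℂ) (hg : ∀ t, HasDerivAt g (g' t) t) (hc' : Continuous g')
    (C c : ℝ) (hb : ∀ t, ‖g t‖ ≤ C * Real.exp (c * |t|))
    (hb' : ∀ t, ‖g' t‖ ≤ C * Real.exp (c * |t|)) :
    ∫ t, (t : ℂ) * g t ∂(gaussianReal 0 1) = ∫ t, g' t ∂(gaussianReal 0 1) := by
  have hC : 0 ≤ C := by
    have := (norm_nonneg _).trans (hb 0)
    simpa using this
  have hgc : Continuous g := continuous_iff_continuousAt.2 fun t => (hg t).continuousAt
  rw [integral_gaussianReal_eq_integral_smul one_ne_zero,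
    integral_gaussianReal_eq_integral_smul one_ne_zero]
  have hpdf : ∀ t : ℝ, HasDerivAt (fun t : ℝ => (gaussianPDFReal 0 1 t : ℂ))
      (-((t : ℂ) * (gaussianPDFReal 0 1 t : ℂ))) t := by
    intro t
    have h1 : HasDerivAt (fun t : ℝ => gaussianPDFReal 0 1 t) (-(t * gaussianPDFReal 0 1 t)) t := by
      unfold gaussianPDFReal
      have h2 : HasDerivAt (fun t : ℝ => -(t - 0) ^ 2 / (2 * ((1 : NNReal) : ℝ))) (-t) t := by
        have h3 : HasDerivAt (fun t : ℝ => -(t - 0) ^ 2 / (2 * ((1 : NNReal) : ℝ)))
            (-((2 : ℕ) * (t - 0) ^ (2 - 1) * 1) / (2 * ((1 : NNReal) : ℝ))) t :=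
          ((((hasDerivAt_id' t).sub_const 0).pow 2).neg).div_const _
        convert h3 using 1
        simp
        ring
      have h4 := (h2.exp).const_mul (√(2 * Real.pi * ((1 : NNReal) : ℝ)))⁻¹
      exact h4.congr_deriv (by ring)
    have h5 := h1.ofReal_comp
    exact h5.congr_deriv (by push_cast; rfl)
  have key := integral_mul_deriv_eq_deriv_mul_of_integrable (u := g) (u' := g')
    (v := fun t : ℝ => (gaussianPDFReal 0 1 t : ℂ))
    (v' := fun t : ℝ => -((t : ℂ) * (gaussianPDFReal 0 1 t : ℂ)))
    (fun t _ => hg t) (fun t _ => hpdf t) ?_ ?_ ?_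
  · have e1 : ∫ t : ℝ, gaussianPDFReal 0 1 t • ((t : ℂ) * g t) =
        - ∫ t : ℝ, g t * -((t : ℂ) * (gaussianPDFReal 0 1 t : ℂ)) := by
      rw [← integral_neg]
      refine integral_congr_ae ?_
      filter_upwards with t
      rw [Complex.real_smul]
      ring
    rw [e1, key, neg_neg]
    refine integral_congr_ae ?_
    filter_upwards with t
    rw [Complex.real_smul]
    ring
  · have h := rowA_integrable_pdf (fun t => -((t : ℂ) * g t)) (by fun_prop) C (c + 1) ?_
    · refine h.congr ?_
      filter_upwards with t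
      simp only [Pi.mul_apply]
      ring
    · intro t
      rw [norm_neg, norm_mul, Complex.norm_real, Real.norm_eq_abs]
      have h1 : |t| ≤ Real.exp |t| := by
        have := Real.add_one_le_exp |t|
        linarith
      calc |t| * ‖g t‖ ≤ Real.exp |t| * (C * Real.exp (c * |t|)) :=
            mul_le_mul h1 (hb t) (norm_nonneg _) (Real.exp_pos _).le
        _ = C * Real.exp ((c + 1) * |t|) := by
            rw [add_mul, one_mul, Real.exp_add]
            ring
  · have h := rowA_integrable_pdf g' hc' C c hb'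
    refine h.congr ?_
    filter_upwards with t
    simp only [Pi.mul_apply]
    ring
  · have h := rowA_integrable_pdf g hgc C c hb
    refine h.congr ?_
    filter_upwards with t
    simp only [Pi.mul_apply]
    ring

omit [DecidableEq ι] in
theorem rowA_abs_le_exp (j : ι) (w : (ι → ℝ) × (ι → ℝ)) :
    |w.1 j| ≤ Real.exp (∑ i, (|w.1 i| + |w.2 i|)) := by
  have h1 : |w.1 j| ≤ ∑ i, (|w.1 i| + |w.2 i|) := by
    have := Finset.single_le_sum (f := fun i => |w.1 i| + |w.2 i|) (s := Finset.univ)
      (fun i _ => by positivity) (Finset.mem_univ j)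
    have h2 : 0 ≤ |w.2 j| := abs_nonneg _
    linarith
  have h3 := Real.add_one_le_exp (∑ i, (|w.1 i| + |w.2 i|))
  linarith

theorem rowA_sum_update (j : ι) (x y : ι → ℝ) (t : ℝ) :
    ∑ i, (|Function.update x j t i| + |y i|) =
      |t| + (∑ i ∈ Finset.univ.erase j, |x i| + ∑ i, |y i|) := by
  rw [Finset.sum_add_distrib, ← Finset.add_sum_erase Finset.univ _ (Finset.mem_univ j)]
  simp only [Function.update_self]
  rw [add_assoc]
  congr 2
  refine Finset.sum_congr rfl (fun i hi => ?_)
  rw [Function.update_of_ne (Finset.ne_of_mem_erase hi)]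

theorem stein_fst (j : ι) (H H' : (ι → ℝ) × (ι → ℝ) → ℂ)
    (hd : ∀ (x y : ι → ℝ) (t : ℝ), HasDerivAt (fun t => H (Function.update x j t, y))
      (H' (Function.update x j t, y)) t)
    (hc : Continuous H) (hc' : Continuous H') (C c : ℝ)
    (hb : ∀ w, ‖H w‖ ≤ C * Real.exp (c * ∑ i, (|w.1 i| + |w.2 i|)))
    (hb' : ∀ w, ‖H' w‖ ≤ C * Real.exp (c * ∑ i, (|w.1 i| + |w.2 i|))) :
    ∫ w, (w.1 j : ℂ) * H w ∂(gam2 ι) = ∫ w, H' w ∂(gam2 ι) := by
  have hC : 0 ≤ C := by
    have := (norm_nonneg _).trans (hb 0)
    simpa using this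
  have hbm : ∀ w : (ι → ℝ) × (ι → ℝ), ‖(w.1 j : ℂ) * H w‖ ≤
      C * Real.exp ((c + 1) * ∑ i, (|w.1 i| + |w.2 i|)) := by
    intro w
    rw [norm_mul, Complex.norm_real, Real.norm_eq_abs]
    calc |w.1 j| * ‖H w‖ ≤ Real.exp (∑ i, (|w.1 i| + |w.2 i|)) *
          (C * Real.exp (c * ∑ i, (|w.1 i| + |w.2 i|))) :=
          mul_le_mul (rowA_abs_le_exp j w) (hb w) (norm_nonneg _) (Real.exp_pos _).le
      _ = C * Real.exp ((c + 1) * ∑ i, (|w.1 i| + |w.2 i|)) := by
          rw [add_mul, one_mul, Real.exp_add]
          ring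
  have hcm : Continuous (fun w : (ι → ℝ) × (ι → ℝ) => (w.1 j : ℂ) * H w) := by
    fun_prop
  have hi1 : Integrable (fun w : (ι → ℝ) × (ι → ℝ) => (w.1 j : ℂ) * H w) (gam2 ι) := by
    refine Integrable.mono' ((integrable_exp_gam2 (c + 1)).const_mul C)
      hcm.aestronglyMeasurable ?_
    filter_upwards with w
    exact hbm w
  have hi2 : Integrable H' (gam2 ι) := by
    refine Integrable.mono' ((integrable_exp_gam2 c).const_mul C)
      hc'.aestronglyMeasurable ?_
    filter_upwards with w
    exact hb' w
  unfold gam2 at hi1 hi2 ⊢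
  rw [integral_prod_symm _ hi1, integral_prod_symm _ hi2]
  refine integral_congr_ae ?_
  filter_upwards with y
  -- slice integrability
  have hS : ∀ (F : (ι → ℝ) × (ι → ℝ) → ℂ) (a : ℝ), Continuous F →
      (∀ w, ‖F w‖ ≤ C * Real.exp (a * ∑ i, (|w.1 i| + |w.2 i|))) →
      ∫ x, F (x, y) ∂(gam ι) =
        ∫ x, ∫ t, F (Function.update x j t, y) ∂(gaussianReal 0 1) ∂(gam ι) := by
    intro F a hF hFb
    have hFi : Integrable (fun x => F (x, y)) (gam ι) := by
      have h0 := ((integrable_exp_gam (ι := ι) a).const_mul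
        (C * Real.exp (a * ∑ i, |y i|)))
      refine Integrable.mono' h0 (by fun_prop) ?_
      filter_upwards with x
      refine (hFb (x, y)).trans (le_of_eq ?_)
      simp only
      rw [Finset.sum_add_distrib, mul_add, Real.exp_add]
      ring
    have hmp := rowA_mp_update (ι := ι) j
    have hFi' : Integrable (fun q : (ι → ℝ) × ℝ => F (Function.update q.1 j q.2, y))
        ((gam ι).prod (gaussianReal 0 1)) :=
      hmp.integrable_comp_of_integrable hFi
    rw [← integral_prod _ hFi']
    have hm := integral_map (μ := (gam ι).prod (gaussianReal 0 1)) hmp.measurable.aemeasurable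
      (f := fun x => F (x, y)) (by fun_prop)
    rw [hmp.map_eq] at hm
    exact hm
  rw [hS (fun w => (w.1 j : ℂ) * H w) (c + 1) hcm hbm, hS H' c hc' hb']
  refine integral_congr_ae ?_
  filter_upwards with x
  simp only [Function.update_self]
  refine rowA_stein_one (fun t => H (Function.update x j t, y))
    (fun t => H' (Function.update x j t, y)) (hd x y) ?_
    (C * Real.exp (c * (∑ i ∈ Finset.univ.erase j, |x i| + ∑ i, |y i|))) c ?_ ?_
  · refine hc'.comp ?_
    refine Continuous.prodMk ?_ continuous_const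
    exact continuous_const.update j continuous_id
  · intro t
    refine (hb _).trans (le_of_eq ?_)
    simp only
    rw [rowA_sum_update, mul_add, Real.exp_add]
    ring
  · intro t
    refine (hb' _).trans (le_of_eq ?_)
    simp only
    rw [rowA_sum_update, mul_add, Real.exp_add]
    ring

theorem stein_snd (j : ι) (H H' : (ι → ℝ) × (ι → ℝ) → ℂ)
    (hd : ∀ (x y : ι → ℝ) (t : ℝ), HasDerivAt (fun t => H (x, Function.update y j t))
      (H' (x, Function.update y j t)) t)
    (hc : Continuous H) (hc' : Continuous H') (C c : ℝ)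
    (hb : ∀ w, ‖H w‖ ≤ C * Real.exp (c * ∑ i, (|w.1 i| + |w.2 i|)))
    (hb' : ∀ w, ‖H' w‖ ≤ C * Real.exp (c * ∑ i, (|w.1 i| + |w.2 i|))) :
    ∫ w, (w.2 j : ℂ) * H w ∂(gam2 ι) = ∫ w, H' w ∂(gam2 ι) := by
  have hsw : ∀ F : (ι → ℝ) × (ι → ℝ) → ℂ,
      ∫ w, F w.swap ∂(gam2 ι) = ∫ w, F w ∂(gam2 ι) := by
    intro F
    unfold gam2
    exact integral_prod_swap F
  have h := stein_fst j (fun w => H w.swap) (fun w => H' w.swap) (fun x y t => hd y x t)
    (hc.comp continuous_swap) (hc'.comp continuous_swap) C c ?_ ?_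
  · rw [← hsw (fun w => (w.2 j : ℂ) * H w), ← hsw H']
    exact h
  · intro w
    refine (hb w.swap).trans (le_of_eq ?_)
    simp only [Prod.fst_swap, Prod.snd_swap]
    congr 3
    refine Finset.sum_congr rfl (fun i _ => add_comm _ _)
  · intro w
    refine (hb' w.swap).trans (le_of_eq ?_)
    simp only [Prod.fst_swap, Prod.snd_swap]
    congr 3
    refine Finset.sum_congr rfl (fun i _ => add_comm _ _)

end

end Pool.Agent.Helper12.GM
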