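import Pool.Agent.Helper12.GM.Defs

/-! # Gauss-Markov project, row B: the class `el`

* `el_hasDerivAt` : derivatives along curves;
* `el_continuous`, `el_growth` : continuity and growth;
* `zz_norm_le`, `zz_continuous` : the vectors `cosh η x + i sinh η y`. -/

set_option autoImplicit false
set_option linter.unusedSectionVars false

namespace Pool.Agent.Helper12.GM

open MeasureTheory ProbabilityTheory MvPolynomial
open scoped ComplexConjugate

section

variable {ι : Type} [Fintype ι] [DecidableEq ι]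

/-- the derivative of a polynomial along a curve -/
theorem eval_hasDerivAt (p : MvPolynomial ι ℂ) (z : ℝ → ι → ℂ) (z' : ι → ℂ) (τ : ℝ)
    (hz : ∀ j, HasDerivAt (fun τ => z τ j) (z' j) τ) :
    HasDerivAt (fun τ => eval (z τ) p) (∑ j, z' j * eval (z τ) (pderiv j p)) τ := by
  induction p using MvPolynomial.induction_on with
  | C a =>
    simp only [eval_C, pderiv_C, map_zero, mul_zero, Finset.sum_const_zero]
    exact hasDerivAt_const τ a
  | add p q hp hq =>
    have h := hp.add hq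
    simp only [map_add, mul_add, Finset.sum_add_distrib]
    exact h
  | mul_X p i hp =>
    have h := hp.mul (hz i)
    simp only [map_mul, eval_X, Derivation.leibniz, pderiv_X, smul_eq_mul, map_add, mul_add,
      Finset.sum_add_distrib]
    have h1 : ∑ j, z' j * (eval (z τ) p * eval (z τ) (Pi.single (M := fun _ => MvPolynomial ι ℂ) j 1 i)) =
        eval (z τ) p * z' i := by
      rw [Finset.sum_eq_single i]
      · rw [Pi.single_eq_same, map_one]
        ring
      · intro j _ hj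
        rw [Pi.single_eq_of_ne hj.symm, map_zero, mul_zero, mul_zero]
      · intro hi
        exact absurd (Finset.mem_univ i) hi
    rw [h1]
    have h2 : ∑ j, z' j * (z τ i * eval (z τ) (pderiv j p)) =
        (∑ j, z' j * eval (z τ) (pderiv j p)) * z τ i := by
      rw [Finset.sum_mul]
      exact Finset.sum_congr rfl fun j _ => by ring
    rw [h2, add_comm]
    exact h

theorem sf_pos (f : MvPolynomial ι ℂ) {ε : ℝ} (hε : 0 < ε) (z : ι → ℂ) : 0 < sf f ε z := by
  unfold sf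
  positivity

theorem sf_complex (f : MvPolynomial ι ℂ) (ε : ℝ) (z : ι → ℂ) :
    ((sf f ε z : ℝ) : ℂ) = eval z f * conj (eval z f) + ε := by
  unfold sf
  rw [Complex.mul_conj, Complex.normSq_eq_norm_sq]
  push_cast
  rfl

/-- the derivative of `|f|^2 + ε` along a curve -/
theorem sf_hasDerivAt (f : MvPolynomial ι ℂ) (ε : ℝ) (z : ℝ → ι → ℂ) (z' : ι → ℂ) (τ : ℝ)
    (hz : ∀ j, HasDerivAt (fun τ => z τ j) (z' j) τ) :
    ∃ s' : ℝ, HasDerivAt (fun τ => sf f ε (z τ)) s' τ ∧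
      (s' : ℂ) = (∑ j, z' j * eval (z τ) (pderiv j f)) * conj (eval (z τ) f) +
        eval (z τ) f * conj (∑ j, z' j * eval (z τ) (pderiv j f)) := by
  have h := (eval_hasDerivAt f z z' τ hz).norm_sq
  refine ⟨_, h.add_const ε, ?_⟩
  set A := eval (z τ) f
  set B := ∑ j, z' j * eval (z τ) (pderiv j f)
  rw [Complex.inner]
  apply Complex.ext
  · simp
    ring
  · simp
    ring

theorem el_hasDerivAt (f : MvPolynomial ι ℂ) {ε : ℝ} (hε : 0 < ε) (u v : MvPolynomial ι ℂ)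
    (a : ℝ) (z : ℝ → ι → ℂ) (z' : ι → ℂ) (τ : ℝ)
    (hz : ∀ j, HasDerivAt (fun τ => z τ j) (z' j) τ) :
    HasDerivAt (fun τ => el f ε u v a (z τ))
      (∑ j, (z' j * elD f ε j u v a (z τ) + conj (z' j) * elB f ε j u v a (z τ))) τ := by
  have hu := eval_hasDerivAt u z z' τ hz
  have hv := eval_hasDerivAt v z z' τ hz
  obtain ⟨s', hs, hs'⟩ := sf_hasDerivAt f ε z z' τ hz
  have hsa := (hs.rpow_const (p := a) (Or.inl (sf_pos f hε _).ne')).ofReal_comp
  have h := (hu.mul hv.star).mul hsa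
  unfold el
  refine h.congr_deriv ?_
  have e1 : ∀ x : ℂ, star x = conj x := fun x => rfl
  have e2 : ((s' * a * sf f ε (z τ) ^ (a - 1) : ℝ) : ℂ) =
      (s' : ℂ) * (a : ℂ) * ((sf f ε (z τ) ^ (a - 1) : ℝ) : ℂ) := by push_cast; rfl
  rw [e2, hs', e1]
  simp only [map_sum, map_mul, Finset.mul_sum, Finset.sum_mul, ← Finset.sum_add_distrib, e1, Pi.mul_apply]
  refine Finset.sum_congr rfl fun j _ => ?_
  unfold elD elB el
  simp only [map_mul]
  ring

theorem el_continuous (f : MvPolynomial ι ℂ) {ε : ℝ} (hε : 0 < ε) (u v : MvPolynomial ι ℂ)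
    (a : ℝ) : Continuous (el f ε u v a) := by
  have h1 : ∀ p : MvPolynomial ι ℂ, Continuous fun z : ι → ℂ => eval z p := fun p =>
    MvPolynomial.continuous_eval p
  have h2 : Continuous (sf f ε) := by
    unfold sf
    exact ((h1 f).norm.pow 2).add continuous_const
  have h3 : Continuous fun z => sf f ε z ^ a := h2.rpow_const fun z => Or.inl (sf_pos f hε z).ne'
  unfold el
  exact ((h1 u).mul (Complex.continuous_conj.comp (h1 v))).mul (Complex.continuous_ofReal.comp h3)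

/-- polynomials grow slower than every exponential function -/
theorem eval_growth (p : MvPolynomial ι ℂ) : ∀ δ : ℝ, 0 < δ →
    ∃ C : ℝ, 0 ≤ C ∧ ∀ z : ι → ℂ, ‖eval z p‖ ≤ C * Real.exp (δ * ∑ j, ‖z j‖) := by
  induction p using MvPolynomial.induction_on with
  | C a =>
    intro δ hδ
    refine ⟨‖a‖, norm_nonneg _, fun z => ?_⟩
    rw [eval_C]
    have h : 0 ≤ δ * ∑ j, ‖z j‖ := mul_nonneg hδ.le (Finset.sum_nonneg fun j _ => norm_nonneg _)
    exact le_mul_of_one_le_right (norm_nonneg _) (Real.one_le_exp h)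
  | add p q hp hq =>
    intro δ hδ
    obtain ⟨C, hC, h1⟩ := hp δ hδ
    obtain ⟨D, hD, h2⟩ := hq δ hδ
    refine ⟨C + D, add_nonneg hC hD, fun z => ?_⟩
    rw [map_add, add_mul]
    exact (norm_add_le _ _).trans (add_le_add (h1 z) (h2 z))
  | mul_X p i hp =>
    intro δ hδ
    obtain ⟨C, hC, h1⟩ := hp (δ / 2) (half_pos hδ)
    refine ⟨C * (2 / δ), by positivity, fun z => ?_⟩
    rw [map_mul, eval_X, norm_mul]
    have h2 : ‖z i‖ ≤ (2 / δ) * Real.exp (δ / 2 * ∑ j, ‖z j‖) := by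
      have h3 : ‖z i‖ ≤ ∑ j, ‖z j‖ :=
        Finset.single_le_sum (f := fun j => ‖z j‖) (fun j _ => norm_nonneg _) (Finset.mem_univ i)
      have h4 : δ / 2 * ∑ j, ‖z j‖ ≤ Real.exp (δ / 2 * ∑ j, ‖z j‖) :=
        (le_add_of_nonneg_right zero_le_one).trans (Real.add_one_le_exp _)
      calc ‖z i‖ ≤ ∑ j, ‖z j‖ := h3
        _ = (2 / δ) * (δ / 2 * ∑ j, ‖z j‖) := by field_simp
        _ ≤ _ := mul_le_mul_of_nonneg_left h4 (by positivity)
    calc ‖eval z p‖ * ‖z i‖ ≤ (C * Real.exp (δ / 2 * ∑ j, ‖z j‖)) * ((2 / δ) * Real.exp (δ / 2 * ∑ j, ‖z j‖)) :=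
          mul_le_mul (h1 z) h2 (norm_nonneg _) (by positivity)
      _ = C * (2 / δ) * (Real.exp (δ / 2 * ∑ j, ‖z j‖) * Real.exp (δ / 2 * ∑ j, ‖z j‖)) := by ring
      _ = C * (2 / δ) * Real.exp (δ * ∑ j, ‖z j‖) := by
          rw [← Real.exp_add]
          congr 2
          ring

/-- growth of the powers of `|f|^2 + ε` -/
theorem sf_rpow_growth (f : MvPolynomial ι ℂ) {ε : ℝ} (hε : 0 < ε) (a : ℝ) :
    ∃ C : ℝ, 0 ≤ C ∧ ∀ z, sf f ε z ^ a ≤ C * Real.exp (1 / 2 * ∑ j, ‖z j‖) := by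
  rcases le_or_gt a 0 with ha | ha
  · refine ⟨ε ^ a, by positivity, fun z => ?_⟩
    have h1 : ε ≤ sf f ε z := by
      unfold sf
      exact le_add_of_nonneg_left (by positivity)
    have h2 : sf f ε z ^ a ≤ ε ^ a := Real.rpow_le_rpow_of_nonpos hε h1 ha
    have h3 : 0 ≤ 1 / 2 * ∑ j, ‖z j‖ := mul_nonneg (by norm_num) (Finset.sum_nonneg fun j _ => norm_nonneg _)
    exact h2.trans (le_mul_of_one_le_right (by positivity) (Real.one_le_exp h3))
  · obtain ⟨C, hC, h1⟩ := eval_growth f (1 / (4 * a)) (by positivity)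
    refine ⟨(C ^ 2 + ε) ^ a, by positivity, fun z => ?_⟩
    have h0 : 0 ≤ ∑ j, ‖z j‖ := Finset.sum_nonneg fun j _ => norm_nonneg _
    have h2 : sf f ε z ≤ (C ^ 2 + ε) * Real.exp (1 / (2 * a) * ∑ j, ‖z j‖) := by
      unfold sf
      have h3 : ‖eval z f‖ ^ 2 ≤ C ^ 2 * Real.exp (1 / (2 * a) * ∑ j, ‖z j‖) := by
        calc ‖eval z f‖ ^ 2 ≤ (C * Real.exp (1 / (4 * a) * ∑ j, ‖z j‖)) ^ 2 :=
              pow_le_pow_left₀ (norm_nonneg _) (h1 z) 2
          _ = C ^ 2 * (Real.exp (1 / (4 * a) * ∑ j, ‖z j‖) * Real.exp (1 / (4 * a) * ∑ j, ‖z j‖)) := by ring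
          _ = _ := by
              rw [← Real.exp_add]
              congr 2
              field_simp
              ring
      have h4 : ε ≤ ε * Real.exp (1 / (2 * a) * ∑ j, ‖z j‖) :=
        le_mul_of_one_le_right hε.le (Real.one_le_exp (by positivity))
      linarith
    calc sf f ε z ^ a ≤ ((C ^ 2 + ε) * Real.exp (1 / (2 * a) * ∑ j, ‖z j‖)) ^ a :=
          Real.rpow_le_rpow (sf_pos f hε z).le h2 ha.le
      _ = (C ^ 2 + ε) ^ a * Real.exp (1 / 2 * ∑ j, ‖z j‖) := by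
          rw [Real.mul_rpow (by positivity) (Real.exp_pos _).le, ← Real.exp_mul]
          congr 2
          field_simp

theorem el_growth (f : MvPolynomial ι ℂ) {ε : ℝ} (hε : 0 < ε) (u v : MvPolynomial ι ℂ)
    (a : ℝ) : ∃ C : ℝ, 0 ≤ C ∧ ∀ z, ‖el f ε u v a z‖ ≤ C * Real.exp (∑ j, ‖z j‖) := by
  obtain ⟨C, hC, h1⟩ := eval_growth u (1 / 4) (by norm_num)
  obtain ⟨D, hD, h2⟩ := eval_growth v (1 / 4) (by norm_num)
  obtain ⟨K, hK, h3⟩ := sf_rpow_growth f hε a
  refine ⟨C * D * K, by positivity, fun z => ?_⟩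
  have h4 : 0 ≤ sf f ε z ^ a := Real.rpow_nonneg (sf_pos f hε z).le a
  unfold el
  rw [norm_mul, norm_mul, RCLike.norm_conj, Complex.norm_real, Real.norm_of_nonneg h4]
  calc ‖eval z u‖ * ‖eval z v‖ * sf f ε z ^ a
      ≤ (C * Real.exp (1 / 4 * ∑ j, ‖z j‖)) * (D * Real.exp (1 / 4 * ∑ j, ‖z j‖)) *
        (K * Real.exp (1 / 2 * ∑ j, ‖z j‖)) :=
        mul_le_mul (mul_le_mul (h1 z) (h2 z) (norm_nonneg _) (by positivity)) (h3 z) h4 (by positivity)
    _ = C * D * K * (Real.exp (1 / 4 * ∑ j, ‖z j‖) * Real.exp (1 / 4 * ∑ j, ‖z j‖) *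
        Real.exp (1 / 2 * ∑ j, ‖z j‖)) := by ring
    _ = _ := by
        rw [← Real.exp_add, ← Real.exp_add]
        congr 2
        ring

omit [DecidableEq ι] in
theorem zz_norm_le (η M : ℝ) (h : |η| ≤ M) (w : (ι → ℝ) × (ι → ℝ)) :
    ∑ j, ‖zz η w j‖ ≤ Real.cosh M * ∑ j, (|w.1 j| + |w.2 j|) := by
  rw [Finset.mul_sum]
  refine Finset.sum_le_sum fun j _ => ?_
  have h1 : Real.cosh η ≤ Real.cosh M := Real.cosh_le_cosh.2 (h.trans (le_abs_self M))
  have h2 : |Real.sinh η| ≤ Real.cosh M := by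
    refine le_trans ?_ h1
    rw [abs_le]
    constructor
    · have := Real.cosh_add_sinh η
      have := Real.exp_pos η
      linarith
    · exact (Real.sinh_lt_cosh η).le
  have h3 : 0 ≤ Real.cosh η := (Real.cosh_pos η).le
  unfold zz
  calc ‖(Real.cosh η : ℂ) * (w.1 j : ℂ) + (Real.sinh η : ℂ) * (w.2 j : ℂ) * Complex.I‖
      ≤ ‖(Real.cosh η : ℂ) * (w.1 j : ℂ)‖ + ‖(Real.sinh η : ℂ) * (w.2 j : ℂ) * Complex.I‖ := norm_add_le _ _
    _ = Real.cosh η * |w.1 j| + |Real.sinh η| * |w.2 j| := by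
        rw [norm_mul, norm_mul, norm_mul, Complex.norm_I, mul_one, Complex.norm_real, Complex.norm_real,
          Complex.norm_real, Complex.norm_real, Real.norm_of_nonneg h3, Real.norm_eq_abs, Real.norm_eq_abs,
          Real.norm_eq_abs]
    _ ≤ Real.cosh M * |w.1 j| + Real.cosh M * |w.2 j| :=
        add_le_add (mul_le_mul_of_nonneg_right h1 (abs_nonneg _)) (mul_le_mul_of_nonneg_right h2 (abs_nonneg _))
    _ = Real.cosh M * (|w.1 j| + |w.2 j|) := by ring

omit [Fintype ι] [DecidableEq ι] in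
theorem zz_continuous : Continuous (fun q : ℝ × ((ι → ℝ) × (ι → ℝ)) => zz q.1 q.2) := by
  unfold zz
  refine continuous_pi fun j => ?_
  fun_prop

end

end Pool.Agent.Helper12.GM
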