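import Pool.Agent.Helper12.GM.RowA
import Pool.Agent.Helper12.GM.RowB

/-! # Gauss-Markov project, row C: differentiation under the Gaussian integral -/

set_option autoImplicit false
set_option linter.unusedSectionVars false

namespace Pool.Agent.Helper12.GM

open MeasureTheory ProbabilityTheory MvPolynomial
open scoped ComplexConjugate

section RowC

variable {ι : Type} [Fintype ι] [DecidableEq ι]

/-- total absolute size of the pair -/
noncomputable def wsum (w : (ι → ℝ) × (ι → ℝ)) : ℝ := ∑ j, (|w.1 j| + |w.2 j|)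

theorem wsum_nonneg (w : (ι → ℝ) × (ι → ℝ)) : 0 ≤ wsum w := by
  unfold wsum; positivity

theorem zzC_continuous (η : ℝ) : Continuous (fun w : (ι → ℝ) × (ι → ℝ) => zz η w) :=
  zz_continuous.comp (by fun_prop : Continuous fun w : (ι → ℝ) × (ι → ℝ) => (η, w))

theorem el_zz_growth (f : MvPolynomial ι ℂ) {ε : ℝ} (hε : 0 < ε) (u v : MvPolynomial ι ℂ)
    (a : ℝ) : ∃ C : ℝ, 0 ≤ C ∧ ∀ (M η : ℝ), |η| ≤ M → ∀ w : (ι → ℝ) × (ι → ℝ),
      ‖el f ε u v a (zz η w)‖ ≤ C * Real.exp (Real.cosh M * wsum w) := by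
  obtain ⟨C, hC, h⟩ := el_growth f hε u v a
  refine ⟨C, hC, fun M η hM w => (h _).trans ?_⟩
  have := zz_norm_le η M hM w
  gcongr
  exact this

theorem el_zz_continuous (f : MvPolynomial ι ℂ) {ε : ℝ} (hε : 0 < ε) (u v : MvPolynomial ι ℂ)
    (a η : ℝ) : Continuous (fun w : (ι → ℝ) × (ι → ℝ) => el f ε u v a (zz η w)) :=
  (el_continuous f hε u v a).comp (zzC_continuous η)

theorem el_integrable (f : MvPolynomial ι ℂ) {ε : ℝ} (hε : 0 < ε) (u v : MvPolynomial ι ℂ)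
    (a η : ℝ) : Integrable (fun w => el f ε u v a (zz η w)) (gam2 ι) := by
  obtain ⟨C, hC, h⟩ := el_zz_growth f hε u v a
  exact ((integrable_exp_gam2 (Real.cosh |η|)).const_mul C).mono'
    (el_zz_continuous f hε u v a η).aestronglyMeasurable
    (ae_of_all _ fun w => h |η| η le_rfl w)

/-! ### second derivatives -/

/-- first `D`, then `D` -/
noncomputable def eDD (f : MvPolynomial ι ℂ) (ε : ℝ) (j : ι) (u v : MvPolynomial ι ℂ) (a : ℝ)
    (z : ι → ℂ) : ℂ :=
  elD f ε j (pderiv j u) v a z + (a : ℂ) * elD f ε j (u * pderiv j f) (v * f) (a - 1) z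

/-- first `D`, then `B` -/
noncomputable def eDB (f : MvPolynomial ι ℂ) (ε : ℝ) (j : ι) (u v : MvPolynomial ι ℂ) (a : ℝ)
    (z : ι → ℂ) : ℂ :=
  elB f ε j (pderiv j u) v a z + (a : ℂ) * elB f ε j (u * pderiv j f) (v * f) (a - 1) z

/-- first `B`, then `D` -/
noncomputable def eBD (f : MvPolynomial ι ℂ) (ε : ℝ) (j : ι) (u v : MvPolynomial ι ℂ) (a : ℝ)
    (z : ι → ℂ) : ℂ :=
  elD f ε j u (pderiv j v) a z + (a : ℂ) * elD f ε j (u * f) (v * pderiv j f) (a - 1) z

/-- first `B`, then `B` -/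
noncomputable def eBB (f : MvPolynomial ι ℂ) (ε : ℝ) (j : ι) (u v : MvPolynomial ι ℂ) (a : ℝ)
    (z : ι → ℂ) : ℂ :=
  elB f ε j u (pderiv j v) a z + (a : ℂ) * elB f ε j (u * f) (v * pderiv j f) (a - 1) z

theorem eDB_eq (f : MvPolynomial ι ℂ) (ε : ℝ) (j : ι) (u v : MvPolynomial ι ℂ) (a : ℝ)
    (z : ι → ℂ) : eDB f ε j u v a z = eBD f ε j u v a z := by
  simp only [eDB, eBD, elD, elB, el, pderiv_mul, map_add, map_mul, Complex.ofReal_sub,
    Complex.ofReal_one]
  ring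

theorem nb_eq (f : MvPolynomial ι ℂ) (ε : ℝ) (u v : MvPolynomial ι ℂ) (a : ℝ)
    (z : ι → ℂ) : nb f ε u v a z =
      ∑ j, (conj (z j) * elB f ε j u v a z - eBB f ε j u v a z) := by
  have e2 : a - 1 - 1 = a - 2 := by ring
  have hN : eval z (nOp v) = ∑ j, (z j * eval z (pderiv j v) - eval z (pderiv j (pderiv j v))) := by
    simp [nOp, map_sum]
  have hNf : eval z (nOp f) = ∑ j, (z j * eval z (pderiv j f) - eval z (pderiv j (pderiv j f))) := by
    simp [nOp, map_sum]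
  have hg : eval z (gm v f) = ∑ j, eval z (pderiv j v) * eval z (pderiv j f) := by
    simp [gm, map_sum]
  have hgf : eval z (gm f f) = ∑ j, eval z (pderiv j f) * eval z (pderiv j f) := by
    simp [gm, map_sum]
  have h2 : eval z (2 * gm v f) = 2 * eval z (gm v f) := by
    simp [map_mul]
  simp only [nb, el, map_mul, map_sub, map_pow, h2, hN, hNf, hg, hgf, map_sum, map_ofNat]
  simp only [eBB, elB, el, pderiv_mul, map_add, map_mul, Complex.ofReal_sub, Complex.ofReal_one, e2,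
    Finset.mul_sum, Finset.sum_mul, ← Finset.sum_sub_distrib, ← Finset.sum_add_distrib]
  refine Finset.sum_congr rfl fun j _ => ?_
  ring

/-! ### functions with exponential growth -/

/-- continuous with exponential growth -/
def Gd (H : (ι → ℂ) → ℂ) : Prop :=
  Continuous H ∧ ∃ C : ℝ, 0 ≤ C ∧ ∀ z, ‖H z‖ ≤ C * Real.exp (∑ j, ‖z j‖)

theorem Gd_el (f : MvPolynomial ι ℂ) {ε : ℝ} (hε : 0 < ε) (u v : MvPolynomial ι ℂ)
    (a : ℝ) : Gd (el f ε u v a) := ⟨el_continuous f hε u v a, el_growth f hε u v a⟩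

theorem Gd.add {H K : (ι → ℂ) → ℂ} (hH : Gd H) (hK : Gd K) : Gd (fun z => H z + K z) := by
  obtain ⟨h1, C, hC, h2⟩ := hH
  obtain ⟨k1, D, hD, k2⟩ := hK
  refine ⟨h1.add k1, C + D, by positivity, fun z => (norm_add_le _ _).trans ?_⟩
  rw [add_mul]
  exact add_le_add (h2 z) (k2 z)

theorem Gd.const_mul {H : (ι → ℂ) → ℂ} (hH : Gd H) (c : ℂ) : Gd (fun z => c * H z) := by
  obtain ⟨h1, C, hC, h2⟩ := hH
  refine ⟨h1.const_mul c, ‖c‖ * C, by positivity, fun z => ?_⟩
  rw [norm_mul, mul_assoc]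
  gcongr
  exact h2 z

theorem Gd_elD (f : MvPolynomial ι ℂ) {ε : ℝ} (hε : 0 < ε) (j : ι) (u v : MvPolynomial ι ℂ)
    (a : ℝ) : Gd (elD f ε j u v a) := by
  unfold elD
  exact (Gd_el f hε _ _ _).add ((Gd_el f hε _ _ _).const_mul _)

theorem Gd_elB (f : MvPolynomial ι ℂ) {ε : ℝ} (hε : 0 < ε) (j : ι) (u v : MvPolynomial ι ℂ)
    (a : ℝ) : Gd (elB f ε j u v a) := by
  unfold elB
  exact (Gd_el f hε _ _ _).add ((Gd_el f hε _ _ _).const_mul _)

theorem Gd_eDD (f : MvPolynomial ι ℂ) {ε : ℝ} (hε : 0 < ε) (j : ι) (u v : MvPolynomial ι ℂ)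
    (a : ℝ) : Gd (eDD f ε j u v a) := by
  unfold eDD
  exact (Gd_elD f hε _ _ _ _).add ((Gd_elD f hε _ _ _ _).const_mul _)

theorem Gd_eDB (f : MvPolynomial ι ℂ) {ε : ℝ} (hε : 0 < ε) (j : ι) (u v : MvPolynomial ι ℂ)
    (a : ℝ) : Gd (eDB f ε j u v a) := by
  unfold eDB
  exact (Gd_elB f hε _ _ _ _).add ((Gd_elB f hε _ _ _ _).const_mul _)

theorem Gd_eBD (f : MvPolynomial ι ℂ) {ε : ℝ} (hε : 0 < ε) (j : ι) (u v : MvPolynomial ι ℂ)
    (a : ℝ) : Gd (eBD f ε j u v a) := by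
  unfold eBD
  exact (Gd_elD f hε _ _ _ _).add ((Gd_elD f hε _ _ _ _).const_mul _)

theorem Gd_eBB (f : MvPolynomial ι ℂ) {ε : ℝ} (hε : 0 < ε) (j : ι) (u v : MvPolynomial ι ℂ)
    (a : ℝ) : Gd (eBB f ε j u v a) := by
  unfold eBB
  exact (Gd_elB f hε _ _ _ _).add ((Gd_elB f hε _ _ _ _).const_mul _)

theorem Gd.zz_continuous {H : (ι → ℂ) → ℂ} (hH : Gd H) (η : ℝ) :
    Continuous (fun w : (ι → ℝ) × (ι → ℝ) => H (zz η w)) := hH.1.comp (zzC_continuous η)

theorem Gd.zz_growth {H : (ι → ℂ) → ℂ} (hH : Gd H) :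
    ∃ C : ℝ, 0 ≤ C ∧ ∀ (M η : ℝ), |η| ≤ M → ∀ w : (ι → ℝ) × (ι → ℝ),
      ‖H (zz η w)‖ ≤ C * Real.exp (Real.cosh M * wsum w) := by
  obtain ⟨h1, C, hC, h⟩ := hH
  refine ⟨C, hC, fun M η hM w => (h _).trans ?_⟩
  have := zz_norm_le η M hM w
  gcongr
  exact this

theorem Gd.integrable {H : (ι → ℂ) → ℂ} (hH : Gd H) (η : ℝ) :
    Integrable (fun w => H (zz η w)) (gam2 ι) := by
  obtain ⟨C, hC, h⟩ := hH.zz_growth
  exact ((integrable_exp_gam2 (Real.cosh |η|)).const_mul C).mono'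
    (hH.zz_continuous η).aestronglyMeasurable
    (ae_of_all _ fun w => h |η| η le_rfl w)

theorem le_exp_wsum (M t : ℝ) (w : (ι → ℝ) × (ι → ℝ)) (ht : t ≤ Real.cosh M * wsum w) :
    t ≤ Real.exp (Real.cosh M * wsum w) := by
  have := Real.add_one_le_exp (Real.cosh M * wsum w)
  linarith

theorem abs_fst_le (j : ι) (w : (ι → ℝ) × (ι → ℝ)) : |w.1 j| ≤ wsum w := by
  have h : |w.1 j| + |w.2 j| ≤ wsum w :=
    Finset.single_le_sum (f := fun j => |w.1 j| + |w.2 j|) (fun i _ => by positivity)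
      (Finset.mem_univ j)
  have := abs_nonneg (w.2 j)
  linarith

theorem abs_snd_le (j : ι) (w : (ι → ℝ) × (ι → ℝ)) : |w.2 j| ≤ wsum w := by
  have h : |w.1 j| + |w.2 j| ≤ wsum w :=
    Finset.single_le_sum (f := fun j => |w.1 j| + |w.2 j|) (fun i _ => by positivity)
      (Finset.mem_univ j)
  have := abs_nonneg (w.1 j)
  linarith

/-- multiplication by a function of at most linear growth -/
theorem Gd.integrable_mul {H : (ι → ℂ) → ℂ} (hH : Gd H) (η : ℝ)
    {g : (ι → ℝ) × (ι → ℝ) → ℂ} (hg : Continuous g) (hb : ∀ w, ‖g w‖ ≤ wsum w) :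
    Integrable (fun w => g w * H (zz η w)) (gam2 ι) := by
  obtain ⟨C, hC, h⟩ := hH.zz_growth
  refine ((integrable_exp_gam2 (2 * Real.cosh |η|)).const_mul C).mono'
    (hg.mul (hH.zz_continuous η)).aestronglyMeasurable
    (ae_of_all _ fun w => ?_)
  have h1 : ‖g w‖ ≤ Real.exp (Real.cosh |η| * wsum w) := by
    refine le_exp_wsum _ _ _ ((hb w).trans ?_)
    have := Real.one_le_cosh |η|
    have := wsum_nonneg w
    nlinarith
  have h2 := h |η| η le_rfl w
  rw [norm_mul]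
  calc ‖g w‖ * ‖H (zz η w)‖
      ≤ Real.exp (Real.cosh |η| * wsum w) * (C * Real.exp (Real.cosh |η| * wsum w)) := by gcongr
    _ = C * Real.exp (2 * Real.cosh |η| * wsum w) := by
      rw [show 2 * Real.cosh |η| * wsum w = Real.cosh |η| * wsum w + Real.cosh |η| * wsum w by ring,
        Real.exp_add]
      ring

theorem Gd.integrable_fst {H : (ι → ℂ) → ℂ} (hH : Gd H) (η : ℝ) (j : ι) :
    Integrable (fun w => (w.1 j : ℂ) * H (zz η w)) (gam2 ι) :=
  hH.integrable_mul η (by fun_prop) fun w => by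
    rw [Complex.norm_real]; exact abs_fst_le j w

theorem Gd.integrable_snd {H : (ι → ℂ) → ℂ} (hH : Gd H) (η : ℝ) (j : ι) :
    Integrable (fun w => (w.2 j : ℂ) * H (zz η w)) (gam2 ι) :=
  hH.integrable_mul η (by fun_prop) fun w => by
    rw [Complex.norm_real]; exact abs_snd_le j w

/-! ### Stein -/

/-- `HD`, `HB` are the Wirtinger derivatives of `H` in the `j`-th coordinate -/
def Der (j : ι) (H HD HB : (ι → ℂ) → ℂ) : Prop :=
  ∀ (c : ℂ) (z : ℝ → ι → ℂ) (τ : ℝ),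
    (∀ k, HasDerivAt (fun τ => z τ k) (if k = j then c else 0) τ) →
    HasDerivAt (fun τ => H (z τ)) (c * HD (z τ) + conj c * HB (z τ)) τ

theorem Der.add {j : ι} {H HD HB K KD KB : (ι → ℂ) → ℂ} (h : Der j H HD HB) (k : Der j K KD KB) :
    Der j (fun z => H z + K z) (fun z => HD z + KD z) (fun z => HB z + KB z) := by
  intro c z τ hz
  exact ((h c z τ hz).add (k c z τ hz)).congr_deriv (by ring)

theorem Der.const_mul {j : ι} {H HD HB : (ι → ℂ) → ℂ} (h : Der j H HD HB) (b : ℂ) :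
    Der j (fun z => b * H z) (fun z => b * HD z) (fun z => b * HB z) := by
  intro c z τ hz
  exact ((h c z τ hz).const_mul b).congr_deriv (by ring)

theorem Der_el (f : MvPolynomial ι ℂ) {ε : ℝ} (hε : 0 < ε) (j : ι) (u v : MvPolynomial ι ℂ)
    (a : ℝ) : Der j (el f ε u v a) (elD f ε j u v a) (elB f ε j u v a) := by
  intro c z τ hz
  refine (el_hasDerivAt f hε u v a z _ τ hz).congr_deriv ?_
  rw [Finset.sum_eq_single j]
  · simp
  · intro b _ hb
    simp [hb]
  · simp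

theorem Der_elD (f : MvPolynomial ι ℂ) {ε : ℝ} (hε : 0 < ε) (j : ι) (u v : MvPolynomial ι ℂ)
    (a : ℝ) : Der j (elD f ε j u v a) (eDD f ε j u v a) (eDB f ε j u v a) :=
  (Der_el f hε j _ _ _).add ((Der_el f hε j _ _ _).const_mul _)

theorem Der_elB (f : MvPolynomial ι ℂ) {ε : ℝ} (hε : 0 < ε) (j : ι) (u v : MvPolynomial ι ℂ)
    (a : ℝ) : Der j (elB f ε j u v a) (eBD f ε j u v a) (eBB f ε j u v a) :=
  (Der_el f hε j _ _ _).add ((Der_el f hε j _ _ _).const_mul _)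

theorem stein_zz_fst {j : ι} {H HD HB : (ι → ℂ) → ℂ} (hd : Der j H HD HB) (hH : Gd H)
    (hD : Gd HD) (hB : Gd HB) (η : ℝ) :
    ∫ w, (w.1 j : ℂ) * H (zz η w) ∂(gam2 ι) =
      (Real.cosh η : ℂ) * (∫ w, HD (zz η w) ∂(gam2 ι) + ∫ w, HB (zz η w) ∂(gam2 ι)) := by
  have hS : Gd (fun z => (Real.cosh η : ℂ) * (HD z + HB z)) := (hD.add hB).const_mul _
  obtain ⟨C1, hC1, h1⟩ := hH.zz_growth
  obtain ⟨C2, hC2, h2⟩ := hS.zz_growth
  rw [stein_fst j (fun w => H (zz η w)) (fun w => (Real.cosh η : ℂ) * (HD (zz η w) + HB (zz η w)))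
    ?_ (hH.zz_continuous η) (hS.zz_continuous η) (C1 + C2) (Real.cosh |η|) ?_ ?_]
  · rw [integral_const_mul, integral_add (hD.integrable η) (hB.integrable η)]
  · intro x y t
    have h := hd (Real.cosh η) (fun t => zz η (Function.update x j t, y)) t ?_
    · refine h.congr_deriv ?_
      rw [Complex.conj_ofReal]
      ring
    · intro k
      by_cases hk : k = j
      · subst hk
        simp only [zz, Function.update_self, if_true]
        have h3 : HasDerivAt (fun t : ℝ => (t : ℂ)) 1 t := Complex.ofRealCLM.hasDerivAt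
        have h4 := (h3.const_mul (Real.cosh η : ℂ)).add_const
          ((Real.sinh η : ℂ) * (y k : ℂ) * Complex.I)
        simpa using h4
      · simp only [zz, Function.update_of_ne hk, if_neg hk]
        exact hasDerivAt_const _ _
  · intro w
    refine (h1 |η| η le_rfl w).trans ?_
    unfold wsum
    gcongr
    linarith
  · intro w
    refine (h2 |η| η le_rfl w).trans ?_
    unfold wsum
    gcongr
    linarith

theorem stein_zz_snd {j : ι} {H HD HB : (ι → ℂ) → ℂ} (hd : Der j H HD HB) (hH : Gd H)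
    (hD : Gd HD) (hB : Gd HB) (η : ℝ) :
    ∫ w, (w.2 j : ℂ) * H (zz η w) ∂(gam2 ι) =
      (Real.sinh η : ℂ) * Complex.I *
        (∫ w, HD (zz η w) ∂(gam2 ι) - ∫ w, HB (zz η w) ∂(gam2 ι)) := by
  have hS : Gd (fun z => (Real.sinh η : ℂ) * Complex.I * (HD z + (-1) * HB z)) :=
    (hD.add (hB.const_mul _)).const_mul _
  obtain ⟨C1, hC1, h1⟩ := hH.zz_growth
  obtain ⟨C2, hC2, h2⟩ := hS.zz_growth
  rw [stein_snd j (fun w => H (zz η w))
    (fun w => (Real.sinh η : ℂ) * Complex.I * (HD (zz η w) + (-1) * HB (zz η w)))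
    ?_ (hH.zz_continuous η) (hS.zz_continuous η) (C1 + C2) (Real.cosh |η|) ?_ ?_]
  · rw [integral_const_mul, integral_add (hD.integrable η) ((hB.const_mul _).integrable η),
      integral_const_mul]
    ring
  · intro x y t
    have h := hd ((Real.sinh η : ℂ) * Complex.I) (fun t => zz η (x, Function.update y j t)) t ?_
    · refine h.congr_deriv ?_
      rw [map_mul, Complex.conj_ofReal, Complex.conj_I]
      ring
    · intro k
      by_cases hk : k = j
      · subst hk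
        simp only [zz, Function.update_self, if_true]
        have h3 : HasDerivAt (fun t : ℝ => (t : ℂ)) 1 t := Complex.ofRealCLM.hasDerivAt
        have h4 := ((h3.const_mul (Real.sinh η : ℂ)).mul_const Complex.I).const_add
          ((Real.cosh η : ℂ) * (x k : ℂ))
        simpa using h4
      · simp only [zz, Function.update_of_ne hk, if_neg hk]
        exact hasDerivAt_const _ _
  · intro w
    refine (h1 |η| η le_rfl w).trans ?_
    unfold wsum
    gcongr
    linarith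
  · intro w
    refine (h2 |η| η le_rfl w).trans ?_
    unfold wsum
    gcongr
    linarith

/-! ### the derivative in `η` -/

/-- the `η`-derivative of the integrand -/
noncomputable def dstar (f : MvPolynomial ι ℂ) (ε : ℝ) (u v : MvPolynomial ι ℂ) (a : ℝ)
    (η : ℝ) (w : (ι → ℝ) × (ι → ℝ)) : ℂ :=
  ∑ j, (((Real.sinh η : ℂ) * (w.1 j : ℂ) + (Real.cosh η : ℂ) * (w.2 j : ℂ) * Complex.I)
      * elD f ε j u v a (zz η w)
    + ((Real.sinh η : ℂ) * (w.1 j : ℂ) - (Real.cosh η : ℂ) * (w.2 j : ℂ) * Complex.I)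
      * elB f ε j u v a (zz η w))

theorem dstar_hasDerivAt (f : MvPolynomial ι ℂ) {ε : ℝ} (hε : 0 < ε) (u v : MvPolynomial ι ℂ)
    (a η : ℝ) (w : (ι → ℝ) × (ι → ℝ)) :
    HasDerivAt (fun η => el f ε u v a (zz η w)) (dstar f ε u v a η w) η := by
  have h := el_hasDerivAt f hε u v a (fun η => zz η w)
    (fun j => (Real.sinh η : ℂ) * (w.1 j : ℂ) + (Real.cosh η : ℂ) * (w.2 j : ℂ) * Complex.I) η ?_
  · refine h.congr_deriv ?_
    unfold dstar
    refine Finset.sum_congr rfl fun j _ => ?_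
    simp only [map_add, map_mul, Complex.conj_ofReal, Complex.conj_I]
    ring
  · intro j
    unfold zz
    have h1 : HasDerivAt (fun η : ℝ => ((Real.cosh η : ℝ) : ℂ)) ((Real.sinh η : ℝ) : ℂ) η :=
      (Real.hasDerivAt_cosh η).ofReal_comp
    have h2 : HasDerivAt (fun η : ℝ => ((Real.sinh η : ℝ) : ℂ)) ((Real.cosh η : ℝ) : ℂ) η :=
      (Real.hasDerivAt_sinh η).ofReal_comp
    exact (h1.mul_const _).add ((h2.mul_const _).mul_const _)

theorem coef_le {η M : ℝ} (hM : |η| ≤ M) (s : ℂ) (hs : s = Complex.I ∨ s = -Complex.I)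
    (w : (ι → ℝ) × (ι → ℝ)) (j : ι) :
    ‖(Real.sinh η : ℂ) * (w.1 j : ℂ) + (Real.cosh η : ℂ) * (w.2 j : ℂ) * s‖
      ≤ Real.exp (Real.cosh M * wsum w) := by
  have hs1 : ‖s‖ = 1 := by rcases hs with h | h <;> simp [h]
  have hc : Real.cosh η ≤ Real.cosh M := by
    rw [Real.cosh_le_cosh]
    exact hM.trans (le_abs_self M)
  have hsh : |Real.sinh η| ≤ Real.cosh η := by
    have h1 := Real.cosh_add_sinh η
    have h2 := Real.exp_pos η
    exact abs_le.2 ⟨by linarith, (Real.sinh_lt_cosh η).le⟩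
  refine le_exp_wsum _ _ _ ((norm_add_le _ _).trans ?_)
  rw [norm_mul, norm_mul, norm_mul, hs1, mul_one, Complex.norm_real, Complex.norm_real,
    Complex.norm_real, Complex.norm_real, Real.norm_eq_abs, Real.norm_eq_abs, Real.norm_eq_abs,
    Real.norm_eq_abs, abs_of_pos (Real.cosh_pos η)]
  have h3 : |w.1 j| + |w.2 j| ≤ wsum w :=
    Finset.single_le_sum (f := fun j => |w.1 j| + |w.2 j|) (fun i _ => by positivity)
      (Finset.mem_univ j)
  calc |Real.sinh η| * |w.1 j| + Real.cosh η * |w.2 j|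
      ≤ Real.cosh M * |w.1 j| + Real.cosh M * |w.2 j| := by
        gcongr
        exact hsh.trans hc
    _ = Real.cosh M * (|w.1 j| + |w.2 j|) := by ring
    _ ≤ Real.cosh M * wsum w := by
        have := Real.cosh_pos M
        gcongr

theorem dstar_continuous (f : MvPolynomial ι ℂ) {ε : ℝ} (hε : 0 < ε) (u v : MvPolynomial ι ℂ)
    (a η : ℝ) : Continuous (dstar f ε u v a η) := by
  unfold dstar
  refine continuous_finsetSum _ fun j _ => ?_
  have h1 := (Gd_elD f hε j u v a).zz_continuous η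
  have h2 := (Gd_elB f hε j u v a).zz_continuous η
  fun_prop

theorem dstar_growth (f : MvPolynomial ι ℂ) {ε : ℝ} (hε : 0 < ε) (u v : MvPolynomial ι ℂ)
    (a : ℝ) : ∃ C : ℝ, 0 ≤ C ∧ ∀ (M η : ℝ), |η| ≤ M → ∀ w : (ι → ℝ) × (ι → ℝ),
      ‖dstar f ε u v a η w‖ ≤ C * Real.exp (2 * Real.cosh M * wsum w) := by
  choose C1 hC1 h1 using fun j => (Gd_elD f hε j u v a).zz_growth
  choose C2 hC2 h2 using fun j => (Gd_elB f hε j u v a).zz_growth
  refine ⟨∑ j, (C1 j + C2 j), Finset.sum_nonneg fun j _ => add_nonneg (hC1 j) (hC2 j),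
    fun M η hM w => ?_⟩
  unfold dstar
  refine (norm_sum_le _ _).trans ?_
  rw [Finset.sum_mul]
  refine Finset.sum_le_sum fun j _ => ?_
  refine (norm_add_le _ _).trans ?_
  rw [norm_mul, norm_mul]
  have a1 := h1 j M η hM w
  have a2 := h2 j M η hM w
  have b1 := coef_le hM Complex.I (Or.inl rfl) w j
  have b2 := coef_le hM (-Complex.I) (Or.inr rfl) w j
  rw [mul_neg, ← sub_eq_add_neg] at b2
  have e : Real.exp (2 * Real.cosh M * wsum w)
      = Real.exp (Real.cosh M * wsum w) * Real.exp (Real.cosh M * wsum w) := by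
    rw [← Real.exp_add]; congr 1; ring
  rw [e]
  calc _ ≤ Real.exp (Real.cosh M * wsum w) * (C1 j * Real.exp (Real.cosh M * wsum w))
        + Real.exp (Real.cosh M * wsum w) * (C2 j * Real.exp (Real.cosh M * wsum w)) := by gcongr
    _ = _ := by ring

theorem star_aux (f : MvPolynomial ι ℂ) {ε : ℝ} (hε : 0 < ε) (u v : MvPolynomial ι ℂ)
    (a η : ℝ) :
    HasDerivAt (fun η => ∫ w, el f ε u v a (zz η w) ∂(gam2 ι))
      (∫ w, dstar f ε u v a η w ∂(gam2 ι)) η := by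
  obtain ⟨C, hC, hb⟩ := dstar_growth f hε u v a
  refine (hasDerivAt_integral_of_dominated_loc_of_deriv_le (μ := gam2 ι)
    (F := fun η w => el f ε u v a (zz η w)) (F' := fun η w => dstar f ε u v a η w)
    (x₀ := η) (s := Metric.ball η 1)
    (bound := fun w => C * Real.exp (2 * Real.cosh (|η| + 1) * wsum w))
    (Metric.ball_mem_nhds η one_pos) ?_ ?_ ?_ ?_ ?_ ?_).2
  · exact Filter.Eventually.of_forall fun x => (el_zz_continuous f hε u v a x).aestronglyMeasurable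
  · exact el_integrable f hε u v a η
  · exact (dstar_continuous f hε u v a η).aestronglyMeasurable
  · refine ae_of_all _ fun w x hx => hb _ _ ?_ w
    rw [Metric.mem_ball, Real.dist_eq] at hx
    have := abs_sub_abs_le_abs_sub x η
    linarith
  · exact (integrable_exp_gam2 (2 * Real.cosh (|η| + 1))).const_mul C
  · exact ae_of_all _ fun w x _ => dstar_hasDerivAt f hε u v a x w

theorem integral_dstar (f : MvPolynomial ι ℂ) {ε : ℝ} (hε : 0 < ε) (u v : MvPolynomial ι ℂ)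
    (a η : ℝ) : ∫ w, dstar f ε u v a η w ∂(gam2 ι) =
      4 * (Real.sinh η : ℂ) * (Real.cosh η : ℂ) *
        ∑ j, ∫ w, eBD f ε j u v a (zz η w) ∂(gam2 ι) := by
  unfold dstar
  have i1 : ∀ j, Integrable (fun w : (ι → ℝ) × (ι → ℝ) =>
      ((Real.sinh η : ℂ) * (w.1 j : ℂ) + (Real.cosh η : ℂ) * (w.2 j : ℂ) * Complex.I)
      * elD f ε j u v a (zz η w)) (gam2 ι) := fun j => by
    have h1 := ((Gd_elD f hε j u v a).integrable_fst η j).const_mul (Real.sinh η : ℂ)
    have h2 := ((Gd_elD f hε j u v a).integrable_snd η j).const_mul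
      ((Real.cosh η : ℂ) * Complex.I)
    refine (h1.add h2).congr (ae_of_all _ fun w => ?_)
    simp only [Pi.add_apply]
    ring
  have i2 : ∀ j, Integrable (fun w : (ι → ℝ) × (ι → ℝ) =>
      ((Real.sinh η : ℂ) * (w.1 j : ℂ) - (Real.cosh η : ℂ) * (w.2 j : ℂ) * Complex.I)
      * elB f ε j u v a (zz η w)) (gam2 ι) := fun j => by
    have h1 := ((Gd_elB f hε j u v a).integrable_fst η j).const_mul (Real.sinh η : ℂ)
    have h2 := ((Gd_elB f hε j u v a).integrable_snd η j).const_mul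
      ((Real.cosh η : ℂ) * Complex.I)
    refine (h1.sub h2).congr (ae_of_all _ fun w => ?_)
    simp only [Pi.sub_apply]
    ring
  have i12 : ∀ j, Integrable (fun w : (ι → ℝ) × (ι → ℝ) =>
      ((Real.sinh η : ℂ) * (w.1 j : ℂ) + (Real.cosh η : ℂ) * (w.2 j : ℂ) * Complex.I)
      * elD f ε j u v a (zz η w) +
      ((Real.sinh η : ℂ) * (w.1 j : ℂ) - (Real.cosh η : ℂ) * (w.2 j : ℂ) * Complex.I)
      * elB f ε j u v a (zz η w)) (gam2 ι) := fun j => (i1 j).add (i2 j)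
  rw [integral_finsetSum _ fun j _ => i12 j, Finset.mul_sum]
  refine Finset.sum_congr rfl fun j _ => ?_
  rw [integral_add (i1 j) (i2 j)]
  have e1 : ∫ w : (ι → ℝ) × (ι → ℝ),
      ((Real.sinh η : ℂ) * (w.1 j : ℂ) + (Real.cosh η : ℂ) * (w.2 j : ℂ) * Complex.I)
      * elD f ε j u v a (zz η w) ∂(gam2 ι) =
      (Real.sinh η : ℂ) * ∫ w, (w.1 j : ℂ) * elD f ε j u v a (zz η w) ∂(gam2 ι)
      + (Real.cosh η : ℂ) * Complex.I *
        ∫ w, (w.2 j : ℂ) * elD f ε j u v a (zz η w) ∂(gam2 ι) := by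
    rw [← integral_const_mul, ← integral_const_mul, ← integral_add
      (((Gd_elD f hε j u v a).integrable_fst η j).const_mul _)
      (((Gd_elD f hε j u v a).integrable_snd η j).const_mul _)]
    exact integral_congr_ae (ae_of_all _ fun w => by ring)
  have e2 : ∫ w : (ι → ℝ) × (ι → ℝ),
      ((Real.sinh η : ℂ) * (w.1 j : ℂ) - (Real.cosh η : ℂ) * (w.2 j : ℂ) * Complex.I)
      * elB f ε j u v a (zz η w) ∂(gam2 ι) =
      (Real.sinh η : ℂ) * ∫ w, (w.1 j : ℂ) * elB f ε j u v a (zz η w) ∂(gam2 ι)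
      - (Real.cosh η : ℂ) * Complex.I *
        ∫ w, (w.2 j : ℂ) * elB f ε j u v a (zz η w) ∂(gam2 ι) := by
    rw [← integral_const_mul, ← integral_const_mul, ← integral_sub
      (((Gd_elB f hε j u v a).integrable_fst η j).const_mul _)
      (((Gd_elB f hε j u v a).integrable_snd η j).const_mul _)]
    exact integral_congr_ae (ae_of_all _ fun w => by ring)
  rw [e1, e2,
    stein_zz_fst (Der_elD f hε j u v a) (Gd_elD f hε j u v a) (Gd_eDD f hε j u v a)
      (Gd_eDB f hε j u v a) η,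
    stein_zz_snd (Der_elD f hε j u v a) (Gd_elD f hε j u v a) (Gd_eDD f hε j u v a)
      (Gd_eDB f hε j u v a) η,
    stein_zz_fst (Der_elB f hε j u v a) (Gd_elB f hε j u v a) (Gd_eBD f hε j u v a)
      (Gd_eBB f hε j u v a) η,
    stein_zz_snd (Der_elB f hε j u v a) (Gd_elB f hε j u v a) (Gd_eBD f hε j u v a)
      (Gd_eBB f hε j u v a) η]
  have e3 : ∫ w, eDB f ε j u v a (zz η w) ∂(gam2 ι) = ∫ w, eBD f ε j u v a (zz η w) ∂(gam2 ι) :=
    integral_congr_ae (ae_of_all _ fun w => eDB_eq f ε j u v a _)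
  rw [e3]
  linear_combination ((Real.sinh η : ℂ) * (Real.cosh η : ℂ) *
    (∫ w, eDD f ε j u v a (zz η w) ∂(gam2 ι) - ∫ w, eBD f ε j u v a (zz η w) ∂(gam2 ι)
      - (∫ w, eBD f ε j u v a (zz η w) ∂(gam2 ι) - ∫ w, eBB f ε j u v a (zz η w) ∂(gam2 ι))))
    * Complex.I_mul_I

theorem integral_nb (f : MvPolynomial ι ℂ) {ε : ℝ} (hε : 0 < ε) (u v : MvPolynomial ι ℂ)
    (a η : ℝ) : ∫ w, nb f ε u v a (zz η w) ∂(gam2 ι) =
      (Real.cosh (2 * η) : ℂ) * ∑ j, ∫ w, eBD f ε j u v a (zz η w) ∂(gam2 ι) := by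
  have e0 : ∀ w, nb f ε u v a (zz η w) = ∑ j, (((Real.cosh η : ℂ) *
      ((w.1 j : ℂ) * elB f ε j u v a (zz η w)) - (Real.sinh η : ℂ) * Complex.I *
      ((w.2 j : ℂ) * elB f ε j u v a (zz η w))) - eBB f ε j u v a (zz η w)) := by
    intro w
    rw [nb_eq]
    refine Finset.sum_congr rfl fun j _ => ?_
    simp only [zz, map_add, map_mul, Complex.conj_ofReal, Complex.conj_I]
    ring
  simp_rw [e0]
  have k1 : ∀ j, Integrable (fun w : (ι → ℝ) × (ι → ℝ) => (Real.cosh η : ℂ) *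
      ((w.1 j : ℂ) * elB f ε j u v a (zz η w))) (gam2 ι) := fun j =>
    ((Gd_elB f hε j u v a).integrable_fst η j).const_mul _
  have k2 : ∀ j, Integrable (fun w : (ι → ℝ) × (ι → ℝ) => (Real.sinh η : ℂ) * Complex.I *
      ((w.2 j : ℂ) * elB f ε j u v a (zz η w))) (gam2 ι) := fun j =>
    ((Gd_elB f hε j u v a).integrable_snd η j).const_mul _
  have k3 : ∀ j, Integrable (fun w : (ι → ℝ) × (ι → ℝ) => eBB f ε j u v a (zz η w)) (gam2 ι) :=
    fun j => (Gd_eBB f hε j u v a).integrable η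
  have k12 : ∀ j, Integrable (fun w : (ι → ℝ) × (ι → ℝ) => (Real.cosh η : ℂ) *
      ((w.1 j : ℂ) * elB f ε j u v a (zz η w)) - (Real.sinh η : ℂ) * Complex.I *
      ((w.2 j : ℂ) * elB f ε j u v a (zz η w))) (gam2 ι) := fun j => (k1 j).sub (k2 j)
  have k123 : ∀ j, Integrable (fun w : (ι → ℝ) × (ι → ℝ) => (Real.cosh η : ℂ) *
      ((w.1 j : ℂ) * elB f ε j u v a (zz η w)) - (Real.sinh η : ℂ) * Complex.I *
      ((w.2 j : ℂ) * elB f ε j u v a (zz η w)) - eBB f ε j u v a (zz η w)) (gam2 ι) :=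
    fun j => (k12 j).sub (k3 j)
  rw [integral_finsetSum _ fun j _ => k123 j, Finset.mul_sum]
  refine Finset.sum_congr rfl fun j _ => ?_
  rw [integral_sub (k12 j) (k3 j), integral_sub (k1 j) (k2 j), integral_const_mul,
    integral_const_mul,
    stein_zz_fst (Der_elB f hε j u v a) (Gd_elB f hε j u v a) (Gd_eBD f hε j u v a)
      (Gd_eBB f hε j u v a) η,
    stein_zz_snd (Der_elB f hε j u v a) (Gd_elB f hε j u v a) (Gd_eBD f hε j u v a)
      (Gd_eBB f hε j u v a) η]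
  have hc : (Real.cosh (2 * η) : ℂ) = (Real.cosh η : ℂ) ^ 2 + (Real.sinh η : ℂ) ^ 2 := by
    rw [Real.cosh_two_mul]; push_cast; ring
  have hs : (Real.cosh η : ℂ) ^ 2 - (Real.sinh η : ℂ) ^ 2 = 1 := by
    rw [← Complex.ofReal_pow, ← Complex.ofReal_pow, ← Complex.ofReal_sub,
      Real.cosh_sq_sub_sinh_sq, Complex.ofReal_one]
  rw [hc]
  linear_combination (-(Real.sinh η : ℂ) ^ 2 *
    (∫ w, eBD f ε j u v a (zz η w) ∂(gam2 ι) - ∫ w, eBB f ε j u v a (zz η w) ∂(gam2 ι)))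
    * Complex.I_mul_I + (∫ w, eBB f ε j u v a (zz η w) ∂(gam2 ι)) * hs

theorem star (f : MvPolynomial ι ℂ) {ε : ℝ} (hε : 0 < ε) (u v : MvPolynomial ι ℂ)
    (a η : ℝ) :
    HasDerivAt (fun η => ∫ w, el f ε u v a (zz η w) ∂(gam2 ι))
      (2 * (Real.tanh (2 * η) : ℂ) * ∫ w, nb f ε u v a (zz η w) ∂(gam2 ι)) η := by
  refine (star_aux f hε u v a η).congr_deriv ?_
  rw [integral_dstar f hε, integral_nb f hε]
  have hc : (Real.tanh (2 * η) : ℂ) * (Real.cosh (2 * η) : ℂ)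
      = 2 * (Real.sinh η : ℂ) * (Real.cosh η : ℂ) := by
    rw [← Complex.ofReal_mul, Real.tanh_eq_sinh_div_cosh,
      div_mul_cancel₀ _ (Real.cosh_pos _).ne', Real.sinh_two_mul]
    push_cast
    ring
  linear_combination (-2 * ∑ j, ∫ w, eBD f ε j u v a (zz η w) ∂(gam2 ι)) * hc

end RowC

end Pool.Agent.Helper12.GM
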