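import Pool.Agent.Helper12.GM.Defs

/-! # Gauss-Markov project: rotation invariance of `gam2` -/

set_option autoImplicit false

namespace Pool.Agent.Helper12.GM

open MeasureTheory ProbabilityTheory

variable {ι : Type} [Fintype ι] [DecidableEq ι]

/-- rotation invariance of the standard Gaussian measure on the plane -/
theorem rot_one (θ : ℝ) :
    MeasurePreserving (fun w : ℝ × ℝ => (Real.cos θ * w.1 + Real.sin θ * w.2,
      -Real.sin θ * w.1 + Real.cos θ * w.2))
      ((gaussianReal 0 1).prod (gaussianReal 0 1)) ((gaussianReal 0 1).prod (gaussianReal 0 1)) := by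
  have h1 : (fun w : ℝ × ℝ => (Real.cos θ * w.1 + Real.sin θ * w.2,
      -Real.sin θ * w.1 + Real.cos θ * w.2)) =
      ContinuousLinearMap.rotation θ := by
    funext w
    rw [ContinuousLinearMap.rotation_apply]
    simp
  refine ⟨by fun_prop, ?_⟩
  rw [h1]
  exact IsGaussian.map_rotation_eq_self (by simp) θ

theorem rot_measurePreserving (θ : ℝ) :
    MeasurePreserving (fun w : (ι → ℝ) × (ι → ℝ) =>
      ((fun j => Real.cos θ * w.1 j + Real.sin θ * w.2 j),
        (fun j => -Real.sin θ * w.1 j + Real.cos θ * w.2 j))) (gam2 ι) (gam2 ι) := by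
  have h1 := measurePreserving_arrowProdEquivProdArrow ℝ ℝ ι
    (fun _ => gaussianReal 0 1) (fun _ => gaussianReal 0 1)
  have h2 := measurePreserving_pi (fun _ : ι => (gaussianReal 0 1).prod (gaussianReal 0 1))
    (fun _ : ι => (gaussianReal 0 1).prod (gaussianReal 0 1)) (fun _ => rot_one θ)
  have h3 := (h1.comp h2).comp h1.symm
  exact h3

end Pool.Agent.Helper12.GM
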