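import Pool.Agent.Helper12.GM.RowG3
import Pool.Agent.Helper12.GM.RowD1

/-! # Gauss-Markov project, row D2: the operators `T_ω` on Gauss space -/

set_option autoImplicit false
set_option linter.unusedSectionVars false

namespace Pool.Agent.Helper12.GM

open MeasureTheory ProbabilityTheory MvPolynomial
open scoped ComplexConjugate

section RowD2

variable {ι : Type} [Fintype ι] [DecidableEq ι]

theorem ml_poly (c : Finset ι → ℂ) (d : ℕ) (hc : ∀ S : Finset ι, d < S.card → c S = 0) :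
    ∃ f : MvPolynomial ι ℂ, f.totalDegree ≤ d ∧ ∀ z, eval z f = ml c z := by
  refine ⟨∑ S, C (c S) * ∏ i ∈ S, X i, ?_, fun z => ?_⟩
  · refine (totalDegree_finsetSum _ _).trans (Finset.sup_le fun S _ => ?_)
    by_cases hS : d < S.card
    · rw [hc S hS]
      simp
    · refine (totalDegree_mul _ _).trans ?_
      rw [totalDegree_C, zero_add]
      refine (totalDegree_finsetProd _ _).trans ?_
      simp only [totalDegree_X, Finset.sum_const, smul_eq_mul, mul_one]
      omega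
  · simp [ml, map_sum, map_prod]

theorem pow_le_sf (f : MvPolynomial ι ℂ) {p : ℝ} (hp : 0 ≤ p) (z : ι → ℂ) :
    ‖eval z f‖ ^ p ≤ sf f 1 z ^ (p / 2) := by
  have h : ‖eval z f‖ ^ p = (‖eval z f‖ ^ 2) ^ (p / 2) := by
    rw [← Real.rpow_natCast, ← Real.rpow_mul (norm_nonneg _)]
    congr 1
    push_cast
    ring
  rw [h]
  unfold sf
  exact Real.rpow_le_rpow (by positivity) (by linarith) (by positivity)

theorem eval_zz_integrable (f : MvPolynomial ι ℂ) {p : ℝ} (hp : 0 ≤ p) (η : ℝ) :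
    Integrable (fun w => ‖eval (zz η w) f‖ ^ p) (gam2 ι) := by
  refine (sf_integrable f one_pos (p / 2) η).mono' ?_ (ae_of_all _ fun w => ?_)
  · refine Continuous.aestronglyMeasurable ?_
    have h1 : Continuous (fun w : (ι → ℝ) × (ι → ℝ) => eval (zz η w) f) :=
      (MvPolynomial.continuous_eval f).comp (zzC_continuous η)
    exact h1.norm.rpow_const fun _ => Or.inr hp
  · rw [Real.norm_of_nonneg (by positivity)]
    exact pow_le_sf f hp _

theorem ml_integrable (c : Finset ι → ℂ) (p : ℝ) (hp : 0 ≤ p) :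
    Integrable (fun x : ι → ℝ => ‖ml c (fun j => ((x j : ℝ) : ℂ))‖ ^ p) (gam ι) := by
  obtain ⟨f, -, hf⟩ := ml_poly c (Fintype.card ι) (fun S hS => by
    exact absurd (Finset.card_le_univ S) (by omega))
  have h := eval_zz_integrable f hp 0
  simp only [zz_zero, hf] at h
  have h' : Integrable (fun w : (ι → ℝ) × (ι → ℝ) =>
      (fun x : ι → ℝ => ‖ml c (fun j => ((x j : ℝ) : ℂ))‖ ^ p) w.1)
        ((gam ι).prod (gam ι)) := h
  exact h'.of_comp_fst (IsProbabilityMeasure.ne_zero _)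

/-- one factor of the averaged product -/
noncomputable def gS (S : Finset ι) (a : ι → ℂ) (σ : ℂ) (i : ι) (t : ℝ) : ℂ :=
  if i ∈ S then a i + σ * (t : ℂ) else 1

theorem prod_gS (S : Finset ι) (a : ι → ℂ) (σ : ℂ) (y : ι → ℝ) :
    ∏ i ∈ S, (a i + σ * ((y i : ℝ) : ℂ)) = ∏ i, gS S a σ i (y i) := by
  simp [gS, Finset.prod_ite_mem]

theorem integrable_ofReal_gauss : Integrable (fun t : ℝ => (t : ℂ)) (gaussianReal 0 1) := by
  have h := (memLp_id_gaussianReal (μ := 0) (v := 1) 1).integrable (by simp)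
  exact h.ofReal

theorem integral_ofReal_gauss : ∫ t : ℝ, (t : ℂ) ∂(gaussianReal 0 1) = 0 := by
  have h := integral_id_gaussianReal (μ := 0) (v := 1)
  have h2 : ∫ t : ℝ, (t : ℂ) ∂(gaussianReal 0 1) = ((∫ t : ℝ, t ∂(gaussianReal 0 1) : ℝ) : ℂ) :=
    integral_ofReal
  rw [h2, h]
  simp

theorem gS_integrable (S : Finset ι) (a : ι → ℂ) (σ : ℂ) (i : ι) :
    Integrable (gS S a σ i) (gaussianReal 0 1) := by
  unfold gS
  by_cases hi : i ∈ S
  · simp only [hi, if_true]
    exact (integrable_const _).add (integrable_ofReal_gauss.const_mul σ)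
  · simp only [hi, if_false]
    exact integrable_const _

theorem gS_integral (S : Finset ι) (a : ι → ℂ) (σ : ℂ) (i : ι) :
    ∫ t, gS S a σ i t ∂(gaussianReal 0 1) = if i ∈ S then a i else 1 := by
  unfold gS
  by_cases hi : i ∈ S
  · simp only [hi, if_true]
    rw [integral_add (integrable_const _) (integrable_ofReal_gauss.const_mul σ),
      integral_const_mul, integral_ofReal_gauss]
    simp
  · simp [hi]

theorem prod_integrable (S : Finset ι) (a : ι → ℂ) (σ : ℂ) :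
    Integrable (fun y : ι → ℝ => ∏ i ∈ S, (a i + σ * ((y i : ℝ) : ℂ))) (gam ι) := by
  simp_rw [prod_gS]
  exact Integrable.fintype_prod fun i => gS_integrable S a σ i

theorem prod_integral (S : Finset ι) (a : ι → ℂ) (σ : ℂ) :
    ∫ y : ι → ℝ, ∏ i ∈ S, (a i + σ * ((y i : ℝ) : ℂ)) ∂(gam ι) = ∏ i ∈ S, a i := by
  simp_rw [prod_gS]
  unfold gam
  rw [integral_fintype_prod_eq_prod (gS S a σ)]
  simp_rw [gS_integral]
  simp [Finset.prod_ite_mem]

theorem ml_integrable_one (c : Finset ι → ℂ) (a : ι → ℂ) (σ : ℂ) :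
    Integrable (fun y : ι → ℝ => ml c (fun j => a j + σ * ((y j : ℝ) : ℂ))) (gam ι) := by
  unfold ml
  exact integrable_finsetSum _ fun S _ => (prod_integrable S a σ).const_mul _

/-- averaging in `y` -/
theorem integral_ml (c : Finset ι → ℂ) (a : ι → ℂ) (σ : ℂ) :
    ∫ y, ml c (fun j => a j + σ * ((y j : ℝ) : ℂ)) ∂(gam ι) = ml c a := by
  unfold ml
  rw [integral_finsetSum _ fun S _ => (prod_integrable S a σ).const_mul _]
  refine Finset.sum_congr rfl fun S _ => ?_
  rw [integral_const_mul, prod_integral]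

theorem ml_scale (c : Finset ι → ℂ) (ω : ℂ) (x : ι → ℂ) :
    ml (fun S => ω ^ S.card * c S) x = ml c (fun j => ω * x j) := by
  unfold ml
  refine Finset.sum_congr rfl fun S _ => ?_
  rw [Finset.prod_mul_distrib, Finset.prod_const]
  ring

/-- Jensen's inequality for the average over `y` -/
theorem norm_integral_rpow_le {p : ℝ} (hp : 1 ≤ p) (g : (ι → ℝ) → ℂ) (hg : Integrable g (gam ι))
    (hgp : Integrable (fun y => ‖g y‖ ^ p) (gam ι)) :
    ‖∫ y, g y ∂(gam ι)‖ ^ p ≤ ∫ y, ‖g y‖ ^ p ∂(gam ι) := by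
  have h1 : ‖∫ y, g y ∂(gam ι)‖ ≤ ∫ y, ‖g y‖ ∂(gam ι) := norm_integral_le_integral_norm _
  have h2 : (∫ y, ‖g y‖ ∂(gam ι)) ^ p ≤ ∫ y, ‖g y‖ ^ p ∂(gam ι) := by
    have hconv : ConvexOn ℝ (Set.Ici (0 : ℝ)) (fun t : ℝ => t ^ p) := convexOn_rpow hp
    have hcont : ContinuousOn (fun t : ℝ => t ^ p) (Set.Ici (0 : ℝ)) :=
      fun t _ => (Real.continuousAt_rpow_const t p (Or.inr (by linarith))).continuousWithinAt
    exact hconv.map_integral_le hcont isClosed_Ici (ae_of_all _ fun y => norm_nonneg (g y))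
      hg.norm hgp
  exact (Real.rpow_le_rpow (norm_nonneg _) h1 (by linarith)).trans h2

theorem cosh_eq_norm (θ η : ℝ) :
    ‖Complex.cos (θ + η * Complex.I)‖ ^ 2 + ‖1 - Complex.cos (θ + η * Complex.I) ^ 2‖ =
      Real.cosh (2 * η) := by
  have h1 : 1 - Complex.cos (θ + η * Complex.I) ^ 2 = Complex.sin (θ + η * Complex.I) ^ 2 := by
    rw [← Complex.sin_sq_add_cos_sq (θ + η * Complex.I)]
    ring
  have hc : Complex.cos (θ + η * Complex.I) = ((Real.cos θ * Real.cosh η : ℝ) : ℂ) +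
      ((-(Real.sin θ * Real.sinh η) : ℝ) : ℂ) * Complex.I := by
    rw [Complex.cos_add, Complex.cos_mul_I, Complex.sin_mul_I]
    push_cast
    ring
  have hs : Complex.sin (θ + η * Complex.I) = ((Real.sin θ * Real.cosh η : ℝ) : ℂ) +
      ((Real.cos θ * Real.sinh η : ℝ) : ℂ) * Complex.I := by
    rw [Complex.sin_add, Complex.cos_mul_I, Complex.sin_mul_I]
    push_cast
    ring
  rw [h1, norm_pow, hc, hs, ← Complex.normSq_eq_norm_sq, ← Complex.normSq_eq_norm_sq,
    Complex.normSq_add_mul_I, Complex.normSq_add_mul_I, Real.cosh_two_mul]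
  have h2 := Real.sin_sq_add_cos_sq θ
  linear_combination (Real.cosh η ^ 2 + Real.sinh η ^ 2) * h2

theorem rot_eq (θ η : ℝ) (w : (ι → ℝ) × (ι → ℝ)) :
    (fun j => Complex.cos (θ + η * Complex.I) * ((w.1 j : ℝ) : ℂ) +
      Complex.sin (θ + η * Complex.I) * ((w.2 j : ℝ) : ℂ)) =
    zz η ((fun j => Real.cos θ * w.1 j + Real.sin θ * w.2 j),
        (fun j => -Real.sin θ * w.1 j + Real.cos θ * w.2 j)) := by
  funext j
  simp only [zz]
  rw [Complex.cos_add, Complex.sin_add, Complex.cos_mul_I, Complex.sin_mul_I]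
  push_cast
  ring

theorem T_omega (c : Finset ι → ℂ) (d : ℕ) (hc : ∀ S : Finset ι, d < S.card → c S = 0)
    {p : ℝ} (hp : 2 ≤ p) (ω : ℂ) :
    ∫ x, ‖ml (fun S => ω ^ S.card * c S) (fun j => ((x j : ℝ) : ℂ))‖ ^ p ∂(gam ι) ≤
      (‖ω‖ ^ 2 + ‖1 - ω ^ 2‖) ^ (p * d / 2) *
        ∫ x, ‖ml c (fun j => ((x j : ℝ) : ℂ))‖ ^ p ∂(gam ι) := by
  obtain ⟨f, hfd, hf⟩ := ml_poly c d hc
  obtain ⟨ζ, hζ, hζ0⟩ : ∃ ζ : ℂ, Complex.cos ζ = ω ∧ 0 ≤ ζ.im := by
    obtain ⟨ζ, hζ⟩ := Complex.cos_surjective ω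
    rcases le_total 0 ζ.im with h | h
    · exact ⟨ζ, hζ, h⟩
    · exact ⟨-ζ, by rw [Complex.cos_neg, hζ], by simpa using h⟩
  set θ := ζ.re with hθ
  set η := ζ.im with hη
  have hζe : ζ = (θ : ℂ) + (η : ℂ) * Complex.I := (Complex.re_add_im ζ).symm
  rw [hζe] at hζ
  set σ := Complex.sin (θ + η * Complex.I) with hσ
  have hp0 : 0 ≤ p := by linarith
  -- the rotated function on the product space
  set G : (ι → ℝ) × (ι → ℝ) → ℝ := fun w =>
    ‖ml c (fun j => ω * ((w.1 j : ℝ) : ℂ) + σ * ((w.2 j : ℝ) : ℂ))‖ ^ p with hG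
  have hGrot : G = fun w => (fun w => ‖eval (zz η w) f‖ ^ p)
      ((fun j => Real.cos θ * w.1 j + Real.sin θ * w.2 j),
        (fun j => -Real.sin θ * w.1 j + Real.cos θ * w.2 j)) := by
    funext w
    simp only [hG]
    rw [hf, ← rot_eq, hζ]
  have hmp := rot_measurePreserving (ι := ι) θ
  have hint0 : Integrable (fun w => ‖eval (zz η w) f‖ ^ p) (gam2 ι) :=
    eval_zz_integrable f hp0 η
  have hGint : Integrable G (gam2 ι) := by
    rw [hGrot]
    exact hmp.integrable_comp_of_integrable hint0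
  have hGval : ∫ w, G w ∂(gam2 ι) = ∫ w, ‖eval (zz η w) f‖ ^ p ∂(gam2 ι) := by
    rw [hGrot]
    have h := integral_map (μ := gam2 ι) hmp.measurable.aemeasurable
      (f := fun w => ‖eval (zz η w) f‖ ^ p)
      (by rw [hmp.map_eq]; exact hint0.aestronglyMeasurable)
    rw [hmp.map_eq] at h
    exact h.symm
  have hfub : ∫ w, G w ∂(gam2 ι) = ∫ x, ∫ y, G (x, y) ∂(gam ι) ∂(gam ι) := by
    unfold gam2
    exact integral_prod _ hGint
  have hae : ∀ᵐ x ∂(gam ι), Integrable (fun y => G (x, y)) (gam ι) := hGint.prod_right_ae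
  have hstep : ∫ x, ‖ml (fun S => ω ^ S.card * c S) (fun j => ((x j : ℝ) : ℂ))‖ ^ p ∂(gam ι) ≤
      ∫ x, ∫ y, G (x, y) ∂(gam ι) ∂(gam ι) := by
    refine integral_mono_ae (ml_integrable _ p hp0) hGint.integral_prod_left ?_
    filter_upwards [hae] with x hx
    rw [ml_scale, ← integral_ml c (fun j => ω * ((x j : ℝ) : ℂ)) σ]
    exact norm_integral_rpow_le (by linarith) _ (ml_integrable_one c _ σ) hx
  refine hstep.trans ?_
  rw [← hfub, hGval, ← hζ, cosh_eq_norm]
  have h := gauss_one f d hfd hp η hζ0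
  simpa only [hf] using h

end RowD2

end Pool.Agent.Helper12.GM
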