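import Pool.Agent.Helper12.GM.Defs

/-! # Gauss-Markov project, row F1: the Taylor bound for `|a + h|^p` -/

set_option autoImplicit false

namespace Pool.Agent.Helper12.GM

open MeasureTheory ProbabilityTheory MvPolynomial
open scoped ComplexConjugate

/-- The second order Taylor bound for `(1 + s)^p` on `[-1/2, 1/2]`. -/
theorem taylor_one (p : ℝ) : ∃ C : ℝ, 0 ≤ C ∧ ∀ s : ℝ, |s| ≤ 1 / 2 →
    |(1 + s) ^ p - 1 - p * s - p * (p - 1) / 2 * s ^ 2| ≤ C * |s| ^ 3 := by
  -- the third derivative is bounded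
  have hcont : ContinuousOn (fun s : ℝ => (p - 2) * (1 + s) ^ (p - 3))
      (Set.Icc (-(1 / 2)) (1 / 2)) := by
    refine ContinuousOn.mul continuousOn_const ?_
    refine ContinuousOn.rpow_const (by fun_prop) ?_
    intro x hx
    left
    have := hx.1
    intro h
    linarith
  obtain ⟨M, hM⟩ := isCompact_Icc.exists_bound_of_continuousOn hcont
  have hM0 : 0 ≤ M := le_trans (norm_nonneg _) (hM 0 ⟨by norm_num, by norm_num⟩)
  have hd : ∀ (q y : ℝ), |y| ≤ 1 / 2 →
      HasDerivAt (fun s : ℝ => (1 + s) ^ q) (q * (1 + y) ^ (q - 1)) y := by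
    intro q y hy
    have h1 : HasDerivAt (fun s : ℝ => 1 + s) 1 y := by
      simpa using (hasDerivAt_id y).const_add 1
    have hne : (1 + y) ≠ 0 := by
      have := (abs_le.1 hy).1
      intro h
      linarith
    have h2 := h1.rpow_const (p := q) (Or.inl hne)
    convert h2 using 1
    ring
  -- first step
  have s1 : ∀ s : ℝ, |s| ≤ 1 / 2 → |(1 + s) ^ (p - 2) - 1| ≤ M * |s| := by
    intro s hs
    have hconv : Convex ℝ (Set.Icc (-|s|) |s|) := convex_Icc _ _
    have h0 : (0 : ℝ) ∈ Set.Icc (-|s|) |s| := ⟨by simp, by simp⟩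
    have h1 : s ∈ Set.Icc (-|s|) |s| := ⟨neg_abs_le s, le_abs_self s⟩
    have := hconv.norm_image_sub_le_of_norm_hasDerivWithin_le
      (f := fun s : ℝ => (1 + s) ^ (p - 2)) (f' := fun s : ℝ => (p - 2) * (1 + s) ^ (p - 2 - 1))
      (C := M) (fun y hy => (hd (p - 2) y ((abs_le.2 ⟨hy.1, hy.2⟩).trans hs)).hasDerivWithinAt)
      (fun y hy => by
        have h3 : |y| ≤ 1 / 2 := (abs_le.2 ⟨hy.1, hy.2⟩).trans hs
        have h4 := hM y ⟨(abs_le.1 h3).1, (abs_le.1 h3).2⟩
        have h5 : p - 2 - 1 = p - 3 := by ring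
        rw [h5]
        exact h4) h0 h1
    simpa [Real.norm_eq_abs] using this
  -- second step
  have s2 : ∀ s : ℝ, |s| ≤ 1 / 2 →
      |(1 + s) ^ (p - 1) - 1 - (p - 1) * s| ≤ (|p - 1| * M) * |s| ^ 2 := by
    intro s hs
    have hconv : Convex ℝ (Set.Icc (-|s|) |s|) := convex_Icc _ _
    have h0 : (0 : ℝ) ∈ Set.Icc (-|s|) |s| := ⟨by simp, by simp⟩
    have h1 : s ∈ Set.Icc (-|s|) |s| := ⟨neg_abs_le s, le_abs_self s⟩
    have := hconv.norm_image_sub_le_of_norm_hasDerivWithin_le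
      (f := fun s : ℝ => (1 + s) ^ (p - 1) - 1 - (p - 1) * s)
      (f' := fun s : ℝ => (p - 1) * ((1 + s) ^ (p - 2) - 1))
      (C := |p - 1| * M * |s|) (fun y hy => by
        have h3 : |y| ≤ 1 / 2 := (abs_le.2 ⟨hy.1, hy.2⟩).trans hs
        have h6 : HasDerivAt (fun s : ℝ => (1 + s) ^ (p - 1) - 1 - (p - 1) * s)
            ((p - 1) * (1 + y) ^ (p - 1 - 1) - (p - 1) * 1) y :=
          ((hd (p - 1) y h3).sub_const 1).sub ((hasDerivAt_id y).const_mul (p - 1))
        have h5 : p - 1 - 1 = p - 2 := by ring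
        rw [h5] at h6
        refine HasDerivAt.hasDerivWithinAt (h6.congr_deriv ?_)
        ring)
      (fun y hy => by
        have h2 : |y| ≤ |s| := abs_le.2 ⟨hy.1, hy.2⟩
        have h3 : |y| ≤ 1 / 2 := h2.trans hs
        have h4 := s1 y h3
        rw [Real.norm_eq_abs, abs_mul]
        calc |p - 1| * |(1 + y) ^ (p - 2) - 1| ≤ |p - 1| * (M * |y|) := by gcongr
          _ ≤ |p - 1| * (M * |s|) := by gcongr
          _ = |p - 1| * M * |s| := by ring) h0 h1
    have h7 : |p - 1| * M * |s| * |s| = |p - 1| * M * |s| ^ 2 := by ring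
    simp only [add_zero, Real.one_rpow, sub_self, mul_zero, sub_zero, Real.norm_eq_abs] at this
    rw [h7] at this
    exact this
  refine ⟨|p| * (|p - 1| * M), by positivity, ?_⟩
  intro s hs
  have hconv : Convex ℝ (Set.Icc (-|s|) |s|) := convex_Icc _ _
  have h0 : (0 : ℝ) ∈ Set.Icc (-|s|) |s| := ⟨by simp, by simp⟩
  have h1 : s ∈ Set.Icc (-|s|) |s| := ⟨neg_abs_le s, le_abs_self s⟩
  have := hconv.norm_image_sub_le_of_norm_hasDerivWithin_le
    (f := fun s : ℝ => (1 + s) ^ p - 1 - p * s - p * (p - 1) / 2 * s ^ 2)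
    (f' := fun s : ℝ => p * ((1 + s) ^ (p - 1) - 1 - (p - 1) * s))
    (C := |p| * (|p - 1| * M) * |s| ^ 2) (fun y hy => by
      have h3 : |y| ≤ 1 / 2 := (abs_le.2 ⟨hy.1, hy.2⟩).trans hs
      have h6 : HasDerivAt (fun s : ℝ => (1 + s) ^ p - 1 - p * s - p * (p - 1) / 2 * s ^ 2)
          (p * (1 + y) ^ (p - 1) - p * 1 - p * (p - 1) / 2 * (((2 : ℕ) : ℝ) * y ^ (2 - 1))) y :=
        (((hd p y h3).sub_const 1).sub
        ((hasDerivAt_id y).const_mul p)).sub
          ((hasDerivAt_pow 2 y).const_mul (p * (p - 1) / 2))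
      refine HasDerivAt.hasDerivWithinAt (h6.congr_deriv ?_)
      push_cast
      ring)
    (fun y hy => by
      have h2 : |y| ≤ |s| := abs_le.2 ⟨hy.1, hy.2⟩
      have h3 : |y| ≤ 1 / 2 := h2.trans hs
      have h4 := s2 y h3
      rw [Real.norm_eq_abs, abs_mul]
      calc |p| * |(1 + y) ^ (p - 1) - 1 - (p - 1) * y|
          ≤ |p| * ((|p - 1| * M) * |y| ^ 2) := by gcongr
        _ ≤ |p| * ((|p - 1| * M) * |s| ^ 2) := by gcongr
        _ = |p| * (|p - 1| * M) * |s| ^ 2 := by ring) h0 h1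
  have h7 : |p| * (|p - 1| * M) * |s| ^ 2 * |s| = |p| * (|p - 1| * M) * |s| ^ 3 := by ring
  simp only [add_zero, Real.one_rpow, sub_self, mul_zero, sub_zero, Real.norm_eq_abs,
    ne_eq, OfNat.ofNat_ne_zero, not_false_eq_true, zero_pow] at this
  rw [h7] at this
  exact this

theorem taylor_pow {p : ℝ} (hp : 2 < p) : ∃ C : ℝ, 0 < C ∧ ∀ a h : ℝ,
    |(|a + h| ^ p - |a| ^ p - p * |a| ^ (p - 2) * a * h
        - p * (p - 1) / 2 * |a| ^ (p - 2) * h ^ 2)| ≤
      C * (|a| ^ (p - min p 3) * |h| ^ (min p 3) + |h| ^ p) := by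
  obtain ⟨C, hC0, hC⟩ := taylor_one p
  have hq2 : 2 < min p 3 := lt_min hp (by norm_num)
  have hqp : min p 3 ≤ p := min_le_left _ _
  have hq3 : min p 3 ≤ 3 := min_le_right _ _
  have hp0 : 0 < p := by linarith
  refine ⟨C + (3 ^ p + 2 ^ p + p * 2 ^ (p - 1) + p * (p - 1) / 2 * 2 ^ (p - 2)), ?_, ?_⟩
  · have h1 : (0 : ℝ) < 3 ^ p := by positivity
    have h2 : (0 : ℝ) < 2 ^ p := by positivity
    have h3 : (0 : ℝ) ≤ p * 2 ^ (p - 1) := by positivity
    have h4 : (0 : ℝ) ≤ p * (p - 1) / 2 * 2 ^ (p - 2) := by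
      have : 0 ≤ p - 1 := by linarith
      positivity
    linarith
  intro a h
  have hD0 : (0 : ℝ) ≤ 3 ^ p + 2 ^ p + p * 2 ^ (p - 1) + p * (p - 1) / 2 * 2 ^ (p - 2) := by
    have : 0 ≤ p - 1 := by linarith
    positivity
  have hT1 : 0 ≤ |a| ^ (p - min p 3) * |h| ^ (min p 3) := by positivity
  have hT2 : 0 ≤ |h| ^ p := by positivity
  rcases le_or_gt |a| (2 * |h|) with hcase | hcase
  · -- |a| ≤ 2 |h|
    have e1 : |a + h| ^ p ≤ 3 ^ p * |h| ^ p := by
      rw [← Real.mul_rpow (by norm_num) (abs_nonneg h)]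
      refine Real.rpow_le_rpow (abs_nonneg _) ?_ hp0.le
      calc |a + h| ≤ |a| + |h| := abs_add_le a h
        _ ≤ 3 * |h| := by linarith
    have e2 : |a| ^ p ≤ 2 ^ p * |h| ^ p := by
      rw [← Real.mul_rpow (by norm_num) (abs_nonneg h)]
      exact Real.rpow_le_rpow (abs_nonneg _) hcase hp0.le
    have e3 : |p * |a| ^ (p - 2) * a * h| ≤ p * 2 ^ (p - 1) * |h| ^ p := by
      have h1 : |p * |a| ^ (p - 2) * a * h| = p * (|a| ^ (p - 2) * |a|) * |h| := by
        rw [abs_mul, abs_mul, abs_mul, abs_of_pos hp0,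
          abs_of_nonneg (Real.rpow_nonneg (abs_nonneg a) _)]
        ring
      have h2 : |a| ^ (p - 2) * |a| = |a| ^ (p - 1) := by
        rcases eq_or_lt_of_le (abs_nonneg a) with h0 | h0
        · rw [← h0, Real.zero_rpow (by linarith), Real.zero_rpow (by linarith)]
          ring
        · conv_lhs => rw [show |a| ^ (p - 2) * |a| = |a| ^ (p - 2) * |a| ^ (1 : ℝ) by
            rw [Real.rpow_one]]
          rw [← Real.rpow_add h0]
          congr 1
          ring
      have h3 : |a| ^ (p - 1) ≤ 2 ^ (p - 1) * |h| ^ (p - 1) := by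
        rw [← Real.mul_rpow (by norm_num) (abs_nonneg h)]
        exact Real.rpow_le_rpow (abs_nonneg _) hcase (by linarith)
      have h4 : |h| ^ (p - 1) * |h| = |h| ^ p := by
        rcases eq_or_lt_of_le (abs_nonneg h) with h0 | h0
        · rw [← h0, Real.zero_rpow (by linarith), Real.zero_rpow (by linarith)]
          ring
        · conv_lhs => rw [show |h| ^ (p - 1) * |h| = |h| ^ (p - 1) * |h| ^ (1 : ℝ) by
            rw [Real.rpow_one]]
          rw [← Real.rpow_add h0]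
          congr 1
          ring
      rw [h1, h2]
      calc p * |a| ^ (p - 1) * |h| ≤ p * (2 ^ (p - 1) * |h| ^ (p - 1)) * |h| := by gcongr
        _ = p * 2 ^ (p - 1) * (|h| ^ (p - 1) * |h|) := by ring
        _ = p * 2 ^ (p - 1) * |h| ^ p := by rw [h4]
    have e4 : |p * (p - 1) / 2 * |a| ^ (p - 2) * h ^ 2| ≤
        p * (p - 1) / 2 * 2 ^ (p - 2) * |h| ^ p := by
      have hpp : 0 ≤ p * (p - 1) / 2 := by
        have : 0 ≤ p - 1 := by linarith
        positivity
      have h1 : |p * (p - 1) / 2 * |a| ^ (p - 2) * h ^ 2| =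
          p * (p - 1) / 2 * |a| ^ (p - 2) * |h| ^ 2 := by
        rw [abs_mul, abs_mul, abs_of_nonneg hpp,
          abs_of_nonneg (Real.rpow_nonneg (abs_nonneg a) _), abs_pow]
      have h3 : |a| ^ (p - 2) ≤ 2 ^ (p - 2) * |h| ^ (p - 2) := by
        rw [← Real.mul_rpow (by norm_num) (abs_nonneg h)]
        exact Real.rpow_le_rpow (abs_nonneg _) hcase (by linarith)
      have h4 : |h| ^ (p - 2) * |h| ^ 2 = |h| ^ p := by
        rcases eq_or_lt_of_le (abs_nonneg h) with h0 | h0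
        · rw [← h0, Real.zero_rpow (by linarith), Real.zero_rpow (by linarith)]
          ring
        · rw [← Real.rpow_natCast, ← Real.rpow_add h0]
          congr 1
          push_cast
          ring
      rw [h1]
      calc p * (p - 1) / 2 * |a| ^ (p - 2) * |h| ^ 2
          ≤ p * (p - 1) / 2 * (2 ^ (p - 2) * |h| ^ (p - 2)) * |h| ^ 2 := by gcongr
        _ = p * (p - 1) / 2 * 2 ^ (p - 2) * (|h| ^ (p - 2) * |h| ^ 2) := by ring
        _ = p * (p - 1) / 2 * 2 ^ (p - 2) * |h| ^ p := by rw [h4]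
    have e5 : |(|a + h| ^ p - |a| ^ p - p * |a| ^ (p - 2) * a * h
        - p * (p - 1) / 2 * |a| ^ (p - 2) * h ^ 2)| ≤
        |a + h| ^ p + |a| ^ p + |p * |a| ^ (p - 2) * a * h|
          + |p * (p - 1) / 2 * |a| ^ (p - 2) * h ^ 2| := by
      have g1 : 0 ≤ |a + h| ^ p := by positivity
      have g2 : 0 ≤ |a| ^ p := by positivity
      have g3 := le_abs_self (p * |a| ^ (p - 2) * a * h)
      have g4 := neg_abs_le (p * |a| ^ (p - 2) * a * h)
      have g5 := le_abs_self (p * (p - 1) / 2 * |a| ^ (p - 2) * h ^ 2)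
      have g6 := neg_abs_le (p * (p - 1) / 2 * |a| ^ (p - 2) * h ^ 2)
      rw [abs_le]
      constructor <;> linarith
    have e6 : |(|a + h| ^ p - |a| ^ p - p * |a| ^ (p - 2) * a * h
        - p * (p - 1) / 2 * |a| ^ (p - 2) * h ^ 2)| ≤
        (3 ^ p + 2 ^ p + p * 2 ^ (p - 1) + p * (p - 1) / 2 * 2 ^ (p - 2)) * |h| ^ p := by
      refine e5.trans ?_
      have : (3 ^ p + 2 ^ p + p * 2 ^ (p - 1) + p * (p - 1) / 2 * 2 ^ (p - 2)) * |h| ^ p =
        3 ^ p * |h| ^ p + 2 ^ p * |h| ^ p + p * 2 ^ (p - 1) * |h| ^ p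
          + p * (p - 1) / 2 * 2 ^ (p - 2) * |h| ^ p := by ring
      rw [this]
      linarith
    refine e6.trans ?_
    refine mul_le_mul (by linarith) (by linarith) hT2 (by linarith)
  · -- 2 |h| < |a|
    have ha : 0 < |a| := lt_of_le_of_lt (by positivity) hcase
    have ha0 : a ≠ 0 := abs_pos.1 ha
    set s : ℝ := h / a with hs_def
    have hh : h = a * s := by
      rw [hs_def]
      field_simp
    have hsabs : |s| = |h| / |a| := by rw [hs_def, abs_div]
    have hs : |s| ≤ 1 / 2 := by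
      rw [hsabs, div_le_iff₀ ha]
      linarith
    have h1s : 0 < 1 + s := by
      have := (abs_le.1 hs).1
      linarith
    have e1 : |a + h| ^ p = |a| ^ p * (1 + s) ^ p := by
      have : a + h = a * (1 + s) := by rw [hh]; ring
      rw [this, abs_mul, abs_of_pos h1s, Real.mul_rpow (abs_nonneg a) h1s.le]
    have e2 : |a| ^ (p - 2) * |a| ^ 2 = |a| ^ p := by
      rw [← Real.rpow_natCast, ← Real.rpow_add ha]
      congr 1
      push_cast
      ring
    have e3 : p * |a| ^ (p - 2) * a * h = |a| ^ p * (p * s) := by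
      rw [hh, ← e2, sq_abs]
      ring
    have e4 : p * (p - 1) / 2 * |a| ^ (p - 2) * h ^ 2 = |a| ^ p * (p * (p - 1) / 2 * s ^ 2) := by
      rw [hh, ← e2, sq_abs]
      ring
    have e5 : |a + h| ^ p - |a| ^ p - p * |a| ^ (p - 2) * a * h
        - p * (p - 1) / 2 * |a| ^ (p - 2) * h ^ 2 =
        |a| ^ p * ((1 + s) ^ p - 1 - p * s - p * (p - 1) / 2 * s ^ 2) := by
      rw [e1, e3, e4]
      ring
    have e6 : |a| ^ p * |s| ^ (min p 3) = |a| ^ (p - min p 3) * |h| ^ (min p 3) := by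
      rw [hsabs, Real.div_rpow (abs_nonneg h) (abs_nonneg a), Real.rpow_sub ha]
      ring
    have e7 : |s| ^ 3 ≤ |s| ^ (min p 3) := by
      rcases eq_or_lt_of_le (abs_nonneg s) with h0 | h0
      · rw [← h0, Real.zero_rpow (by linarith)]
        norm_num
      · rw [← Real.rpow_natCast]
        refine Real.rpow_le_rpow_of_exponent_ge h0 (by linarith) ?_
        push_cast
        exact hq3
    rw [e5, abs_mul, abs_of_nonneg (Real.rpow_nonneg (abs_nonneg a) p)]
    calc |a| ^ p * |(1 + s) ^ p - 1 - p * s - p * (p - 1) / 2 * s ^ 2|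
        ≤ |a| ^ p * (C * |s| ^ 3) := by
          have := hC s hs
          gcongr
      _ ≤ |a| ^ p * (C * |s| ^ (min p 3)) := by gcongr
      _ = C * (|a| ^ p * |s| ^ (min p 3)) := by ring
      _ = C * (|a| ^ (p - min p 3) * |h| ^ (min p 3)) := by rw [e6]
      _ ≤ (C + (3 ^ p + 2 ^ p + p * 2 ^ (p - 1) + p * (p - 1) / 2 * 2 ^ (p - 2))) *
          (|a| ^ (p - min p 3) * |h| ^ (min p 3) + |h| ^ p) := by
          refine mul_le_mul (by linarith) (by linarith) hT1 (by linarith)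

end Pool.Agent.Helper12.GM
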