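import Pool.Agent.Helper12.GM.RowB

/-! # Gauss-Markov project, row G1: the pointwise identity

`nb_one`, `BG_real`, `AG_le_BG`. -/

set_option autoImplicit false
set_option linter.unusedSectionVars false

namespace Pool.Agent.Helper12.GM

open MeasureTheory ProbabilityTheory MvPolynomial
open scoped ComplexConjugate

section

variable {ι : Type} [Fintype ι] [DecidableEq ι]

theorem nOp_one : nOp (1 : MvPolynomial ι ℂ) = 0 := by
  unfold nOp
  refine Finset.sum_eq_zero fun j _ => ?_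
  rw [pderiv_one, map_zero, mul_zero, sub_zero]

theorem gm_one (v : MvPolynomial ι ℂ) : gm 1 v = 0 := by
  unfold gm
  exact Finset.sum_eq_zero fun j _ => by rw [pderiv_one, zero_mul]

theorem conj_el (f : MvPolynomial ι ℂ) (ε : ℝ) (u v : MvPolynomial ι ℂ) (a : ℝ) (z : ι → ℂ) :
    conj (el f ε u v a z) = el f ε v u a z := by
  unfold el
  rw [map_mul, map_mul, Complex.conj_conj, Complex.conj_ofReal, mul_comm (conj (eval z u))]

theorem nb_one (f : MvPolynomial ι ℂ) (ε κ : ℝ) (z : ι → ℂ) :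
    nb f ε 1 1 κ z = conj (AG f ε κ z) := by
  unfold nb AG
  rw [nOp_one, gm_one, map_sub, map_mul, map_mul, map_mul, conj_el, conj_el, map_sub, map_one,
    Complex.conj_ofReal, one_mul, one_mul, one_mul, one_mul, mul_zero, sub_zero]
  have h : el f ε 1 0 κ z = 0 := by
    unfold el
    rw [map_zero, map_zero, mul_zero, zero_mul]
  rw [h, zero_add]

/-- `N (f^2) = 2 f N f - 2 Q` -/
theorem nOp_sq (f : MvPolynomial ι ℂ) : nOp (f ^ 2) = 2 * f * nOp f - 2 * gm f f := by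
  unfold nOp gm
  rw [Finset.mul_sum, Finset.mul_sum, ← Finset.sum_sub_distrib]
  refine Finset.sum_congr rfl fun j _ => ?_
  have h1 : pderiv j (f ^ 2) = 2 * f * pderiv j f := by
    rw [pow_two, Derivation.leibniz, smul_eq_mul]
    ring
  have h2 : pderiv j (2 : MvPolynomial ι ℂ) = 0 := by
    have h3 : (2 : MvPolynomial ι ℂ) = C 2 := (map_ofNat C 2).symm
    rw [h3, pderiv_C]
  rw [h1, Derivation.leibniz, Derivation.leibniz, h2]
  simp only [smul_eq_mul]
  ring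

theorem gm_sq (f : MvPolynomial ι ℂ) : gm (f ^ 2) f = 2 * f * gm f f := by
  unfold gm
  rw [Finset.mul_sum]
  refine Finset.sum_congr rfl fun j _ => ?_
  rw [pow_two, Derivation.leibniz, smul_eq_mul]
  ring

/-- the values: `F = f(z)`, `A = N f (z)`, `Q = gm f f (z)` -/
theorem BG_eq (f : MvPolynomial ι ℂ) (ε κ : ℝ) (z : ι → ℂ) :
    BG f ε κ z = (κ : ℂ) * (
        eval z (nOp f) * conj (eval z (nOp f)) * ((sf f ε z ^ (κ - 1) : ℝ) : ℂ) +
        ((κ : ℂ) - 1) * (eval z (nOp f) * eval z f *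
          conj (eval z f * eval z (nOp f) - 2 * eval z (gm f f))) * ((sf f ε z ^ (κ - 2) : ℝ) : ℂ) -
        ((κ : ℂ) - 1) * ((κ : ℂ) - 2) * (eval z (nOp f) * eval z f ^ 2 *
          conj (eval z f * eval z (gm f f))) * ((sf f ε z ^ (κ - 3) : ℝ) : ℂ)) -
      (κ : ℂ) * ((κ : ℂ) - 1) * (
        eval z (gm f f) * conj (2 * eval z f * eval z (nOp f) - 2 * eval z (gm f f)) *
          ((sf f ε z ^ (κ - 2) : ℝ) : ℂ) +
        ((κ : ℂ) - 2) * (eval z (gm f f) * eval z f *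
          conj (eval z f ^ 2 * eval z (nOp f) - 4 * eval z f * eval z (gm f f))) *
          ((sf f ε z ^ (κ - 3) : ℝ) : ℂ) -
        ((κ : ℂ) - 2) * ((κ : ℂ) - 3) * (eval z (gm f f) * eval z f ^ 2 *
          conj (eval z f ^ 2 * eval z (gm f f))) * ((sf f ε z ^ (κ - 4) : ℝ) : ℂ)) := by
  unfold BG nb
  rw [nOp_sq, gm_sq]
  unfold el
  have e1 : κ - 1 - 1 = κ - 2 := by ring
  have e2 : κ - 1 - 2 = κ - 3 := by ring
  have e3 : κ - 2 - 1 = κ - 3 := by ring
  have e4 : κ - 2 - 2 = κ - 4 := by ring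
  rw [e1, e2, e3, e4]
  simp only [map_mul, map_sub, map_pow, map_ofNat, Complex.ofReal_sub, Complex.ofReal_one, Complex.ofReal_ofNat]
  ring

/-- the powers of `s` -/
theorem rpow_shift {s : ℝ} (hs : 0 < s) (κ : ℝ) :
    s ^ κ = s ^ (κ - 4) * s ^ 4 ∧ s ^ (κ - 1) = s ^ (κ - 4) * s ^ 3 ∧ s ^ (κ - 2) = s ^ (κ - 4) * s ^ 2 ∧
      s ^ (κ - 3) = s ^ (κ - 4) * s := by
  have h : ∀ n : ℕ, s ^ (κ - 4 + n) = s ^ (κ - 4) * s ^ n := fun n => Real.rpow_add_natCast hs.ne' _ n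
  refine ⟨?_, ?_, ?_, ?_⟩
  · rw [← h 4]
    congr 1
    push_cast
    ring
  · rw [← h 3]
    congr 1
    push_cast
    ring
  · rw [← h 2]
    congr 1
    push_cast
    ring
  · have h1 := h 1
    rw [pow_one] at h1
    rw [← h1]
    congr 1
    push_cast
    ring

theorem BG_conj (f : MvPolynomial ι ℂ) {ε : ℝ} (hε : 0 < ε) (κ : ℝ) (z : ι → ℂ) :
    conj (BG f ε κ z) = BG f ε κ z := by
  rw [BG_eq]
  obtain ⟨-, h1, h2, h3⟩ := rpow_shift (sf_pos f hε z) κ
  rw [h1, h2, h3]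
  have hs := sf_complex f ε z
  generalize sf f ε z ^ (κ - 4) = T
  generalize sf f ε z = s at hs
  generalize eval z f = F at hs
  generalize eval z (nOp f) = A
  generalize eval z (gm f f) = Q
  simp only [map_mul, map_sub, map_add, map_pow, map_ofNat, map_one, Complex.conj_conj, Complex.conj_ofReal,
    Complex.ofReal_mul, Complex.ofReal_pow]
  rw [hs]
  ring

theorem BG_real (f : MvPolynomial ι ℂ) {ε : ℝ} (hε : 0 < ε) (κ : ℝ) (z : ι → ℂ) :
    (BG f ε κ z).im = 0 := Complex.conj_eq_iff_im.1 (BG_conj f hε κ z)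

/-- the pointwise identity -/
theorem BG_identity (f : MvPolynomial ι ℂ) {ε : ℝ} (hε : 0 < ε) (κ : ℝ) (z : ι → ℂ) :
    ((sf f ε z ^ κ : ℝ) : ℂ) * BG f ε κ z = AG f ε κ z * conj (AG f ε κ z) +
      (κ : ℂ) * (ε : ℂ) * (((sf f ε z ^ (κ - 4) : ℝ) : ℂ) ^ 2 * ((sf f ε z : ℝ) : ℂ) ^ 4) *
        ((((sf f ε z : ℝ) : ℂ) * eval z (nOp f) - 2 * ((κ : ℂ) - 1) * conj (eval z f) * eval z (gm f f)) *
          conj (((sf f ε z : ℝ) : ℂ) * eval z (nOp f) - 2 * ((κ : ℂ) - 1) * conj (eval z f) * eval z (gm f f)) +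
        2 * ((κ : ℂ) - 1) * (ε : ℂ) * (eval z (gm f f) * conj (eval z (gm f f)))) := by
  rw [BG_eq]
  unfold AG el
  obtain ⟨h0, h1, h2, h3⟩ := rpow_shift (sf_pos f hε z) κ
  rw [h0, h1, h2, h3]
  have hs := sf_complex f ε z
  generalize sf f ε z ^ (κ - 4) = T
  generalize sf f ε z = s at hs
  generalize eval z (nOp f) = A
  generalize eval z (gm f f) = Q
  simp only [map_mul, map_sub, map_pow, map_ofNat, map_one, Complex.conj_conj, Complex.conj_ofReal,
    Complex.ofReal_mul, Complex.ofReal_pow]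
  generalize eval z f = F at hs
  rw [hs]
  ring

theorem AG_le_BG (f : MvPolynomial ι ℂ) {ε : ℝ} (hε : 0 < ε) {κ : ℝ} (hκ : 1 ≤ κ)
    (z : ι → ℂ) : ‖AG f ε κ z‖ ^ 2 ≤ sf f ε z ^ κ * (BG f ε κ z).re := by
  have h := BG_identity f hε κ z
  have hb : BG f ε κ z = ((BG f ε κ z).re : ℂ) := by
    apply Complex.ext
    · simp
    · simp [BG_real f hε κ z]
  rw [hb] at h
  simp only [Complex.mul_conj, Complex.normSq_eq_norm_sq] at h
  have h2 : sf f ε z ^ κ * (BG f ε κ z).re = ‖AG f ε κ z‖ ^ 2 +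
      κ * ε * ((sf f ε z ^ (κ - 4)) ^ 2 * sf f ε z ^ 4) *
        (‖((sf f ε z : ℝ) : ℂ) * eval z (nOp f) - 2 * ((κ : ℂ) - 1) * conj (eval z f) * eval z (gm f f)‖ ^ 2 +
        2 * (κ - 1) * ε * ‖eval z (gm f f)‖ ^ 2) := by
    apply Complex.ofReal_injective
    push_cast
    push_cast at h
    exact h
  rw [h2]
  have h3 : 0 ≤ κ - 1 := by linarith
  have h4 : 0 < sf f ε z := sf_pos f hε z
  have h5 : 0 ≤ κ := by linarith
  have h6 : 0 ≤ 2 * (κ - 1) * ε * ‖eval z (gm f f)‖ ^ 2 := by positivity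
  refine le_add_of_nonneg_right ?_
  positivity

end

end Pool.Agent.Helper12.GM
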