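import Pool.Agent.Helper12.GM.Defs

/-! # Gauss-Markov project: the growth lemma -/

set_option autoImplicit false

namespace Pool.Agent.Helper12.GM

lemma tanh_two_nonneg {η : ℝ} (hη : 0 ≤ η) : 0 ≤ Real.tanh (2 * η) := by
  rw [Real.tanh_eq_sinh_div_cosh]
  exact div_nonneg (Real.sinh_nonneg_iff.2 (by linarith)) (Real.cosh_pos _).le

lemma hasDerivAt_logCosh (η : ℝ) :
    HasDerivAt (fun η => Real.log (Real.cosh (2 * η))) (2 * Real.tanh (2 * η)) η := by
  have h1 : HasDerivAt (fun η : ℝ => 2 * η) 2 η := by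
    simpa using (hasDerivAt_id η).const_mul (2 : ℝ)
  have h2 : HasDerivAt (fun η => Real.cosh (2 * η)) (Real.sinh (2 * η) * 2) η :=
    (Real.hasDerivAt_cosh (2 * η)).comp η h1
  have h3 := h2.log (Real.cosh_pos _).ne'
  rw [Real.tanh_eq_sinh_div_cosh]
  convert h3 using 1
  ring

lemma le_logCosh (η : ℝ) : 2 * η - Real.log 2 ≤ Real.log (Real.cosh (2 * η)) := by
  have h1 : Real.exp (2 * η) / 2 ≤ Real.cosh (2 * η) := by
    rw [Real.cosh_eq]
    have := Real.exp_pos (-(2 * η))
    linarith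
  have h2 := Real.log_le_log (by positivity) h1
  rwa [Real.log_div (Real.exp_pos _).ne' two_ne_zero, Real.log_exp] at h2

/-- real-variable lemma -/
theorem ode_bound (Φ a b : ℝ → ℝ) (m C : ℝ) (hΦ : ∀ η, 0 < Φ η)
    (h1 : ∀ η, HasDerivAt Φ (2 * Real.tanh (2 * η) * a η) η)
    (h2 : ∀ η, HasDerivAt a (2 * Real.tanh (2 * η) * b η) η)
    (hab : ∀ η, a η ^ 2 ≤ Φ η * b η)
    (hg : ∀ η, 0 ≤ η → Φ η ≤ C * Real.cosh (2 * η) ^ m) (η : ℝ) (hη : 0 ≤ η) :
    Φ η ≤ Real.cosh (2 * η) ^ m * Φ 0 := by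
  obtain ⟨R, hR⟩ : ∃ R : ℝ → ℝ, R = fun η => a η / Φ η := ⟨_, rfl⟩
  obtain ⟨l, hl⟩ : ∃ l : ℝ → ℝ, l = fun η => Real.log (Real.cosh (2 * η)) := ⟨_, rfl⟩
  have hld : ∀ η, HasDerivAt l (2 * Real.tanh (2 * η)) η := by
    intro η
    rw [hl]
    exact hasDerivAt_logCosh η
  have hRd : ∀ η, HasDerivAt R
      ((2 * Real.tanh (2 * η) * b η * Φ η - a η * (2 * Real.tanh (2 * η) * a η)) / Φ η ^ 2) η := by
    intro η
    rw [hR]
    exact (h2 η).div (h1 η) (hΦ η).ne'
  have hRm : MonotoneOn R (Set.Ici 0) := by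
    refine monotoneOn_of_deriv_nonneg (convex_Ici 0)
      (fun x _ => (hRd x).continuousAt.continuousWithinAt)
      (fun x _ => (hRd x).differentiableAt.differentiableWithinAt) ?_
    intro x hx
    rw [interior_Ici] at hx
    rw [(hRd x).deriv]
    refine div_nonneg ?_ (sq_nonneg _)
    have h3 := hab x
    have h4 := tanh_two_nonneg (le_of_lt hx)
    have h5 : 2 * Real.tanh (2 * x) * b x * Φ x - a x * (2 * Real.tanh (2 * x) * a x) =
        2 * Real.tanh (2 * x) * (Φ x * b x - a x ^ 2) := by ring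
    rw [h5]
    exact mul_nonneg (by linarith) (by linarith)
  have hΦl : ∀ η, HasDerivAt (fun η => Real.log (Φ η)) (2 * Real.tanh (2 * η) * R η) η := by
    intro η
    have h3 := (h1 η).log (hΦ η).ne'
    rw [hR]
    convert h3 using 1
    ring
  have hC : 0 < C := by
    have h3 := hg 0 le_rfl
    rw [mul_zero, Real.cosh_zero, Real.one_rpow, mul_one] at h3
    exact lt_of_lt_of_le (hΦ 0) h3
  have hup : ∀ η, 0 ≤ η → Real.log (Φ η) ≤ Real.log C + m * l η := by
    intro η hη
    have h3 := Real.log_le_log (hΦ η) (hg η hη)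
    rwa [Real.log_mul hC.ne' (Real.rpow_pos_of_pos (Real.cosh_pos _) _).ne',
      Real.log_rpow (Real.cosh_pos _), ← congrFun hl η] at h3
  have hRle : ∀ η, 0 ≤ η → R η ≤ m := by
    intro y hy
    by_contra hcon
    rw [not_le] at hcon
    have hmono : MonotoneOn (fun η => Real.log (Φ η) - R y * l η) (Set.Ici y) := by
      have hd : ∀ η, HasDerivAt (fun η => Real.log (Φ η) - R y * l η)
          (2 * Real.tanh (2 * η) * R η - R y * (2 * Real.tanh (2 * η))) η := fun η =>
        (hΦl η).sub ((hld η).const_mul (R y))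
      refine monotoneOn_of_deriv_nonneg (convex_Ici y)
        (fun x _ => (hd x).continuousAt.continuousWithinAt)
        (fun x _ => (hd x).differentiableAt.differentiableWithinAt) ?_
      intro x hx
      rw [interior_Ici] at hx
      rw [(hd x).deriv]
      have hx' : y ≤ x := le_of_lt hx
      have h3 := hRm (Set.mem_Ici.2 hy) (Set.mem_Ici.2 (hy.trans hx')) hx'
      have h4 := tanh_two_nonneg (hy.trans hx')
      have h5 : 2 * Real.tanh (2 * x) * R x - R y * (2 * Real.tanh (2 * x)) =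
          2 * Real.tanh (2 * x) * (R x - R y) := by ring
      rw [h5]
      exact mul_nonneg (by linarith) (by linarith)
    obtain ⟨K, hK⟩ : ∃ K : ℝ, K = Real.log C - (Real.log (Φ y) - R y * l y) := ⟨_, rfl⟩
    have hb : ∀ x, y ≤ x → (R y - m) * l x ≤ K := by
      intro x hx
      have h3 := hmono (Set.mem_Ici.2 le_rfl) (Set.mem_Ici.2 hx) hx
      have h4 := hup x (hy.trans hx)
      simp only at h3
      rw [hK]
      linarith
    obtain ⟨x, hx⟩ : ∃ x : ℝ, x = y + (|K| / (R y - m) + Real.log 2 + 1) := ⟨_, rfl⟩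
    have hpos : 0 < R y - m := by linarith
    have hq : 0 ≤ |K| / (R y - m) := div_nonneg (abs_nonneg _) hpos.le
    have hlog2 : 0 ≤ Real.log 2 := Real.log_nonneg (by norm_num)
    have hyx : y ≤ x := by rw [hx]; linarith
    have h3 := hb x hyx
    have h4 : |K| / (R y - m) + 1 ≤ l x := by
      have h5 := le_logCosh x
      rw [hl]
      simp only
      linarith
    have h5 : (R y - m) * (|K| / (R y - m) + 1) ≤ K :=
      (mul_le_mul_of_nonneg_left h4 hpos.le).trans h3
    have h6 : (R y - m) * (|K| / (R y - m) + 1) = |K| + (R y - m) := by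
      field_simp
    have h7 := le_abs_self K
    linarith
  have hanti : AntitoneOn (fun η => Real.log (Φ η) - m * l η) (Set.Ici 0) := by
    have hd : ∀ η, HasDerivAt (fun η => Real.log (Φ η) - m * l η)
        (2 * Real.tanh (2 * η) * R η - m * (2 * Real.tanh (2 * η))) η := fun η =>
      (hΦl η).sub ((hld η).const_mul m)
    refine antitoneOn_of_deriv_nonpos (convex_Ici 0)
      (fun x _ => (hd x).continuousAt.continuousWithinAt)
      (fun x _ => (hd x).differentiableAt.differentiableWithinAt) ?_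
    intro x hx
    rw [interior_Ici] at hx
    rw [(hd x).deriv]
    have hx' : (0 : ℝ) ≤ x := le_of_lt hx
    have h3 := hRle x hx'
    have h4 := tanh_two_nonneg hx'
    have h5 : 2 * Real.tanh (2 * x) * R x - m * (2 * Real.tanh (2 * x)) =
        -(2 * Real.tanh (2 * x) * (m - R x)) := by ring
    rw [h5, neg_nonpos]
    exact mul_nonneg (by linarith) (by linarith)
  have h3 := hanti (Set.mem_Ici.2 le_rfl) (Set.mem_Ici.2 hη) hη
  have h4 : l 0 = 0 := by
    rw [hl]
    simp
  simp only [h4, mul_zero, sub_zero] at h3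
  have h5 : Real.log (Φ η) ≤ Real.log (Real.cosh (2 * η) ^ m * Φ 0) := by
    rw [Real.log_mul (Real.rpow_pos_of_pos (Real.cosh_pos _) _).ne' (hΦ 0).ne',
      Real.log_rpow (Real.cosh_pos _), ← congrFun hl η]
    linarith
  exact (Real.log_le_log_iff (hΦ η)
    (mul_pos (Real.rpow_pos_of_pos (Real.cosh_pos _) _) (hΦ 0))).1 h5

end Pool.Agent.Helper12.GM
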