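import Pool.Agent.Helper12.GM.RowC
import Pool.Agent.Helper12.GM.RowG1
import Pool.Agent.Helper12.GM.RowG2

/-! # Gauss-Markov project, row G3: growth and the one-parameter inequality -/

set_option autoImplicit false
set_option linter.unusedSectionVars false

namespace Pool.Agent.Helper12.GM

open MeasureTheory ProbabilityTheory MvPolynomial
open scoped ComplexConjugate

section RowG3

variable {ι : Type} [Fintype ι] [DecidableEq ι]

theorem sf_ge (f : MvPolynomial ι ℂ) (ε : ℝ) (z : ι → ℂ) : ε ≤ sf f ε z := by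
  unfold sf
  have := sq_nonneg ‖eval z f‖
  linarith

theorem el_one (f : MvPolynomial ι ℂ) (ε κ : ℝ) (z : ι → ℂ) :
    el f ε 1 1 κ z = ((sf f ε z ^ κ : ℝ) : ℂ) := by
  simp [el]

theorem sf_integrable (f : MvPolynomial ι ℂ) {ε : ℝ} (hε : 0 < ε) (κ η : ℝ) :
    Integrable (fun w => sf f ε (zz η w) ^ κ) (gam2 ι) := by
  have h := (el_integrable f hε 1 1 κ η).re
  refine h.congr (ae_of_all _ fun w => ?_)
  simp only [el_one]
  exact Complex.ofReal_re _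

theorem zz_norm_cosh (η : ℝ) (w : (ι → ℝ) × (ι → ℝ)) (j : ι) :
    ‖zz η w j‖ ≤ Real.cosh η * wsum w := by
  have h := zz_norm_le η |η| le_rfl w
  have h1 : ‖zz η w j‖ ≤ ∑ j, ‖zz η w j‖ :=
    Finset.single_le_sum (f := fun j => ‖zz η w j‖) (fun i _ => norm_nonneg _) (Finset.mem_univ j)
  rw [Real.cosh_abs] at h
  exact h1.trans h

theorem eval_growth_deg (f : MvPolynomial ι ℂ) (d : ℕ) (hf : f.totalDegree ≤ d) :
    ∃ A : ℝ, 0 ≤ A ∧ ∀ (z : ι → ℂ) (R : ℝ), 1 ≤ R → (∀ j, ‖z j‖ ≤ R) →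
      ‖eval z f‖ ≤ A * R ^ d := by
  refine ⟨∑ m ∈ f.support, ‖coeff m f‖, by positivity, fun z R hR hz => ?_⟩
  rw [eval_eq, Finset.sum_mul]
  refine (norm_sum_le _ _).trans (Finset.sum_le_sum fun m hm => ?_)
  rw [norm_mul, norm_prod]
  have h1 : ∏ i, ‖z i ^ m i‖ ≤ ∏ i, R ^ m i := by
    refine Finset.prod_le_prod (fun i _ => norm_nonneg _) fun i _ => ?_
    rw [norm_pow]
    exact pow_le_pow_left₀ (norm_nonneg _) (hz i) _
  have h2 : ∏ i, R ^ m i = R ^ (∑ i, m i) := Finset.prod_pow_eq_pow_sum _ _ _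
  have h3 : ∑ i, m i ≤ d := by
    have := le_totalDegree hm
    rw [Finsupp.sum_fintype _ _ (fun _ => rfl)] at this
    exact this.trans hf
  have h4 : R ^ (∑ i, m i) ≤ R ^ d := pow_le_pow_right₀ hR h3
  have h5 : ∏ i ∈ m.support, ‖z i ^ m i‖ = ∏ i, ‖z i ^ m i‖ := by
    refine Finset.prod_subset (Finset.subset_univ _) fun i _ hi => ?_
    rw [Finsupp.notMem_support_iff.1 hi]
    simp
  rw [h5]
  gcongr
  exact h1.trans (h2.le.trans h4)

theorem sf_growth (f : MvPolynomial ι ℂ) (d : ℕ) (hf : f.totalDegree ≤ d) {ε κ : ℝ}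
    (hε : 0 < ε) (hκ : 0 ≤ κ) :
    ∃ C : ℝ, ∀ η, 0 ≤ η → ∫ w, sf f ε (zz η w) ^ κ ∂(gam2 ι) ≤
      C * Real.cosh (2 * η) ^ (κ * d) := by
  obtain ⟨A, hA, hb⟩ := eval_growth_deg f d hf
  refine ⟨(A ^ 2 + ε) ^ κ * ∫ w, Real.exp (2 * (κ * d) * ∑ j, (|w.1 j| + |w.2 j|)) ∂(gam2 ι),
    fun η hη => ?_⟩
  have hcosh1 : 1 ≤ Real.cosh η := Real.one_le_cosh η
  have key : ∀ w : (ι → ℝ) × (ι → ℝ), sf f ε (zz η w) ^ κ ≤
      (A ^ 2 + ε) ^ κ * Real.cosh (2 * η) ^ (κ * d) *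
        Real.exp (2 * (κ * d) * ∑ j, (|w.1 j| + |w.2 j|)) := by
    intro w
    have hw : 0 ≤ wsum w := wsum_nonneg w
    have hR : 1 ≤ Real.cosh η * Real.exp (wsum w) := by
      have := Real.one_le_exp hw
      nlinarith
    have h1 : ‖eval (zz η w) f‖ ≤ A * (Real.cosh η * Real.exp (wsum w)) ^ d := by
      refine hb _ _ hR fun j => (zz_norm_cosh η w j).trans ?_
      have := Real.add_one_le_exp (wsum w)
      gcongr
      linarith
    have h2 : sf f ε (zz η w) ≤ (A ^ 2 + ε) *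
        (Real.cosh (2 * η) * Real.exp (2 * wsum w)) ^ d := by
      unfold sf
      have h3 : ‖eval (zz η w) f‖ ^ 2 ≤ (A * (Real.cosh η * Real.exp (wsum w)) ^ d) ^ 2 :=
        pow_le_pow_left₀ (norm_nonneg _) h1 2
      have h4 : (A * (Real.cosh η * Real.exp (wsum w)) ^ d) ^ 2 =
          A ^ 2 * (Real.cosh η ^ 2 * Real.exp (2 * wsum w)) ^ d := by
        rw [two_mul (wsum w), Real.exp_add]
        ring
      have h5 : Real.cosh η ^ 2 ≤ Real.cosh (2 * η) := by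
        rw [Real.cosh_two_mul]
        have := sq_nonneg (Real.sinh η)
        linarith
      have h6 : (Real.cosh η ^ 2 * Real.exp (2 * wsum w)) ^ d ≤
          (Real.cosh (2 * η) * Real.exp (2 * wsum w)) ^ d := by gcongr
      have h7 : 1 ≤ (Real.cosh (2 * η) * Real.exp (2 * wsum w)) ^ d := by
        refine one_le_pow₀ ?_
        have := Real.one_le_exp (show 0 ≤ 2 * wsum w by positivity)
        have := Real.one_le_cosh (2 * η)
        nlinarith
      calc ‖eval (zz η w) f‖ ^ 2 + ε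
          ≤ A ^ 2 * (Real.cosh (2 * η) * Real.exp (2 * wsum w)) ^ d
            + ε * (Real.cosh (2 * η) * Real.exp (2 * wsum w)) ^ d := by
            refine add_le_add (h3.trans (h4.le.trans ?_)) (le_mul_of_one_le_right hε.le h7)
            gcongr
        _ = _ := by ring
    have hc0 : 0 < Real.cosh (2 * η) := Real.cosh_pos _
    calc sf f ε (zz η w) ^ κ
        ≤ ((A ^ 2 + ε) * (Real.cosh (2 * η) * Real.exp (2 * wsum w)) ^ d) ^ κ :=
          Real.rpow_le_rpow (sf_pos f hε _).le h2 hκ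
      _ = (A ^ 2 + ε) ^ κ * Real.cosh (2 * η) ^ (κ * d) *
        Real.exp (2 * (κ * d) * ∑ j, (|w.1 j| + |w.2 j|)) := by
          have e1 : (Real.cosh (2 * η) ^ d) ^ κ = Real.cosh (2 * η) ^ (κ * d) := by
            rw [← Real.rpow_natCast, ← Real.rpow_mul hc0.le, mul_comm κ]
          have e2 : (Real.exp (2 * wsum w) ^ d) ^ κ =
              Real.exp (2 * (κ * d) * ∑ j, (|w.1 j| + |w.2 j|)) := by
            rw [← Real.exp_nat_mul, ← Real.exp_mul]
            congr 1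
            unfold wsum
            ring
          rw [Real.mul_rpow (by positivity) (by positivity), mul_pow,
            Real.mul_rpow (by positivity) (by positivity), e1, e2]
          ring
  have hint := integrable_exp_gam2 (ι := ι) (2 * (κ * d))
  calc ∫ w, sf f ε (zz η w) ^ κ ∂(gam2 ι)
      ≤ ∫ w, (A ^ 2 + ε) ^ κ * Real.cosh (2 * η) ^ (κ * d) *
        Real.exp (2 * (κ * d) * ∑ j, (|w.1 j| + |w.2 j|)) ∂(gam2 ι) :=
        integral_mono (sf_integrable f hε κ η) (hint.const_mul _) key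
    _ = _ := by rw [integral_const_mul]; ring

/-! ### the one-parameter inequality -/

theorem Gd.neg {H : (ι → ℂ) → ℂ} (hH : Gd H) : Gd (fun z => -H z) := by
  simpa using hH.const_mul (-1)

theorem Gd.sub {H K : (ι → ℂ) → ℂ} (hH : Gd H) (hK : Gd K) : Gd (fun z => H z - K z) := by
  simpa [sub_eq_add_neg] using hH.add hK.neg

theorem Gd_nb (f : MvPolynomial ι ℂ) {ε : ℝ} (hε : 0 < ε) (u v : MvPolynomial ι ℂ)
    (a : ℝ) : Gd (nb f ε u v a) := by
  unfold nb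
  exact ((Gd_el f hε _ _ _).add ((Gd_el f hε _ _ _).const_mul _)).sub
    ((Gd_el f hε _ _ _).const_mul _)

theorem Gd_AG (f : MvPolynomial ι ℂ) {ε : ℝ} (hε : 0 < ε) (κ : ℝ) : Gd (AG f ε κ) := by
  unfold AG
  exact ((Gd_el f hε _ _ _).const_mul _).sub ((Gd_el f hε _ _ _).const_mul _)

theorem Gd_BG (f : MvPolynomial ι ℂ) {ε : ℝ} (hε : 0 < ε) (κ : ℝ) : Gd (BG f ε κ) := by
  unfold BG
  exact ((Gd_nb f hε _ _ _).const_mul _).sub ((Gd_nb f hε _ _ _).const_mul _)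

theorem deriv_Phi (f : MvPolynomial ι ℂ) {ε : ℝ} (hε : 0 < ε) (κ η : ℝ) :
    HasDerivAt (fun η => ∫ w, sf f ε (zz η w) ^ κ ∂(gam2 ι))
      (2 * Real.tanh (2 * η) * (∫ w, AG f ε κ (zz η w) ∂(gam2 ι)).re) η := by
  have h := star f hε 1 1 κ η
  have h1 : (fun η => ∫ w, el f ε 1 1 κ (zz η w) ∂(gam2 ι)) =
      fun η => ((∫ w, sf f ε (zz η w) ^ κ ∂(gam2 ι) : ℝ) : ℂ) := by
    funext η
    simp only [el_one]
    exact integral_ofReal
  have h2 : ∫ w, nb f ε 1 1 κ (zz η w) ∂(gam2 ι) =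
      conj (∫ w, AG f ε κ (zz η w) ∂(gam2 ι)) := by
    simp only [nb_one]
    exact integral_conj
  rw [h1, h2] at h
  have h3 := Complex.reCLM.hasFDerivAt.comp_hasDerivAt η h
  refine h3.congr_deriv ?_
  have e : ∀ c : ℂ, 2 * (Real.tanh (2 * η) : ℂ) * c = ((2 * Real.tanh (2 * η) : ℝ) : ℂ) * c := by
    intro c
    push_cast
    ring
  rw [Complex.reCLM_apply, e, Complex.re_ofReal_mul, Complex.conj_re]

theorem deriv_A (f : MvPolynomial ι ℂ) {ε : ℝ} (hε : 0 < ε) (κ η : ℝ) :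
    HasDerivAt (fun η => (∫ w, AG f ε κ (zz η w) ∂(gam2 ι)).re)
      (2 * Real.tanh (2 * η) * (∫ w, BG f ε κ (zz η w) ∂(gam2 ι)).re) η := by
  have h1 := (star f hε (nOp f) f (κ - 1) η).const_mul (κ : ℂ)
  have h2 := (star f hε (gm f f) (f ^ 2) (κ - 2) η).const_mul ((κ : ℂ) * ((κ : ℂ) - 1))
  have e1 : (fun η => ∫ w, AG f ε κ (zz η w) ∂(gam2 ι)) =
      fun η => (κ : ℂ) * (∫ w, el f ε (nOp f) f (κ - 1) (zz η w) ∂(gam2 ι)) -
        (κ : ℂ) * ((κ : ℂ) - 1) * ∫ w, el f ε (gm f f) (f ^ 2) (κ - 2) (zz η w) ∂(gam2 ι) := by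
    funext η
    unfold AG
    rw [integral_sub ((el_integrable f hε _ _ _ η).const_mul _)
      ((el_integrable f hε _ _ _ η).const_mul _), integral_const_mul, integral_const_mul]
  have e2 : ∫ w, BG f ε κ (zz η w) ∂(gam2 ι) =
      (κ : ℂ) * (∫ w, nb f ε (nOp f) f (κ - 1) (zz η w) ∂(gam2 ι)) -
        (κ : ℂ) * ((κ : ℂ) - 1) * ∫ w, nb f ε (gm f f) (f ^ 2) (κ - 2) (zz η w) ∂(gam2 ι) := by
    unfold BG
    rw [integral_sub (((Gd_nb f hε _ _ _).integrable η).const_mul _)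
      (((Gd_nb f hε _ _ _).integrable η).const_mul _), integral_const_mul, integral_const_mul]
  have h : HasDerivAt (fun η => ∫ w, AG f ε κ (zz η w) ∂(gam2 ι))
      (((2 * Real.tanh (2 * η) : ℝ) : ℂ) * ∫ w, BG f ε κ (zz η w) ∂(gam2 ι)) η := by
    rw [e1, e2]
    refine (h1.sub h2).congr_deriv ?_
    push_cast
    ring
  have h3 := Complex.reCLM.hasFDerivAt.comp_hasDerivAt η h
  refine h3.congr_deriv ?_
  simp only [Complex.reCLM_apply, Complex.re_ofReal_mul]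

theorem Phi_pos (f : MvPolynomial ι ℂ) {ε κ : ℝ} (hε : 0 < ε) (hκ : 0 ≤ κ) (η : ℝ) :
    0 < ∫ w, sf f ε (zz η w) ^ κ ∂(gam2 ι) := by
  have h : ∫ _w : (ι → ℝ) × (ι → ℝ), ε ^ κ ∂(gam2 ι) ≤ ∫ w, sf f ε (zz η w) ^ κ ∂(gam2 ι) :=
    integral_mono (integrable_const _) (sf_integrable f hε κ η)
      fun w => Real.rpow_le_rpow hε.le (sf_ge f ε _) hκ
  rw [integral_const] at h
  simp only [probReal_univ, smul_eq_mul, one_mul] at h
  exact lt_of_lt_of_le (Real.rpow_pos_of_pos hε κ) h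

theorem A_sq_le (f : MvPolynomial ι ℂ) {ε κ : ℝ} (hε : 0 < ε) (hκ : 1 ≤ κ) (η : ℝ) :
    (∫ w, AG f ε κ (zz η w) ∂(gam2 ι)).re ^ 2 ≤
      (∫ w, sf f ε (zz η w) ^ κ ∂(gam2 ι)) * (∫ w, BG f ε κ (zz η w) ∂(gam2 ι)).re := by
  set Φ := ∫ w, sf f ε (zz η w) ^ κ ∂(gam2 ι) with hΦ
  have hΦ0 : 0 < Φ := Phi_pos f hε (by linarith) η
  have iA := (Gd_AG f hε κ).integrable η
  have iB := (Gd_BG f hε κ).integrable η
  have iBr : Integrable (fun w => (BG f ε κ (zz η w)).re) (gam2 ι) := iB.re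
  have iS := sf_integrable f hε κ η
  have hB : (∫ w, BG f ε κ (zz η w) ∂(gam2 ι)).re = ∫ w, (BG f ε κ (zz η w)).re ∂(gam2 ι) :=
    (integral_re iB).symm
  set b := ∫ w, (BG f ε κ (zz η w)).re ∂(gam2 ι) with hb
  rw [hB]
  set A := ∫ w, ‖AG f ε κ (zz η w)‖ ∂(gam2 ι) with hA
  have hA0 : 0 ≤ A := integral_nonneg fun w => norm_nonneg _
  have h1 : |(∫ w, AG f ε κ (zz η w) ∂(gam2 ι)).re| ≤ A :=
    (Complex.abs_re_le_norm _).trans (norm_integral_le_integral_norm _)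
  have h2 : (∫ w, AG f ε κ (zz η w) ∂(gam2 ι)).re ^ 2 ≤ A ^ 2 := by
    rw [← sq_abs]
    exact pow_le_pow_left₀ (abs_nonneg _) h1 2
  refine h2.trans ?_
  have hbn : 0 ≤ b := integral_nonneg fun w => by
    have h3 := AG_le_BG f hε hκ (zz η w)
    have h4 : 0 < sf f ε (zz η w) ^ κ := Real.rpow_pos_of_pos (sf_pos f hε _) κ
    have h5 : 0 ≤ sf f ε (zz η w) ^ κ * (BG f ε κ (zz η w)).re := (sq_nonneg _).trans h3
    exact nonneg_of_mul_nonneg_right h5 h4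
  rcases hA0.eq_or_lt with h0 | hpos
  · rw [← h0]
    simp only [ne_eq, OfNat.ofNat_ne_zero, not_false_eq_true, zero_pow]
    positivity
  have key : ∀ t : ℝ, 0 < t → 2 * A ≤ t * Φ + t⁻¹ * b := by
    intro t ht
    have h6 : ∫ w, 2 * ‖AG f ε κ (zz η w)‖ ∂(gam2 ι) ≤
        ∫ w, (t * sf f ε (zz η w) ^ κ + t⁻¹ * (BG f ε κ (zz η w)).re) ∂(gam2 ι) := by
      refine integral_mono (iA.norm.const_mul 2) ((iS.const_mul t).add (iBr.const_mul t⁻¹)) ?_
      intro w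
      have h3 := AG_le_BG f hε hκ (zz η w)
      have h4 : 0 < sf f ε (zz η w) ^ κ := Real.rpow_pos_of_pos (sf_pos f hε _) κ
      have h5 : 0 ≤ sf f ε (zz η w) ^ κ * (BG f ε κ (zz η w)).re := (sq_nonneg _).trans h3
      have h7 : 0 ≤ (BG f ε κ (zz η w)).re := nonneg_of_mul_nonneg_right h5 h4
      have h8 : (2 * ‖AG f ε κ (zz η w)‖) ^ 2 ≤
          (t * sf f ε (zz η w) ^ κ + t⁻¹ * (BG f ε κ (zz η w)).re) ^ 2 := by
        have h9 : t * sf f ε (zz η w) ^ κ * (t⁻¹ * (BG f ε κ (zz η w)).re) =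
            sf f ε (zz η w) ^ κ * (BG f ε κ (zz η w)).re := by
          field_simp
        nlinarith [sq_nonneg (t * sf f ε (zz η w) ^ κ - t⁻¹ * (BG f ε κ (zz η w)).re)]
      exact (abs_le_of_sq_le_sq' h8 (by positivity)).2
    rw [integral_const_mul, integral_add (iS.const_mul t) (iBr.const_mul t⁻¹),
      integral_const_mul, integral_const_mul] at h6
    exact h6
  have h10 := key (A / Φ) (by positivity)
  have h11 : A / Φ * Φ = A := by field_simp
  rw [h11, inv_div] at h10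
  have h12 : A ≤ Φ / A * b := by linarith
  have h13 : Φ / A * b = Φ * b / A := by ring
  rw [h13, le_div_iff₀ hpos] at h12
  rw [sq]
  exact h12

theorem gauss_eps (f : MvPolynomial ι ℂ) (d : ℕ) (hf : f.totalDegree ≤ d) {ε κ : ℝ}
    (hε : 0 < ε) (hκ : 1 ≤ κ) (η : ℝ) (hη : 0 ≤ η) :
    ∫ w, sf f ε (zz η w) ^ κ ∂(gam2 ι) ≤
      Real.cosh (2 * η) ^ (κ * d) * ∫ w, sf f ε (zz 0 w) ^ κ ∂(gam2 ι) := by
  obtain ⟨C, hC⟩ := sf_growth f d hf hε (show 0 ≤ κ by linarith)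
  exact ode_bound (fun η => ∫ w, sf f ε (zz η w) ^ κ ∂(gam2 ι))
    (fun η => (∫ w, AG f ε κ (zz η w) ∂(gam2 ι)).re)
    (fun η => (∫ w, BG f ε κ (zz η w) ∂(gam2 ι)).re) (κ * d) C
    (fun η => Phi_pos f hε (by linarith) η) (fun η => deriv_Phi f hε κ η)
    (fun η => deriv_A f hε κ η) (fun η => A_sq_le f hε hκ η) hC η hη

theorem zz_zero (w : (ι → ℝ) × (ι → ℝ)) : zz 0 w = fun j => ((w.1 j : ℝ) : ℂ) := by
  funext j
  simp [zz]

theorem integral_fst (g : (ι → ℝ) → ℝ) :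
    ∫ w, g w.1 ∂(gam2 ι) = ∫ x, g x ∂(gam ι) := by
  unfold gam2
  rw [integral_fun_fst]
  simp

theorem gauss_one (f : MvPolynomial ι ℂ) (d : ℕ) (hf : f.totalDegree ≤ d) {p : ℝ}
    (hp : 2 ≤ p) (η : ℝ) (hη : 0 ≤ η) :
    ∫ w, ‖eval (zz η w) f‖ ^ p ∂(gam2 ι) ≤
      Real.cosh (2 * η) ^ (p * d / 2) *
        ∫ x, ‖eval (fun j => ((x j : ℝ) : ℂ)) f‖ ^ p ∂(gam ι) := by
  set κ := p / 2 with hκdef
  have hκ : 1 ≤ κ := by rw [hκdef]; linarith
  have hpow : ∀ z : ι → ℂ, ‖eval z f‖ ^ p = (‖eval z f‖ ^ 2) ^ κ := by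
    intro z
    rw [← Real.rpow_natCast, ← Real.rpow_mul (norm_nonneg _)]
    congr 1
    rw [hκdef]; push_cast; ring
  have hexp : p * d / 2 = κ * d := by rw [hκdef]; ring
  rw [hexp]
  -- bound for each ε
  have hle : ∀ ε : ℝ, 0 < ε → ∫ w, ‖eval (zz η w) f‖ ^ p ∂(gam2 ι) ≤
      Real.cosh (2 * η) ^ (κ * d) *
        ∫ x, (‖eval (fun j => ((x j : ℝ) : ℂ)) f‖ ^ 2 + ε) ^ κ ∂(gam ι) := by
    intro ε hε
    have h1 := gauss_eps f d hf hε hκ η hη
    have h2 : ∫ w, sf f ε (zz 0 w) ^ κ ∂(gam2 ι) =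
        ∫ x, (‖eval (fun j => ((x j : ℝ) : ℂ)) f‖ ^ 2 + ε) ^ κ ∂(gam ι) := by
      simp only [zz_zero]
      exact integral_fst (fun x => (‖eval (fun j => ((x j : ℝ) : ℂ)) f‖ ^ 2 + ε) ^ κ)
    rw [h2] at h1
    refine le_trans ?_ h1
    refine integral_mono_of_nonneg (ae_of_all _ fun w => by positivity)
      (sf_integrable f hε κ η) (ae_of_all _ fun w => ?_)
    simp only
    rw [hpow]
    unfold sf
    exact Real.rpow_le_rpow (by positivity) (by linarith) (by linarith)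
  -- integrability of the dominating function
  have hcont : Continuous (fun x : ι → ℝ => eval (fun j => ((x j : ℝ) : ℂ)) f) :=
    (MvPolynomial.continuous_eval f).comp (by fun_prop)
  have hint1 : Integrable (fun x : ι → ℝ =>
      (‖eval (fun j => ((x j : ℝ) : ℂ)) f‖ ^ 2 + 1) ^ κ) (gam ι) := by
    have h := sf_integrable f one_pos κ 0
    simp only [zz_zero, sf] at h
    have h' : Integrable (fun w : (ι → ℝ) × (ι → ℝ) =>
      (fun x : ι → ℝ => (‖eval (fun j => ((x j : ℝ) : ℂ)) f‖ ^ 2 + 1) ^ κ) w.1)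
        ((gam ι).prod (gam ι)) := h
    exact h'.of_comp_fst (IsProbabilityMeasure.ne_zero _)
  have hlim : Filter.Tendsto (fun n : ℕ => ∫ x, (‖eval (fun j => ((x j : ℝ) : ℂ)) f‖ ^ 2 +
      1 / ((n : ℝ) + 1)) ^ κ ∂(gam ι)) Filter.atTop
      (nhds (∫ x, ‖eval (fun j => ((x j : ℝ) : ℂ)) f‖ ^ p ∂(gam ι))) := by
    refine tendsto_integral_of_dominated_convergence
      (fun x => (‖eval (fun j => ((x j : ℝ) : ℂ)) f‖ ^ 2 + 1) ^ κ) (fun n => ?_) hint1
      (fun n => ae_of_all _ fun x => ?_) (ae_of_all _ fun x => ?_)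
    · refine Continuous.aestronglyMeasurable ?_
      refine Continuous.rpow_const (by fun_prop) fun x => Or.inl ?_
      positivity
    · have hn : (1 : ℝ) / ((n : ℝ) + 1) ≤ 1 := by
        rw [div_le_one (by positivity)]
        have : (0 : ℝ) ≤ n := Nat.cast_nonneg n
        linarith
      rw [Real.norm_of_nonneg (by positivity)]
      exact Real.rpow_le_rpow (by positivity) (by linarith) (by linarith)
    · rw [hpow]
      have h1 : Filter.Tendsto (fun n : ℕ => ‖eval (fun j => ((x j : ℝ) : ℂ)) f‖ ^ 2 +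
          1 / ((n : ℝ) + 1)) Filter.atTop
          (nhds (‖eval (fun j => ((x j : ℝ) : ℂ)) f‖ ^ 2)) := by
        simpa using tendsto_one_div_add_atTop_nhds_zero_nat.const_add
          (‖eval (fun j => ((x j : ℝ) : ℂ)) f‖ ^ 2)
      exact h1.rpow_const (Or.inr (by linarith))
  refine ge_of_tendsto' (hlim.const_mul _) fun n => hle _ (by positivity)

end RowG3

end Pool.Agent.Helper12.GM
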